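import Mathlib

open Finset Classical

namespace Pool.Agent.H66.RG

/-- number of neighbours of `x` in `S` -/
noncomputable def dg {V : Type} (Γ : SimpleGraph V) (x : V) (S : Finset V) : ℕ :=
  #{y ∈ S | Γ.Adj x y}

/-- common neighbours in `S` of the vertices of `Q` -/
noncomputable def cn {V : Type} (Γ : SimpleGraph V) (Q S : Finset V) : Finset V :=
  {y ∈ S | ∀ x ∈ Q, Γ.Adj x y}

theorem dg_le_card {V : Type} (Γ : SimpleGraph V) (x : V) (S : Finset V) : dg Γ x S ≤ #S :=
  Finset.card_filter_le _ _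

theorem dg_mono {V : Type} (Γ : SimpleGraph V) (x : V) {S T : Finset V} (h : S ⊆ T) :
    dg Γ x S ≤ dg Γ x T :=
  Finset.card_le_card (Finset.filter_subset_filter _ h)

theorem cn_subset {V : Type} (Γ : SimpleGraph V) (Q S : Finset V) : cn Γ Q S ⊆ S :=
  Finset.filter_subset _ _

theorem mem_cn {V : Type} {Γ : SimpleGraph V} {Q S : Finset V} {y : V} :
    y ∈ cn Γ Q S ↔ y ∈ S ∧ ∀ x ∈ Q, Γ.Adj x y := by
  simp [cn]

theorem cn_anti {V : Type} (Γ : SimpleGraph V) {Q Q' : Finset V} (S : Finset V) (h : Q' ⊆ Q) :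
    cn Γ Q S ⊆ cn Γ Q' S := by
  intro y hy
  rw [mem_cn] at hy ⊢
  exact ⟨hy.1, fun x hx => hy.2 x (h hx)⟩

/-- double counting of the edges between two sets -/
theorem sum_dg {V : Type} (Γ : SimpleGraph V) (A B : Finset V) :
    ∑ x ∈ A, dg Γ x B = ∑ y ∈ B, dg Γ y A := by
  have h := Finset.sum_card_bipartiteAbove_eq_sum_card_bipartiteBelow (fun x y => Γ.Adj x y)
    (s := A) (t := B)
  unfold Finset.bipartiteAbove Finset.bipartiteBelow at h
  unfold dg
  rw [h]
  apply Finset.sum_congr rfl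
  intro y _
  congr 1
  apply Finset.filter_congr
  intro x _
  exact Γ.adj_comm x y

theorem pig (t : ℕ) (δ : ℝ) (hδ : 0 < δ) : ∃ (m : ℕ) (c : ℝ), 0 < c ∧
    ∀ (V : Type) (Γ : SimpleGraph V) (S Q : Finset V), m ≤ #Q →
      (∀ x ∈ Q, δ * #S ≤ dg Γ x S) → ∃ Q' ⊆ Q, #Q' = t ∧ c * #S ≤ #(cn Γ Q' S) := by
  set m : ℕ := max ⌈2 * t / δ⌉₊ t + 1 with hm
  have htm : t ≤ m := by omega
  have hmpos : 0 < m := by omega
  have hδm : 2 * (t : ℝ) ≤ δ * m := by
    have h1 : 2 * (t : ℝ) / δ ≤ m := by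
      refine (Nat.le_ceil _).trans ?_
      exact_mod_cast (by omega : ⌈2 * (t : ℝ) / δ⌉₊ ≤ m)
    rw [div_le_iff₀ hδ] at h1
    linarith
  have hch : 0 < m.choose t := Nat.choose_pos htm
  refine ⟨m, δ / 2 / (m.choose t), by positivity, ?_⟩
  intro V Γ S Q hQ hdeg
  obtain ⟨Q0, hQ0, hcard⟩ := Finset.exists_subset_card_eq hQ
  by_contra hcon
  push Not at hcon
  set S1 : Finset V := {y ∈ S | t ≤ dg Γ y Q0} with hS1
  have hsum1 : (m : ℝ) * (δ * #S) ≤ ∑ x ∈ Q0, (dg Γ x S : ℝ) := by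
    have := Finset.card_nsmul_le_sum Q0 (fun x => (dg Γ x S : ℝ)) (δ * #S)
      (fun x hx => hdeg x (hQ0 hx))
    rw [hcard, nsmul_eq_mul] at this
    exact this
  have hsum2 : (∑ x ∈ Q0, (dg Γ x S : ℝ)) = ∑ y ∈ S, (dg Γ y Q0 : ℝ) := by
    exact_mod_cast sum_dg Γ Q0 S
  have hsum3 : ∑ y ∈ S, (dg Γ y Q0 : ℝ) ≤ t * #S + m * #S1 := by
    have h1 : ∀ y ∈ S, (dg Γ y Q0 : ℝ) ≤ t + (if t ≤ dg Γ y Q0 then (m : ℝ) else 0) := by
      intro y _
      split_ifs with h
      · have : dg Γ y Q0 ≤ m := hcard ▸ dg_le_card Γ y Q0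
        have : (dg Γ y Q0 : ℝ) ≤ m := by exact_mod_cast this
        have : (0 : ℝ) ≤ t := by positivity
        linarith
      · push Not at h
        have : (dg Γ y Q0 : ℝ) ≤ t := by exact_mod_cast h.le
        linarith
    refine (Finset.sum_le_sum h1).trans ?_
    rw [Finset.sum_add_distrib, Finset.sum_const, nsmul_eq_mul, ← Finset.sum_filter,
      Finset.sum_const, nsmul_eq_mul]
    rw [mul_comm (#S : ℝ), mul_comm _ (m : ℝ)]
  have hS1card : δ / 2 * #S ≤ #S1 := by
    have hmR : (0 : ℝ) < m := by exact_mod_cast hmpos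
    have h1 : (m : ℝ) * (δ * #S) ≤ t * #S + m * #S1 := by
      rw [← hsum2] at hsum3
      exact hsum1.trans hsum3
    have h2 : (t : ℝ) * #S ≤ δ * m / 2 * #S := by
      apply mul_le_mul_of_nonneg_right _ (by positivity)
      linarith
    have h3 : (m : ℝ) * (δ / 2 * #S) ≤ m * #S1 := by nlinarith
    exact le_of_mul_le_mul_left h3 hmR
  have hcover : S1 ⊆ (Finset.powersetCard t Q0).biUnion (fun T => cn Γ T S) := by
    intro y hy
    rw [hS1, Finset.mem_filter] at hy
    obtain ⟨T, hT, hTc⟩ := Finset.exists_subset_card_eq hy.2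
    rw [Finset.mem_biUnion]
    refine ⟨T, ?_, ?_⟩
    · rw [Finset.mem_powersetCard]
      exact ⟨hT.trans (Finset.filter_subset _ _), hTc⟩
    · rw [mem_cn]
      refine ⟨hy.1, fun x hx => ?_⟩
      have := hT hx
      rw [Finset.mem_filter] at this
      exact this.2.symm
  have hlt : (#S1 : ℝ) < (m.choose t) * (δ / 2 / (m.choose t) * #S) := by
    have h1 : (#S1 : ℝ) ≤ ∑ T ∈ Finset.powersetCard t Q0, (#(cn Γ T S) : ℝ) := by
      exact_mod_cast (Finset.card_le_card hcover).trans Finset.card_biUnion_le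
    refine h1.trans_lt ?_
    have hne : (Finset.powersetCard t Q0).Nonempty := by
      rw [← Finset.card_pos, Finset.card_powersetCard, hcard]
      exact hch
    have h2 := Finset.sum_lt_sum_of_nonempty hne
      (f := fun T => (#(cn Γ T S) : ℝ)) (g := fun _ => δ / 2 / (m.choose t) * #S) (by
        intro T hT
        rw [Finset.mem_powersetCard] at hT
        exact hcon T (hT.1.trans hQ0) hT.2)
    refine h2.trans_le ?_
    rw [Finset.sum_const, Finset.card_powersetCard, hcard, nsmul_eq_mul]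
  have hch' : (0 : ℝ) < m.choose t := by exact_mod_cast hch
  have : (m.choose t : ℝ) * (δ / 2 / (m.choose t) * #S) = δ / 2 * #S := by
    field_simp
  rw [this] at hlt
  linarith

/-- pigeonhole for several sets at the same time -/
theorem pigs (k t : ℕ) (δ : ℝ) (hδ : 0 < δ) : ∃ (m : ℕ) (c : ℝ), 0 < c ∧ c ≤ 1 ∧
    ∀ (V : Type) (Γ : SimpleGraph V) (S : Fin k → Finset V) (Q : Finset V), m ≤ #Q →
      (∀ x ∈ Q, ∀ i, δ * #(S i) ≤ dg Γ x (S i)) →
      ∃ Q' ⊆ Q, #Q' = t ∧ ∀ i, c * #(S i) ≤ #(cn Γ Q' (S i)) := by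
  induction k with
  | zero =>
    refine ⟨t, 1, one_pos, le_rfl, ?_⟩
    intro V Γ S Q hQ _
    obtain ⟨Q', h1, h2⟩ := Finset.exists_subset_card_eq hQ
    exact ⟨Q', h1, h2, fun i => i.elim0⟩
  | succ k ih =>
    obtain ⟨m1, c1, hc1, hc1', H1⟩ := ih
    obtain ⟨m0, c0, hc0, H0⟩ := pig m1 δ hδ
    refine ⟨m0, min c0 c1, lt_min hc0 hc1, (min_le_right _ _).trans hc1', ?_⟩
    intro V Γ S Q hQ hdeg
    obtain ⟨Q1, hQ1, hQ1c, hQ1cn⟩ := H0 V Γ (S 0) Q hQ (fun x hx => hdeg x hx 0)
    obtain ⟨Q2, hQ2, hQ2c, hQ2cn⟩ := H1 V Γ (fun i => S i.succ) Q1 hQ1c.ge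
      (fun x hx i => hdeg x (hQ1 hx) i.succ)
    refine ⟨Q2, hQ2.trans hQ1, hQ2c, ?_⟩
    intro i
    refine Fin.cases ?_ ?_ i
    · calc min c0 c1 * #(S 0) ≤ c0 * #(S 0) := by
            apply mul_le_mul_of_nonneg_right (min_le_left _ _) (by positivity)
        _ ≤ #(cn Γ Q1 (S 0)) := hQ1cn
        _ ≤ #(cn Γ Q2 (S 0)) := by exact_mod_cast Finset.card_le_card (cn_anti Γ _ hQ2)
    · intro i
      calc min c0 c1 * #(S i.succ) ≤ c1 * #(S i.succ) := by
            apply mul_le_mul_of_nonneg_right (min_le_right _ _) (by positivity)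
        _ ≤ _ := hQ2cn i

/-- there is a complete multipartite subgraph with `k` parts of size `t`, the `i`-th part in `P i` -/
def HasMulti {V : Type} (Γ : SimpleGraph V) (k t : ℕ) (P : Fin k → Finset V) : Prop :=
  ∃ S : Fin k → Finset V, (∀ i, S i ⊆ P i ∧ #(S i) = t) ∧
    ∀ i j, i ≠ j → ∀ x ∈ S i, ∀ y ∈ S j, Γ.Adj x y

theorem HasMulti.mono {V : Type} {Γ : SimpleGraph V} {k t : ℕ} {P P' : Fin k → Finset V}
    (h : HasMulti Γ k t P) (hP : ∀ i, P i ⊆ P' i) : HasMulti Γ k t P' := by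
  obtain ⟨S, h1, h2⟩ := h
  exact ⟨S, fun i => ⟨(h1 i).1.trans (hP i), (h1 i).2⟩, h2⟩

/-- all but fewer than `a` vertices of `P` have density at least `δ` into every subset of `Q` with at least `b` elements -/
def BiD {V : Type} (Γ : SimpleGraph V) (δ : ℝ) (P Q : Finset V) (a b : ℝ) : Prop :=
  ∀ B ⊆ Q, b ≤ #B → (#{x ∈ P | (dg Γ x B : ℝ) < δ * #B} : ℝ) < a

theorem BiD.mono {V : Type} {Γ : SimpleGraph V} {δ : ℝ} {P Q P' Q' : Finset V} {a b : ℝ}
    (h : BiD Γ δ P Q a b) (hP : P' ⊆ P) (hQ : Q' ⊆ Q) : BiD Γ δ P' Q' a b := by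
  intro B hB hb
  refine lt_of_le_of_lt ?_ (h B (hB.trans hQ) hb)
  exact_mod_cast Finset.card_le_card (Finset.filter_subset_filter _ hP)

/-- sets which are pairwise dense in the robust sense contain a complete multipartite graph -/
theorem multi_of_biD (k t : ℕ) (δ : ℝ) (hδ : 0 < δ) : ∃ L : ℝ, 1 ≤ L ∧
    ∀ (V : Type) (Γ : SimpleGraph V) (P : Fin k → Finset V) (m : Fin k → ℝ), (∀ i, 0 ≤ m i) →
      (∀ i, L * (m i + 1) ≤ #(P i)) → (∀ i j, i ≠ j → BiD Γ δ (P i) (P j) (m i) (m j)) →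
      HasMulti Γ k t P := by
  induction k with
  | zero =>
    refine ⟨1, le_rfl, ?_⟩
    intro V Γ P m _ _ _
    exact ⟨fun i => ∅, fun i => i.elim0, fun i => i.elim0⟩
  | succ k ih =>
    obtain ⟨L1, hL1, H1⟩ := ih
    obtain ⟨m1, c, hc, hc1, H0⟩ := pigs k t δ hδ
    refine ⟨max (k + m1 + 1) (L1 / c), ?_, ?_⟩
    · refine le_max_of_le_left ?_
      have : (0 : ℝ) ≤ k := by positivity
      have : (0 : ℝ) ≤ m1 := by positivity
      linarith
    intro V Γ P m hm hP hB
    set L : ℝ := max (k + m1 + 1) (L1 / c) with hL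
    have hLa : (k : ℝ) + m1 + 1 ≤ L := le_max_left _ _
    have hLb : L1 / c ≤ L := le_max_right _ _
    -- good vertices of the first part
    set Q : Finset V := {x ∈ P 0 | ∀ i : Fin k, δ * #(P i.succ) ≤ dg Γ x (P i.succ)} with hQ
    have hbad : P 0 \ Q ⊆ Finset.univ.biUnion (fun i : Fin k =>
        {x ∈ P 0 | (dg Γ x (P i.succ) : ℝ) < δ * #(P i.succ)}) := by
      intro x hx
      rw [Finset.mem_sdiff, hQ, Finset.mem_filter] at hx
      obtain ⟨h1, h2⟩ := hx
      have : ¬ ∀ i : Fin k, δ * #(P i.succ) ≤ dg Γ x (P i.succ) := fun h => h2 ⟨h1, h⟩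
      push Not at this
      obtain ⟨i, hi⟩ := this
      rw [Finset.mem_biUnion]
      exact ⟨i, Finset.mem_univ _, by rw [Finset.mem_filter]; exact ⟨h1, hi⟩⟩
    have hbadc : (#(P 0 \ Q) : ℝ) ≤ k * m 0 := by
      have h1 : (#(P 0 \ Q) : ℝ) ≤ ∑ i : Fin k,
          (#{x ∈ P 0 | (dg Γ x (P i.succ) : ℝ) < δ * #(P i.succ)} : ℝ) := by
        exact_mod_cast (Finset.card_le_card hbad).trans Finset.card_biUnion_le
      refine h1.trans ?_
      have h2 : ∀ i ∈ (Finset.univ : Finset (Fin k)),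
          (#{x ∈ P 0 | (dg Γ x (P i.succ) : ℝ) < δ * #(P i.succ)} : ℝ) ≤ m 0 := by
        intro i _
        refine (hB 0 i.succ (Fin.succ_ne_zero i).symm (P i.succ) (Finset.Subset.refl _) ?_).le
        have h3 := hP i.succ
        have h4 : m i.succ ≤ L * (m i.succ + 1) := by
          have := hm i.succ
          have h5 : (1 : ℝ) ≤ L := by
            have : (0 : ℝ) ≤ k := by positivity
            have : (0 : ℝ) ≤ m1 := by positivity
            linarith
          nlinarith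
        linarith
      refine (Finset.sum_le_sum h2).trans ?_
      simp
    have hQc : m1 ≤ #Q := by
      have h1 : (#(P 0) : ℝ) ≤ #(P 0 \ Q) + #Q := by
        have := Finset.card_sdiff_add_card_eq_card (s := Q) (t := P 0) (Finset.filter_subset _ _)
        exact_mod_cast this.ge
      have h2 := hP 0
      have h3 : ((k : ℝ) + m1 + 1) * (m 0 + 1) ≤ L * (m 0 + 1) := by
        apply mul_le_mul_of_nonneg_right hLa
        have := hm 0
        linarith
      have h4 : (0 : ℝ) ≤ k := by positivity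
      have h5 : (0 : ℝ) ≤ m1 := by positivity
      have h6 := hm 0
      have : (m1 : ℝ) ≤ #Q := by nlinarith
      exact_mod_cast this
    obtain ⟨Q', hQ', hQ'c, hQ'n⟩ := H0 V Γ (fun i => P i.succ) Q hQc (by
      intro x hx i
      rw [hQ, Finset.mem_filter] at hx
      exact hx.2 i)
    have hrec := H1 V Γ (fun i => cn Γ Q' (P i.succ)) (fun i => m i.succ) (fun i => hm _) (by
      intro i
      refine le_trans ?_ (hQ'n i)
      have h1 := hP i.succ
      have h2 : L1 / c * (m i.succ + 1) ≤ L * (m i.succ + 1) := by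
        apply mul_le_mul_of_nonneg_right hLb
        have := hm i.succ
        linarith
      have h3 : L1 / c * (m i.succ + 1) ≤ #(P i.succ) := h2.trans h1
      have h4 : c * (L1 / c * (m i.succ + 1)) ≤ c * #(P i.succ) :=
        mul_le_mul_of_nonneg_left h3 hc.le
      have h5 : c * (L1 / c * (m i.succ + 1)) = L1 * (m i.succ + 1) := by
        field_simp
      rw [h5] at h4
      exact h4) (by
      intro i j hij
      exact (hB i.succ j.succ (fun h => hij (Fin.succ_injective _ h))).mono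
        (cn_subset _ _ _) (cn_subset _ _ _))
    obtain ⟨S, hS1, hS2⟩ := hrec
    refine ⟨Fin.cons Q' S, ?_, ?_⟩
    · intro i
      refine Fin.cases ?_ ?_ i
      · simp only [Fin.cons_zero]
        exact ⟨hQ'.trans (Finset.filter_subset _ _), hQ'c⟩
      · intro i
        simp only [Fin.cons_succ]
        exact ⟨(hS1 i).1.trans (cn_subset _ _ _), (hS1 i).2⟩
    · intro i j
      refine Fin.cases ?_ ?_ i
      · refine Fin.cases ?_ ?_ j
        · intro h; exact absurd rfl h
        · intro j _ x hx y hy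
          simp only [Fin.cons_zero, Fin.cons_succ] at hx hy
          have := (hS1 j).1 hy
          rw [mem_cn] at this
          exact this.2 x hx
      · intro i
        refine Fin.cases ?_ ?_ j
        · intro _ x hx y hy
          simp only [Fin.cons_zero, Fin.cons_succ] at hx hy
          have := (hS1 i).1 hx
          rw [mem_cn] at this
          exact (this.2 y hy).symm
        · intro j hij x hx y hy
          simp only [Fin.cons_succ] at hx hy
          exact hS2 i j (fun h => hij (by rw [h])) x hx y hy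

end Pool.Agent.H66.RG
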