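import Pool.Agent.H66.RG.Basic

open Finset Classical

namespace Pool.Agent.H66.RG

/-- one step of the potential argument -/
theorem pot_step {V : Type} (Γ : SimpleGraph V) (u : V) (C : Finset V) (π θ K : ℝ) (hπ : 0 < π)
    (hπ1 : π ≤ 1) (hθ : 0 ≤ θ) (hθ1 : θ ≤ 1) (hK : 0 ≤ K) (hKC : K ≤ #C)
    (hu : (dg Γ u C : ℝ) ≤ π * K) :
    ∑ x ∈ C, (if Γ.Adj u x then (1 / π) ^ θ else (1 : ℝ)) ≤ (1 + θ) * #C := by
  have hinv : 0 ≤ 1 / π - 1 := by
    rw [sub_nonneg, le_div_iff₀ hπ]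
    linarith
  have hb : (1 / π) ^ θ ≤ 1 + θ * (1 / π - 1) := by
    have := rpow_one_add_le_one_add_mul_self (s := 1 / π - 1) (by linarith) hθ hθ1
    rwa [add_sub_cancel] at this
  have h1 : ∑ x ∈ C, (if Γ.Adj u x then (1 / π) ^ θ else (1 : ℝ)) ≤
      ∑ x ∈ C, ((if Γ.Adj u x then θ * (1 / π - 1) else 0) + 1) := by
    apply Finset.sum_le_sum
    intro x _
    split_ifs
    · linarith
    · linarith
  rw [Finset.sum_add_distrib, ← Finset.sum_filter, Finset.sum_const, Finset.sum_const,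
    nsmul_eq_mul, nsmul_eq_mul] at h1
  have h2 : (#{x ∈ C | Γ.Adj u x} : ℝ) * (θ * (1 / π - 1)) ≤ π * K * (θ * (1 / π - 1)) :=
    mul_le_mul_of_nonneg_right hu (mul_nonneg hθ hinv)
  have h3 : π * K * (θ * (1 / π - 1)) = K * θ * (1 - π) := by
    field_simp
  have h4 : K * θ * (1 - π) ≤ #C * θ := by
    have h5 : K * θ ≤ #C * θ := mul_le_mul_of_nonneg_right hKC hθ
    have h6 : 0 ≤ K * θ := mul_nonneg hK hθ
    have h7 : K * θ * (1 - π) ≤ K * θ * 1 := mul_le_mul_of_nonneg_left (by linarith) h6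
    linarith
  linarith

theorem prod_one_add_le {X : Type} (S : Finset X) (θ : X → ℝ) (hθ : ∀ x ∈ S, 0 ≤ θ x) (B : ℝ)
    (h : ∑ x ∈ S, θ x ≤ B) : ∏ x ∈ S, (1 + θ x) ≤ Real.exp B := by
  have h1 : ∏ x ∈ S, (1 + θ x) ≤ ∏ x ∈ S, Real.exp (θ x) := by
    apply Finset.prod_le_prod
    · intro x hx
      have := hθ x hx
      linarith
    · intro x _
      have := Real.add_one_le_exp (θ x)
      linarith
  refine h1.trans ?_
  rw [← Real.exp_sum]
  exact Real.exp_le_exp.2 h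

/-- the product of the weights of the hits is large if there are many hits -/
theorem prod_hit {X : Type} (S : Finset X) (hit : X → Prop) (θ : X → ℝ) (π : ℝ) (hπ : 0 < π)
    (hπ1 : π ≤ 1) (M : ℕ) (h : (M : ℝ) ≤ ∑ x ∈ S with hit x, θ x) :
    1 ≤ π ^ M * ∏ x ∈ S, (if hit x then (1 / π) ^ θ x else (1 : ℝ)) := by
  rw [Finset.prod_ite, Finset.prod_const_one, mul_one]
  have h0 : (0 : ℝ) < 1 / π := by positivity
  have h1 : (1 : ℝ) ≤ 1 / π := by
    rw [le_div_iff₀ hπ]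
    linarith
  rw [← Real.rpow_sum_of_pos h0]
  have h2 : (1 / π) ^ (M : ℝ) ≤ (1 / π) ^ (∑ x ∈ S with hit x, θ x) :=
    Real.rpow_le_rpow_of_exponent_le h1 h
  rw [Real.rpow_natCast] at h2
  have h3 : (1 : ℝ) = π ^ M * (1 / π) ^ M := by
    rw [← mul_pow, mul_one_div_cancel hπ.ne', one_pow]
  calc (1 : ℝ) = π ^ M * (1 / π) ^ M := h3
    _ ≤ _ := mul_le_mul_of_nonneg_left h2 (by positivity)

end Pool.Agent.H66.RG
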