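import Pool.Agent.H66.RG.Order2
import Pool.Agent.H66.RG.Pot

open Finset Classical

namespace Pool.Agent.H66.RG

/-- the embedding into an almost complete host with few exceptional vertices -/
theorem caseA_embed (d m0 M : ℕ) (κ κ1 β ρY : ℝ) (hκ : κ = 1 / (4 * (4 * d + 1)))
    (hκ1 : 0 < κ1) (hκ1a : κ1 ≤ κ / 2) (hκ1b : κ1 ≤ ρY / 2) (hβ : 0 < β)
    (hβ1 : (4 * d * m0 + d) * β ≤ κ1 / 4)
    {n : ℕ} (hn : 0 < n) (G : SimpleGraph (Fin n)) (hG : Degen G d) {p : Fin n → ℕ} {b : ℕ}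
    (hp : BW G p b) (hN1 : 2 * (m0 * (4 * b + 1)) ≤ n) (hN2 : 4 * (m0 + 4 * d * m0) ≤ n)
    (hN3 : 2 * M * (2 * b + 1) ≤ κ * n) (hN4 : 4 * d * m0 ≤ κ1 / 4 * n)
    {V : Type} (Γ : SimpleGraph V) (H U0 Y : Finset V) (hHU : H ⊆ U0) (hYU : Disjoint U0 Y)
    (hYc : #Y ≤ m0) (hH : (1 - κ / 8) * n ≤ #H) (hHdeg : ∀ x ∈ H, (dg Γ x U0 : ℝ) ≤ β * n)
    (hYr : ∀ y ∈ Y, ρY * n ≤ rdg Γ y H) (s : ℕ) (hs : #U0 + #Y = n + s)
    (hπ : ∀ u ∈ U0, (max (dg Γ u H : ℝ) 1 : ℝ) ≤ κ1 * n)
    (hpot : ∑ u ∈ U0, (Real.exp (8 * d) * (max (dg Γ u H : ℝ) 1 / (κ1 * n))) ^ M < (s : ℝ) + 1) :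
    ∃ φ : Fin n → V, Function.Injective φ ∧ ∀ u v, G.Adj u v → ¬ Γ.Adj (φ u) (φ v) := by
  have hn0 : (0 : ℝ) < n := by exact_mod_cast hn
  have hd0 : (0 : ℝ) ≤ d := by positivity
  have hκpos : 0 < κ := by rw [hκ]; positivity
  have hκle : κ ≤ 1 / 4 := by
    rw [hκ]
    apply div_le_div_of_nonneg_left (by norm_num) (by norm_num)
    linarith
  -- low degree vertices
  set Low : Finset (Fin n) := {v | dg G v Finset.univ ≤ 4 * d} with hLow
  have hLowc : n ≤ 2 * #Low := card_low G hG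
  have hLowd : ∀ v ∈ Low, dg G v Finset.univ ≤ 4 * d := by
    intro v hv
    rw [hLow, Finset.mem_filter] at hv
    exact hv.2
  obtain ⟨W, hWL, hWc, hWs⟩ := exists_spaced hp.inj (2 * b) Low #Y (by
    have h1 : #Y * (2 * (2 * b) + 1) ≤ m0 * (4 * b + 1) := by
      have : 2 * (2 * b) + 1 = 4 * b + 1 := by ring
      rw [this]
      exact Nat.mul_le_mul_right _ hYc
    omega)
  have hWnadj : ∀ u ∈ W, ∀ v ∈ W, ¬ G.Adj u v := by
    intro u hu v hv huv
    have h1 := hp.bw u v huv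
    have h2 := hp.bw v u huv.symm
    rcases hWs u hu v hv huv.ne with h | h <;> omega
  have hWcommon : ∀ u ∈ W, ∀ v ∈ W, ∀ y, G.Adj u y → G.Adj v y → u = v := by
    intro u hu v hv y huy hvy
    by_contra hne
    have h1 := hp.bw u y huy
    have h2 := hp.bw y u huy.symm
    have h3 := hp.bw v y hvy
    have h4 := hp.bw y v hvy.symm
    rcases hWs u hu v hv hne with h | h <;> omega
  set NW : Finset (Fin n) := W.biUnion fun w => {y | G.Adj w y} with hNW
  have hmemNW : ∀ y, y ∈ NW ↔ ∃ w ∈ W, G.Adj w y := by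
    intro y
    rw [hNW, Finset.mem_biUnion]
    simp
  have hNWc : #NW ≤ 4 * d * m0 := by
    have h1 : #NW ≤ ∑ w ∈ W, #({y | G.Adj w y} : Finset (Fin n)) := Finset.card_biUnion_le
    have h2 : ∑ w ∈ W, #({y | G.Adj w y} : Finset (Fin n)) ≤ #W * (4 * d) := by
      have := Finset.sum_le_card_nsmul W (fun w => #({y | G.Adj w y} : Finset (Fin n))) (4 * d)
        (fun w hw => hLowd w (hWL hw))
      rwa [smul_eq_mul] at this
    have h3 : #W * (4 * d) ≤ 4 * d * m0 := by
      rw [hWc, mul_comm]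
      exact Nat.mul_le_mul_left _ hYc
    omega
  have hWNW : Disjoint W NW := by
    rw [Finset.disjoint_left]
    intro v hv hv2
    obtain ⟨w, hw, hwv⟩ := (hmemNW v).1 hv2
    exact hWnadj w hw v hv hwv
  -- the independent set
  obtain ⟨I, hIL, hIc, hI⟩ := exists_indep G (4 * d) (Low \ (W ∪ NW)) (by
    intro v hv
    exact hLowd v (Finset.mem_sdiff.1 hv).1)
  have hIdeg : ∀ u ∈ I, dg G u Finset.univ ≤ 4 * d :=
    fun u hu => hLowd u (Finset.mem_sdiff.1 (hIL hu)).1
  have hIW : ∀ v ∈ I, v ∉ W := fun v hv h =>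
    (Finset.mem_sdiff.1 (hIL hv)).2 (Finset.mem_union_left _ h)
  have hINW : ∀ v ∈ I, v ∉ NW := fun v hv h =>
    (Finset.mem_sdiff.1 (hIL hv)).2 (Finset.mem_union_right _ h)
  have hIn : #I ≤ n := by
    have := Finset.card_le_univ I
    rwa [Fintype.card_fin] at this
  have hIκ : κ * n ≤ #I := by
    have h1 : #Low ≤ #(Low \ (W ∪ NW)) + #(W ∪ NW) := Finset.card_le_card_sdiff_add_card
    have h2 : #(W ∪ NW) ≤ #W + #NW := Finset.card_union_le _ _
    have h3 : n ≤ 4 * ((4 * d + 1) * #I) := by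
      rw [hWc] at h2
      omega
    have h4 : (n : ℝ) ≤ 4 * ((4 * d + 1) * #I) := by exact_mod_cast h3
    rw [hκ, div_mul_eq_mul_div, one_mul, div_le_iff₀ (by positivity)]
    linarith
  have hIpos : (0 : ℝ) < #I := lt_of_lt_of_le (by positivity) hIκ
  have hINe : I.Nonempty := by
    rw [← Finset.card_pos]
    exact_mod_cast hIpos
  have hNe : Nonempty V := by
    have h1 : (0 : ℝ) < #H := by
      have : 0 < (1 - κ / 8) * n := mul_pos (by linarith) hn0
      linarith
    have h2 : 0 < #H := by exact_mod_cast h1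
    obtain ⟨x, _⟩ := Finset.card_pos.1 h2
    exact ⟨x⟩
  obtain ⟨ξ, hξY, hξi⟩ := exists_inj W Y hWc.le
  -- the remaining vertices
  set S2 : Finset (Fin n) := Finset.univ \ (I ∪ W ∪ NW) with hS2
  have hNWS2 : Disjoint NW S2 := by
    rw [Finset.disjoint_left]
    intro v hv hv2
    rw [hS2, Finset.mem_sdiff] at hv2
    exact hv2.2 (Finset.mem_union_right _ hv)
  obtain ⟨e, he1, he2, he4, he5, he3⟩ := order_two G hn hG NW S2 hNWS2
  set S : Finset (Fin n) := NW ∪ S2 with hS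
  have hSm : ∀ v, v ∈ S ↔ v ∉ I ∧ v ∉ W := by
    intro v
    rw [hS, Finset.mem_union, hS2, Finset.mem_sdiff, Finset.mem_union, Finset.mem_union]
    constructor
    · rintro (h | h)
      · exact ⟨fun h2 => hINW v h2 h, fun h2 => Finset.disjoint_left.1 hWNW h2 h⟩
      · exact ⟨fun h2 => h.2 (Or.inl (Or.inl h2)), fun h2 => h.2 (Or.inl (Or.inr h2))⟩
    · rintro ⟨h1, h2⟩
      by_cases h3 : v ∈ NW
      · exact Or.inl h3
      · right
        refine ⟨Finset.mem_univ _, ?_⟩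
        rintro ((h4 | h4) | h4)
        · exact h1 h4
        · exact h2 h4
        · exact h3 h4
  have hScard : #S + #I + #W = n := by
    have h1 : Disjoint I W := by
      rw [Finset.disjoint_left]
      exact hIW
    have h2 : Sᶜ = I ∪ W := by
      ext v
      rw [Finset.mem_compl, hSm, Finset.mem_union]
      tauto
    have h3 := Finset.card_compl_add_card S
    rw [h2, Finset.card_union_of_disjoint h1, Fintype.card_fin] at h3
    omega
  have hScard' : #NW + #S2 = #S := (Finset.card_union_of_disjoint hNWS2).symm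
  rw [hScard'] at he1 he2 he5 he3
  have hnbrI : ∀ x ∈ I, ∀ y, G.Adj x y → y ∈ S := by
    intro x hx y hxy
    rw [hSm]
    refine ⟨fun hy => hI x hx y hy hxy, fun hy => hINW x hx ?_⟩
    rw [hmemNW]
    exact ⟨y, hy, hxy.symm⟩
  -- candidates
  set T : Fin n → Finset V := fun v => {z ∈ H | ∀ w ∈ W, G.Adj w v → ¬ Γ.Adj (ξ w) z} with hT
  have hTH : ∀ v, T v ⊆ H := fun v => Finset.filter_subset _ _
  have hT1 : ∀ v, v ∉ NW → T v = H := by
    intro v hv
    rw [hT]
    apply Finset.filter_true_of_mem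
    intro z _ w hw hwv
    exact absurd ((hmemNW v).2 ⟨w, hw, hwv⟩) hv
  have hT2 : ∀ v, v ∈ NW → ρY * n ≤ #(T v) := by
    intro v hv
    obtain ⟨w, hw, hwv⟩ := (hmemNW v).1 hv
    refine (hYr (ξ w) (hξY w hw)).trans ?_
    have : rdg Γ (ξ w) H ≤ #(T v) := by
      apply Finset.card_le_card
      intro z hz
      rw [Finset.mem_filter] at hz
      rw [hT, Finset.mem_filter]
      refine ⟨hz.1, ?_⟩
      intro w' hw' hw'v
      rw [hWcommon w' hw' w hw v hw'v hwv]
      exact hz.2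
    exact_mod_cast this
  set π : V → ℝ := fun u => max (dg Γ u H : ℝ) 1 / (κ1 * n) with hπd
  have hκ1n : 0 < κ1 * n := by positivity
  have hmax : ∀ u, (0 : ℝ) < max (dg Γ u H : ℝ) 1 := fun u => lt_max_of_lt_right one_pos
  have hπ0 : ∀ u, 0 < π u := fun u => div_pos (hmax u) hκ1n
  have hπ1 : ∀ u ∈ U0, π u ≤ 1 := by
    intro u hu
    rw [hπd]
    exact (div_le_one hκ1n).2 (hπ u hu)
  set θ : Fin n → ℝ := fun v => 2 * M * dg G v I / #I with hθ
  have hθ0 : ∀ v, 0 ≤ θ v := fun v => by rw [hθ]; positivity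
  have hθ1 : ∀ v, θ v ≤ 1 := by
    intro v
    rw [hθ]
    rw [div_le_one hIpos]
    have h1 : (dg G v I : ℝ) ≤ 2 * b + 1 := by exact_mod_cast dg_le_bw G hp v I
    have h2 : 2 * (M : ℝ) * dg G v I ≤ 2 * M * (2 * b + 1) :=
      mul_le_mul_of_nonneg_left h1 (by positivity)
    linarith
  have hθs : ∑ v ∈ S, θ v ≤ 8 * d * M := by
    have h1 : ∑ v ∈ S, θ v = 2 * M / #I * ∑ v ∈ S, (dg G v I : ℝ) := by
      rw [Finset.mul_sum]
      apply Finset.sum_congr rfl
      intro v _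
      rw [hθ]
      ring
    have h2 : ∑ v ∈ S, (dg G v I : ℝ) = ∑ x ∈ I, (dg G x S : ℝ) := by
      exact_mod_cast sum_dg G S I
    have h3 : ∑ x ∈ I, (dg G x S : ℝ) ≤ #I * (4 * d) := by
      have := Finset.sum_le_card_nsmul I (fun x => (dg G x S : ℝ)) (4 * d) (by
        intro x hx
        have : dg G x S ≤ 4 * d := (dg_mono G x (Finset.subset_univ S)).trans (hIdeg x hx)
        exact_mod_cast this)
      rwa [nsmul_eq_mul] at this
    rw [h1, h2]
    have h4 : 2 * M / #I * ∑ x ∈ I, (dg G x S : ℝ) ≤ 2 * M / #I * (#I * (4 * d)) :=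
      mul_le_mul_of_nonneg_left h3 (by positivity)
    refine h4.trans (le_of_eq ?_)
    field_simp
    ring
  have hDB : (#NW + d : ℕ) * (β * n) ≤ κ1 / 4 * n := by
    have h1 : ((#NW + d : ℕ) : ℝ) ≤ 4 * d * m0 + d := by
      have : #NW + d ≤ 4 * d * m0 + d := by omega
      exact_mod_cast this
    have h2 : ((#NW + d : ℕ) : ℝ) * (β * n) ≤ (4 * d * m0 + d) * (β * n) :=
      mul_le_mul_of_nonneg_right h1 (by positivity)
    have h3 : (4 * d * m0 + d) * β * n ≤ κ1 / 4 * n := mul_le_mul_of_nonneg_right hβ1 hn0.le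
    linarith
  obtain ⟨φ, hφ1, hφ2, hφ3, hφ4⟩ := greedyG Γ G S #S e he1 he2 (#NW + d) he3 U0
    (fun _ => True) T (fun _ => κ1 * n) (β * n) (by positivity)
    (fun u v z => if Γ.Adj u z then (1 / π u) ^ θ v else 1) (fun _ v => 1 + θ v)
    (by
      intro u _ v _ _ x hx
      refine le_trans ?_ (hHdeg x (hTH u hx))
      exact_mod_cast dg_mono Γ x ((hTH v).trans hHU))
    (by
      intro j hj
      have h0 : #{i ∈ range j | ¬ Disjoint (T (e i)) (T (e j))} ≤ j := by
        have := Finset.card_filter_le (range j) (fun i => ¬ Disjoint (T (e i)) (T (e j)))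
        rwa [Finset.card_range] at this
      rcases lt_or_ge j #NW with h1 | h1
      · have h2 := hT2 _ (he4 j h1)
        have h3 : (#{i ∈ range j | ¬ Disjoint (T (e i)) (T (e j))} : ℝ) ≤ 4 * d * m0 := by
          have : #{i ∈ range j | ¬ Disjoint (T (e i)) (T (e j))} ≤ 4 * d * m0 := by omega
          exact_mod_cast this
        have h4 : κ1 * n ≤ ρY / 2 * n := mul_le_mul_of_nonneg_right hκ1b hn0.le
        linarith
      · have h2 : e j ∉ NW := fun h => Finset.disjoint_left.1 hNWS2 h (he5 j h1 hj)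
        have h3 : (#{i ∈ range j | ¬ Disjoint (T (e i)) (T (e j))} : ℝ) ≤ n - #I := by
          have h4 : #{i ∈ range j | ¬ Disjoint (T (e i)) (T (e j))} + #I ≤ n := by omega
          have h5 : (#{i ∈ range j | ¬ Disjoint (T (e i)) (T (e j))} : ℝ) + #I ≤ n := by
            exact_mod_cast h4
          linarith
        have h4 : κ1 * n ≤ κ / 2 * n := mul_le_mul_of_nonneg_right hκ1a hn0.le
        have h5 : (0 : ℝ) ≤ κ * n := by positivity
        have h6 : (#H : ℝ) = #(T (e j)) := by rw [hT1 _ h2]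
        linarith)
    (fun v _ => hκ1n)
    (by
      intro u _ v _ z _
      have := hπ0 u
      split_ifs
      · positivity
      · exact zero_le_one)
    (by
      intro u _ v _
      have := hθ0 v
      linarith)
    (by
      intro u hu _ v _ C hC hKC
      refine pot_step Γ u C (π u) (θ v) (κ1 * n) (hπ0 u) (hπ1 u hu) (hθ0 v) (hθ1 v) hκ1n.le hKC ?_
      have h1 : (dg Γ u C : ℝ) ≤ dg Γ u H := by exact_mod_cast dg_mono Γ u (hC.trans (hTH v))
      have h2 : (dg Γ u H : ℝ) ≤ max (dg Γ u H : ℝ) 1 := le_max_left _ _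
      have h3 : π u * (κ1 * n) = max (dg Γ u H : ℝ) 1 := by
        rw [hπd]
        exact div_mul_cancel₀ _ hκ1n.ne'
      linarith)
    (fun _ _ h => absurd trivial h) (fun u => π u ^ M)
    (fun u _ _ => pow_nonneg (hπ0 u).le _) (fun _ _ h => absurd trivial h)
  -- final embedding of the vertices outside of the independent set
  set φ0 : Fin n → V := fun v => if v ∈ W then ξ v else φ v with hφ0
  have hφ0W : ∀ v, v ∈ W → φ0 v = ξ v := fun v hv => by simp [hφ0, hv]
  have hφ0S : ∀ v, v ∈ S → φ0 v = φ v := fun v hv => by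
    have : v ∉ W := ((hSm v).1 hv).2
    simp [hφ0, this]
  have hcase : ∀ v, v ∉ I → v ∈ W ∨ v ∈ S := by
    intro v hv
    by_cases h : v ∈ W
    · exact Or.inl h
    · exact Or.inr ((hSm v).2 ⟨hv, h⟩)
  have hφH : ∀ v ∈ S, φ v ∈ H := fun v hv => hTH v (hφ1 v hv)
  have hYH : ∀ y ∈ Y, y ∉ U0 := fun y hy h => Finset.disjoint_left.1 hYU h hy
  have hWS : ∀ w ∈ W, ∀ v ∈ S, G.Adj w v → ¬ Γ.Adj (ξ w) (φ v) := by
    intro w hw v hv hwv
    have := hφ1 v hv
    rw [hT, Finset.mem_filter] at this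
    exact this.2 w hw hwv
  -- bad vertices
  set Bad : Finset V := {u ∈ U0 | ¬ 2 * #{x ∈ I | ¬ Cpt Γ G φ0 x u} ≤ #I} with hBad
  have hBadle : (#Bad : ℝ) < s + 1 := by
    refine lt_of_le_of_lt ?_ hpot
    have h1 : ∑ u ∈ U0, π u ^ M * ∏ v ∈ S, (if Γ.Adj u (φ v) then (1 / π u) ^ θ v else 1) ≤
        ∑ u ∈ U0, (Real.exp (8 * d) * π u) ^ M := by
      refine hφ4.trans ?_
      apply Finset.sum_le_sum
      intro u hu
      rw [mul_pow, ← Real.exp_nat_mul, mul_comm (Real.exp _)]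
      apply mul_le_mul_of_nonneg_left _ (pow_nonneg (hπ0 u).le _)
      apply prod_one_add_le S θ (fun v _ => hθ0 v)
      refine hθs.trans (le_of_eq (by ring))
    refine le_trans ?_ h1
    have h2 : (#Bad : ℝ) = ∑ u ∈ Bad, (1 : ℝ) := by
      rw [Finset.sum_const, nsmul_eq_mul, mul_one]
    rw [h2]
    have h3 : ∑ u ∈ Bad, (1 : ℝ) ≤
        ∑ u ∈ Bad, π u ^ M * ∏ v ∈ S, (if Γ.Adj u (φ v) then (1 / π u) ^ θ v else 1) := by
      apply Finset.sum_le_sum
      intro u hu
      rw [hBad, Finset.mem_filter] at hu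
      refine prod_hit S (fun v => Γ.Adj u (φ v)) θ (π u) (hπ0 u) (hπ1 u hu.1) M ?_
      have h4 : #{x ∈ I | ¬ Cpt Γ G φ0 x u} ≤ ∑ v ∈ S with Γ.Adj u (φ v), dg G v I := by
        have h5 : ({x ∈ I | ¬ Cpt Γ G φ0 x u} : Finset (Fin n)) ⊆
            ({v ∈ S | Γ.Adj u (φ v)} : Finset (Fin n)).biUnion fun v => {x ∈ I | G.Adj v x} := by
          intro x hx
          rw [Finset.mem_filter] at hx
          obtain ⟨hxI, hx⟩ := hx
          unfold Cpt at hx
          push Not at hx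
          obtain ⟨y, hxy, hyu⟩ := hx
          have hyS := hnbrI x hxI y hxy
          rw [hφ0S y hyS] at hyu
          rw [Finset.mem_biUnion]
          refine ⟨y, ?_, ?_⟩
          · rw [Finset.mem_filter]
            exact ⟨hyS, hyu.symm⟩
          · rw [Finset.mem_filter]
            exact ⟨hxI, hxy.symm⟩
        exact (Finset.card_le_card h5).trans Finset.card_biUnion_le
      have h5 : #I ≤ 2 * ∑ v ∈ S with Γ.Adj u (φ v), dg G v I := by
        have := hu.2
        omega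
      have h6 : (#I : ℝ) ≤ 2 * ∑ v ∈ S with Γ.Adj u (φ v), (dg G v I : ℝ) := by
        exact_mod_cast h5
      have h7 : ∑ v ∈ S with Γ.Adj u (φ v), θ v =
          2 * M / #I * ∑ v ∈ S with Γ.Adj u (φ v), (dg G v I : ℝ) := by
        rw [Finset.mul_sum]
        apply Finset.sum_congr rfl
        intro v _
        rw [hθ]
        ring
      rw [h7, div_mul_eq_mul_div, le_div_iff₀ hIpos]
      have h8 : (M : ℝ) * #I ≤ M * (2 * ∑ v ∈ S with Γ.Adj u (φ v), (dg G v I : ℝ)) :=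
        mul_le_mul_of_nonneg_left h6 (by positivity)
      linarith
    refine h3.trans ?_
    apply Finset.sum_le_sum_of_subset_of_nonneg (Finset.filter_subset _ _)
    intro u _ _
    apply mul_nonneg (pow_nonneg (hπ0 u).le _)
    apply Finset.prod_nonneg
    intro v _
    have := hπ0 u
    split_ifs
    · positivity
    · exact zero_le_one
  have hBadle' : #Bad ≤ s := by
    have : #Bad < s + 1 := by exact_mod_cast hBadle
    omega
  set U : Finset V := (U0 \ S.image φ) \ Bad with hU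
  have hUU0 : U ⊆ U0 := Finset.sdiff_subset.trans Finset.sdiff_subset
  have hUc : #I ≤ #U := by
    have h1 : #U0 ≤ #(U0 \ S.image φ) + #(S.image φ) := Finset.card_le_card_sdiff_add_card
    have h2 : #(U0 \ S.image φ) ≤ #U + #Bad := Finset.card_le_card_sdiff_add_card
    have h3 : #(S.image φ) ≤ #S := Finset.card_image_le
    omega
  have hblock : ∀ x ∈ I, (#{u ∈ U0 | ¬ Cpt Γ G φ0 x u} : ℝ) ≤ 4 * d * (β * n) := by
    intro x hx
    have := blocked_le Γ G x φ0 U0 (β * n) (4 * d) (by positivity) (hIdeg x hx) (by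
      intro y hy
      have hyS := hnbrI x hx y hy
      rw [hφ0S y hyS]
      exact hHdeg _ (hφH y hyS))
    push_cast at this
    exact this
  refine finish Γ G I hI φ0 ?_ ?_ U ?_ hUc ?_ ?_
  · intro u hu v hv huv
    rcases hcase u hu with hu' | hu' <;> rcases hcase v hv with hv' | hv'
    · rw [hφ0W u hu', hφ0W v hv'] at huv
      exact hξi u hu' v hv' huv
    · rw [hφ0W u hu', hφ0S v hv'] at huv
      exact absurd (hHU (hφH v hv')) (huv ▸ hYH _ (hξY u hu'))
    · rw [hφ0S u hu', hφ0W v hv'] at huv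
      exact absurd (hHU (hφH u hu')) (huv ▸ hYH _ (hξY v hv'))
    · rw [hφ0S u hu', hφ0S v hv'] at huv
      exact hφ2 u hu' v hv' huv
  · intro u hu v hv huv
    rcases hcase u hu with hu' | hu' <;> rcases hcase v hv with hv' | hv'
    · exact absurd huv (hWnadj u hu' v hv')
    · rw [hφ0W u hu', hφ0S v hv']
      exact hWS u hu' v hv' huv
    · rw [hφ0S u hu', hφ0W v hv']
      exact fun h => hWS v hv' u hu' huv.symm h.symm
    · rw [hφ0S u hu', hφ0S v hv']
      exact hφ3 u hu' v hv' huv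
  · intro v hv hvU
    rcases hcase v hv with hv' | hv'
    · rw [hφ0W v hv'] at hvU
      exact hYH _ (hξY v hv') (hUU0 hvU)
    · rw [hφ0S v hv'] at hvU
      rw [hU, Finset.mem_sdiff, Finset.mem_sdiff] at hvU
      exact hvU.1.2 (Finset.mem_image_of_mem φ hv')
  · intro x hx
    have h1 := Finset.card_filter_add_card_filter_not (s := U) (fun u => Cpt Γ G φ0 x u)
    have h2 : (#{u ∈ U | ¬ Cpt Γ G φ0 x u} : ℝ) ≤ 4 * d * (β * n) := by
      refine le_trans ?_ (hblock x hx)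
      exact_mod_cast Finset.card_le_card (Finset.filter_subset_filter _ hUU0)
    have h3 : (#{u ∈ U | Cpt Γ G φ0 x u} : ℝ) + #{u ∈ U | ¬ Cpt Γ G φ0 x u} = #U := by
      exact_mod_cast h1
    have h5 : (#I : ℝ) ≤ #U := by exact_mod_cast hUc
    have h6 : (d : ℝ) * β ≤ κ1 / 4 := by
      have : (0 : ℝ) ≤ 4 * d * m0 * β := by positivity
      linarith
    have h7 : 4 * d * (β * n) ≤ κ / 2 * n := by
      have e1 : (d : ℝ) * β * n ≤ κ1 / 4 * n := mul_le_mul_of_nonneg_right h6 hn0.le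
      have e2 : κ1 * n ≤ κ / 2 * n := mul_le_mul_of_nonneg_right hκ1a hn0.le
      linarith
    have h4 : (#I : ℝ) ≤ 2 * #{u ∈ U | Cpt Γ G φ0 x u} := by linarith
    exact_mod_cast h4
  · intro u hu
    rw [hU, Finset.mem_sdiff, Finset.mem_sdiff] at hu
    by_contra hc
    apply hu.2
    rw [hBad, Finset.mem_filter]
    exact ⟨hu.1.1, hc⟩

end Pool.Agent.H66.RG
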