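import Pool.Agent.H66.RG.HasH

open Finset Classical

namespace Pool.Agent.H66.RG

/-- the counting argument which selects the part for the embedding -/
theorem pigeon_part {V : Type} [Fintype V] {q σ n : ℕ} (hq : 0 < q) (hσ : 0 < σ)
    (hV : Fintype.card V = q * (n - 1) + σ) (Sm : Fin q → Finset V) (X : Finset V)
    (hX : #X < σ) (hXY : ∀ v ∈ X, ∀ j, v ∉ Sm j) (jv : V → Fin q) :
    ∃ j, q * (n - 1) + 1 + #{v : V | 2 ≤ #{i | v ∈ Sm i}} ≤
      q * (#(Sm j) + #{v : V | (∀ i, v ∉ Sm i) ∧ v ∉ X ∧ jv v = j}) := by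
  by_contra hcon
  push Not at hcon
  set Z : Finset V := {v : V | 2 ≤ #{i | v ∈ Sm i}} with hZ
  have hqne : (Finset.univ : Finset (Fin q)).Nonempty := ⟨⟨0, hq⟩, Finset.mem_univ _⟩
  have h1 : ∑ j : Fin q, q * (#(Sm j) + #{v : V | (∀ i, v ∉ Sm i) ∧ v ∉ X ∧ jv v = j}) <
      ∑ _j : Fin q, (q * (n - 1) + 1 + #Z) :=
    Finset.sum_lt_sum_of_nonempty hqne (fun j _ => hcon j)
  rw [Finset.sum_const, Finset.card_univ, Fintype.card_fin, smul_eq_mul, ← Finset.mul_sum,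
    Finset.sum_add_distrib] at h1
  have h2 := Nat.lt_of_mul_lt_mul_left h1
  -- the sum of the sizes of the sets
  have h3 : ∑ j : Fin q, #(Sm j) = ∑ v : V, #{i | v ∈ Sm i} := by
    have h := Finset.sum_card_bipartiteAbove_eq_sum_card_bipartiteBelow
      (fun (j : Fin q) (v : V) => v ∈ Sm j) (s := Finset.univ) (t := Finset.univ)
    unfold Finset.bipartiteAbove Finset.bipartiteBelow at h
    rw [← h]
    apply Finset.sum_congr rfl
    intro j _
    congr 1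
    ext v
    simp
  have h4 : #{v : V | ∃ i, v ∈ Sm i} + #Z ≤ ∑ v : V, #{i | v ∈ Sm i} := by
    rw [hZ, Finset.card_filter, Finset.card_filter, ← Finset.sum_add_distrib]
    apply Finset.sum_le_sum
    intro v _
    by_cases h : ∃ i, v ∈ Sm i
    · have hpos : 0 < #({i | v ∈ Sm i} : Finset (Fin q)) := by
        obtain ⟨i, hi⟩ := h
        exact Finset.card_pos.2 ⟨i, by simpa using hi⟩
      split_ifs <;> omega
    · have h0 : #({i | v ∈ Sm i} : Finset (Fin q)) = 0 := by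
        rw [Finset.card_eq_zero, Finset.filter_eq_empty_iff]
        intro i _ hi
        exact h ⟨i, hi⟩
      simp [h, h0]
  have h5 : ∑ j : Fin q, #{v : V | (∀ i, v ∉ Sm i) ∧ v ∉ X ∧ jv v = j} =
      #{v : V | (∀ i, v ∉ Sm i) ∧ v ∉ X} := by
    have h := Finset.card_eq_sum_card_fiberwise (f := jv)
      (s := ({v : V | (∀ i, v ∉ Sm i) ∧ v ∉ X} : Finset V)) (t := Finset.univ)
      (fun _ _ => Finset.mem_coe.2 (Finset.mem_univ _))
    rw [h]
    apply Finset.sum_congr rfl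
    intro j _
    congr 1
    ext v
    simp only [Finset.mem_filter, Finset.mem_univ, true_and]
    tauto
  have h6 : #{v : V | ∀ i, v ∉ Sm i} ≤ #{v : V | (∀ i, v ∉ Sm i) ∧ v ∉ X} + #X := by
    refine (Finset.card_le_card (t := ({v : V | (∀ i, v ∉ Sm i) ∧ v ∉ X} : Finset V) ∪ X) ?_).trans
      (Finset.card_union_le _ _)
    intro v hv
    rw [Finset.mem_filter] at hv
    rw [Finset.mem_union, Finset.mem_filter]
    by_cases h : v ∈ X
    · exact Or.inr h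
    · exact Or.inl ⟨Finset.mem_univ _, hv.2, h⟩
  have h7 : #{v : V | ∃ i, v ∈ Sm i} + #{v : V | ∀ i, v ∉ Sm i} = Fintype.card V := by
    have h := Finset.card_filter_add_card_filter_not (s := (Finset.univ : Finset V))
      (fun v => ∃ i, v ∈ Sm i)
    rw [Finset.card_univ] at h
    rw [← h]
    congr 2
    ext v
    simp
  omega

theorem sum_pow_le_card {V : Type} (S : Finset V) (g : V → ℝ) (c : ℝ) (M : ℕ)
    (h0 : ∀ u ∈ S, 0 ≤ g u) (h : ∀ u ∈ S, g u ≤ c) : ∑ u ∈ S, g u ^ M ≤ #S * c ^ M := by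
  rw [← nsmul_eq_mul]
  apply Finset.sum_le_card_nsmul
  intro u hu
  exact pow_le_pow_left₀ (h0 u hu) (h u hu) M

/-- the initial value of the potential is small -/
theorem pot_sum {V : Type} [Fintype V] (Γ : SimpleGraph V) (U0 Z H : Finset V) (q t M m0 n : ℕ)
    (hn : 0 < n) (hq : 0 < q) (ht : 0 < t) (E κ1 δ : ℝ) (hE : 0 < E) (hκ1 : 0 < κ1) (hδ : 0 < δ)
    (hδE : E * (2 * δ) ≤ κ1 / 2) (hM2 : 2 ≤ M) (hMt : t ≤ M)
    (hM1 : (1 / 2 : ℝ) ^ M * (4 * q) ≤ 1)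
    (hM3 : (1 / 2 : ℝ) ^ (M - t) * m0 * (4 * E / κ1) ^ t * (4 * q) ≤ 1)
    (hH : (#H : ℝ) ≤ 2 * n) (hVc : (Fintype.card V : ℝ) ≤ (q + 1) * n)
    (hn1 : 2 * t * E ≤ κ1 * n) (hn2 : (q + 1) * (2 * t * E / κ1) ^ 2 * (4 * q) ≤ n)
    (hdeg : ∀ u ∈ U0, max (dg Γ u H : ℝ) 1 ≤ 2 * δ * n)
    (hT : ∀ T ⊆ H, #T = t → #(cnb Γ (U0 \ Z) T) ≤ m0) :
    ∑ u ∈ U0, (E * (max (dg Γ u H : ℝ) 1 / (κ1 * n))) ^ M ≤ #Z / (4 * q) + 1 / (2 * q) := by
  have hn0 : (0 : ℝ) < n := by exact_mod_cast hn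
  have hq0 : (0 : ℝ) < q := by exact_mod_cast hq
  have ht0 : (0 : ℝ) < t := by exact_mod_cast ht
  have hκ1n : 0 < κ1 * n := by positivity
  set g : V → ℝ := fun u => E * (max (dg Γ u H : ℝ) 1 / (κ1 * n)) with hg
  have hg0 : ∀ u, 0 ≤ g u := fun u => by
    have : (0 : ℝ) < max (dg Γ u H : ℝ) 1 := lt_max_of_lt_right one_pos
    rw [hg]
    positivity
  have hg1 : ∀ u ∈ U0, g u ≤ 1 / 2 := by
    intro u hu
    have h1 : g u = E * max (dg Γ u H : ℝ) 1 / (κ1 * n) := by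
      rw [hg]
      ring
    rw [h1, div_le_iff₀ hκ1n]
    have h2 : E * max (dg Γ u H : ℝ) 1 ≤ E * (2 * δ * n) :=
      mul_le_mul_of_nonneg_left (hdeg u hu) hE.le
    have h3 : E * (2 * δ) * n ≤ κ1 / 2 * n := mul_le_mul_of_nonneg_right hδE hn0.le
    linarith
  have hsplit : ∑ u ∈ U0, g u ^ M ≤ ∑ u ∈ U0 ∩ Z, g u ^ M + ∑ u ∈ U0 \ Z, g u ^ M := by
    rw [Finset.sum_inter_add_sum_sdiff]
  have hA : ∑ u ∈ U0 ∩ Z, g u ^ M ≤ #Z / (4 * q) := by
    have h1 := sum_pow_le_card (U0 ∩ Z) g (1 / 2) M (fun u _ => hg0 u)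
      (fun u hu => hg1 u (Finset.mem_inter.1 hu).1)
    refine h1.trans ?_
    rw [le_div_iff₀ (by positivity)]
    have h2 : (#(U0 ∩ Z) : ℝ) ≤ #Z := by exact_mod_cast Finset.card_le_card Finset.inter_subset_right
    have h3 : (#(U0 ∩ Z) : ℝ) * ((1 / 2) ^ M * (4 * q)) ≤ #(U0 ∩ Z) * 1 :=
      mul_le_mul_of_nonneg_left hM1 (by positivity)
    linarith
  have hsplit2 : ∑ u ∈ U0 \ Z, g u ^ M = ∑ u ∈ (U0 \ Z) with 2 * t ≤ dg Γ u H, g u ^ M +
      ∑ u ∈ (U0 \ Z) with ¬ 2 * t ≤ dg Γ u H, g u ^ M := by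
    rw [Finset.sum_filter_add_sum_filter_not]
  have hB : ∑ u ∈ (U0 \ Z) with 2 * t ≤ dg Γ u H, g u ^ M ≤ 1 / (4 * q) := by
    have h1 : ∀ u ∈ ({u ∈ U0 \ Z | 2 * t ≤ dg Γ u H} : Finset V),
        g u ^ M ≤ (1 / 2) ^ (M - t) * (E / (κ1 * n)) ^ t * (dg Γ u H : ℝ) ^ t := by
      intro u hu
      rw [Finset.mem_filter, Finset.mem_sdiff] at hu
      have h2 : g u ^ M = g u ^ (M - t) * g u ^ t := by
        rw [← pow_add]
        congr 1
        omega
      have h3 : g u ^ (M - t) ≤ (1 / 2) ^ (M - t) :=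
        pow_le_pow_left₀ (hg0 u) (hg1 u hu.1.1) _
      have h4 : g u ^ t = (E / (κ1 * n)) ^ t * (dg Γ u H : ℝ) ^ t := by
        rw [← mul_pow, hg]
        have h5 : max (dg Γ u H : ℝ) 1 = dg Γ u H := by
          apply max_eq_left
          have : 1 ≤ dg Γ u H := by omega
          exact_mod_cast this
        simp only [h5]
        congr 1
        ring
      rw [h2, h4, mul_assoc]
      apply mul_le_mul_of_nonneg_right h3
      have := hκ1n
      positivity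
    have h2 : (∑ u ∈ (U0 \ Z) with 2 * t ≤ dg Γ u H, (dg Γ u H : ℝ) ^ t) ≤ m0 * (2 * #H) ^ t := by
      exact_mod_cast kst_pow Γ (U0 \ Z) H t m0 hT
    have h3 : (2 * (#H : ℝ)) ^ t ≤ (4 * n) ^ t := pow_le_pow_left₀ (by positivity) (by linarith) t
    refine (Finset.sum_le_sum h1).trans ?_
    rw [← Finset.mul_sum]
    have h4 : (m0 : ℝ) * (2 * #H) ^ t ≤ m0 * (4 * n) ^ t :=
      mul_le_mul_of_nonneg_left h3 (by positivity)
    have h5 : (1 / 2 : ℝ) ^ (M - t) * (E / (κ1 * n)) ^ t *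
        (∑ u ∈ (U0 \ Z) with 2 * t ≤ dg Γ u H, (dg Γ u H : ℝ) ^ t) ≤
        (1 / 2 : ℝ) ^ (M - t) * (E / (κ1 * n)) ^ t * (m0 * (4 * n) ^ t) :=
      mul_le_mul_of_nonneg_left (h2.trans h4) (by positivity)
    refine h5.trans ?_
    have h6 : (1 / 2 : ℝ) ^ (M - t) * (E / (κ1 * n)) ^ t * (m0 * (4 * n) ^ t) =
        (1 / 2 : ℝ) ^ (M - t) * m0 * (4 * E / κ1) ^ t := by
      have h7 : (E / (κ1 * n)) ^ t * (4 * (n : ℝ)) ^ t = (4 * E / κ1) ^ t := by
        rw [← mul_pow]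
        congr 1
        field_simp
      calc (1 / 2 : ℝ) ^ (M - t) * (E / (κ1 * n)) ^ t * (m0 * (4 * n) ^ t)
          = (1 / 2 : ℝ) ^ (M - t) * m0 * ((E / (κ1 * n)) ^ t * (4 * (n : ℝ)) ^ t) := by ring
        _ = _ := by rw [h7]
    rw [h6, le_div_iff₀ (by positivity)]
    exact hM3
  have hC : ∑ u ∈ (U0 \ Z) with ¬ 2 * t ≤ dg Γ u H, g u ^ M ≤ 1 / (4 * q) := by
    set y : ℝ := 2 * t * E / (κ1 * n) with hy
    have hy0 : 0 ≤ y := by positivity
    have hy1 : y ≤ 1 := by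
      rw [hy, div_le_one hκ1n]
      exact hn1
    have h1 : ∀ u ∈ ({u ∈ U0 \ Z | ¬ 2 * t ≤ dg Γ u H} : Finset V), g u ≤ y := by
      intro u hu
      rw [Finset.mem_filter] at hu
      have h2 : max (dg Γ u H : ℝ) 1 ≤ 2 * t := by
        apply max_le
        · have : dg Γ u H ≤ 2 * t := by omega
          exact_mod_cast this
        · have : 1 ≤ 2 * t := by omega
          exact_mod_cast this
      have h3 : g u = max (dg Γ u H : ℝ) 1 * E / (κ1 * n) := by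
        rw [hg]
        ring
      rw [h3, hy]
      apply div_le_div_of_nonneg_right _ hκ1n.le
      exact mul_le_mul_of_nonneg_right h2 hE.le
    have h2 := sum_pow_le_card _ g y M (fun u _ => hg0 u) h1
    refine h2.trans ?_
    have h3 : y ^ M ≤ y ^ 2 := pow_le_pow_of_le_one hy0 hy1 hM2
    have h4 : (#({u ∈ U0 \ Z | ¬ 2 * t ≤ dg Γ u H} : Finset V) : ℝ) ≤ (q + 1) * n := by
      refine le_trans ?_ hVc
      exact_mod_cast Finset.card_le_univ _
    have h5 : (#({u ∈ U0 \ Z | ¬ 2 * t ≤ dg Γ u H} : Finset V) : ℝ) * y ^ M ≤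
        ((q + 1) * n) * y ^ 2 := mul_le_mul h4 h3 (by positivity) (by positivity)
    refine h5.trans ?_
    have h6 : ((q : ℝ) + 1) * n * y ^ 2 = (q + 1) * (2 * t * E / κ1) ^ 2 / n := by
      rw [hy]
      field_simp
    rw [h6, div_le_div_iff₀ hn0 (by positivity), one_mul]
    exact hn2
  have hD : (1 : ℝ) / (2 * q) = 1 / (4 * q) + 1 / (4 * q) := by
    field_simp
    norm_num
  rw [hD]
  linarith

end Pool.Agent.H66.RG
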