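import Pool.Agent.H66.RG.CaseA
import Pool.Agent.H66.RG.Pigeon

open Finset Classical

namespace Pool.Agent.H66.RG

theorem caseA_core (d q σ t m0 M : ℕ) (κ κ1 δ c' ρ c9 β' c4 γ ε E : ℝ) (hq : 0 < q) (hσ : 0 < σ)
    (ht : 0 < t) (hE : E = Real.exp (8 * d))
    (hκ : κ = 1 / (4 * (4 * d + 1))) (hκ1 : 0 < κ1) (hκ1a : κ1 ≤ κ / 2)
    (hκ1b : κ1 ≤ 1 / (16 * σ))
    (hδ : 0 < δ) (hδ1 : δ ≤ 1 / 2) (hδE : E * (2 * δ) ≤ κ1 / 2)
    (Hp : ∀ (V : Type) (Γ : SimpleGraph V) (S : Fin q → Finset V) (Q : Finset V), m0 ≤ #Q →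
      (∀ x ∈ Q, ∀ i, δ * #(S i) ≤ dg Γ x (S i)) →
      ∃ Q' ⊆ Q, #Q' = σ ∧ ∀ i, c' * #(S i) ≤ #(cn Γ Q' (S i)))
    (hc' : 0 < c') (hc'1 : c' ≤ 1)
    (hρ1 : ρ ≤ 1 / 2) (hρt : t * ρ ≤ c' / 2)
    (hc9 : 0 < c9) (hc91 : c9 ≤ c' / 4)
    (hM2 : 2 ≤ M) (hMt : t ≤ M) (hM1 : (1 / 2 : ℝ) ^ M * (4 * q) ≤ 1)
    (hM3 : (1 / 2 : ℝ) ^ (M - t) * m0 * (4 * E / κ1) ^ t * (4 * q) ≤ 1)
    (hβ' : 0 < β') (hβ'1 : β' ≤ δ / 4) (hβ'2 : (4 * d * m0 + d) * (2 * β') ≤ κ1 / 4)
    (hc4 : 0 < c4) (hc41 : q * c4 ≤ β' / 4) (hc42 : q * c4 ≤ κ / 64) (hc43 : q * c4 ≤ 1 / (32 * σ))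
    (hγ1 : γ ≤ β' * (κ / 32)) (hγ2 : γ ≤ β' * (1 / (32 * σ)))
    (hε : 0 < ε) (hε1 : q * ε ≤ β' / 4) (hε2 : ε ≤ κ / 32)
    {n b : ℕ} (hn : 0 < n) (hn1 : 4 * σ ≤ β' * n) (hn2 : 1 ≤ 2 * δ * n)
    (hn4 : 2 * t * E ≤ κ1 * n) (hn5 : (q + 1) * (2 * t * E / κ1) ^ 2 * (4 * q) ≤ n)
    (hN1 : 2 * (m0 * (4 * b + 1)) ≤ n) (hN2 : 4 * (m0 + 4 * d * m0) ≤ n)
    (hN3 : 2 * M * (2 * b + 1) ≤ κ * n) (hN4 : 4 * d * m0 ≤ κ1 / 4 * n) (hN5 : σ ≤ n)
    (G : SimpleGraph (Fin n)) (hG : Degen G d) {p : Fin n → ℕ} (hp : BW G p b)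
    {V : Type} [Fintype V] (Γ : SimpleGraph V) (hV : Fintype.card V = q * (n - 1) + σ)
    (hH : ¬ HasH Γ q σ t) (C : Fin q → Finset V) (hCd : ∀ i j, i ≠ j → Disjoint (C i) (C j))
    (hC1 : ∀ j, (1 - ε) * n ≤ #(C j) ∧ (#(C j) : ℝ) ≤ (1 + ε) * n)
    (hC2 : ∀ j, ∑ x ∈ C j, (dg Γ x (C j) : ℝ) ≤ γ * n ^ 2)
    (hst : ∀ P : Fin q → Finset V, (∀ j, P j ⊆ C j ∧ c9 * n ≤ #(P j)) → HasMulti Γ q t P)
    (hA : ∀ i j, i ≠ j → (#{v ∈ C j | ρ * (#(C i) : ℝ) ≤ rdg Γ v (C i)} : ℝ) ≤ c4 * n) :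
    ∃ φ : Fin n → V, Function.Injective φ ∧ ∀ u v, G.Adj u v → ¬ Γ.Adj (φ u) (φ v) := by
  have hn0 : (0 : ℝ) < n := by exact_mod_cast hn
  have hq0 : (0 : ℝ) < q := by exact_mod_cast hq
  have hq1 : (1 : ℝ) ≤ q := by exact_mod_cast hq
  have hσ0 : (0 : ℝ) < σ := by exact_mod_cast hσ
  have hσ1 : (1 : ℝ) ≤ σ := by exact_mod_cast hσ
  have hE0 : 0 < E := by rw [hE]; exact Real.exp_pos _
  have hE1 : 1 ≤ E := by rw [hE]; exact Real.one_le_exp (by positivity)
  have hκpos : 0 < κ := by rw [hκ]; positivity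
  have hκle : κ ≤ 1 / 4 := by
    rw [hκ]
    apply div_le_div_of_nonneg_left (by norm_num) (by norm_num)
    have : (0 : ℝ) ≤ d := by positivity
    linarith
  have hδκ : 2 * δ ≤ κ1 / 2 := by
    have : 1 * (2 * δ) ≤ E * (2 * δ) := mul_le_mul_of_nonneg_right hE1 (by positivity)
    linarith
  have hε14 : ε ≤ 1 / 4 := by linarith
  have hCl : ∀ j, (n : ℝ) / 2 ≤ #(C j) := by
    intro j
    have h1 : 3 / 4 * (n : ℝ) ≤ (1 - ε) * n := mul_le_mul_of_nonneg_right (by linarith) hn0.le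
    have h2 := (hC1 j).1
    linarith
  have hCu : ∀ j, (#(C j) : ℝ) ≤ 2 * n := by
    intro j
    have h1 : (1 + ε) * (n : ℝ) ≤ 2 * n := mul_le_mul_of_nonneg_right (by linarith) hn0.le
    have h2 := (hC1 j).2
    linarith
  have hCpos : ∀ j, (0 : ℝ) < #(C j) := fun j => by
    have := hCl j
    linarith
  have hc9n : ∀ j, c9 * n ≤ c' / 2 * #(C j) := by
    intro j
    have h1 : c9 * n ≤ c' / 4 * n := mul_le_mul_of_nonneg_right hc91 hn0.le
    have h2 : c' / 2 * (n / 2) ≤ c' / 2 * #(C j) :=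
      mul_le_mul_of_nonneg_left (hCl j) (by positivity)
    linarith
  have hc'C : ∀ j, c' / 2 * #(C j) ≤ (#(C j) : ℝ) / 2 := by
    intro j
    have : c' / 2 * #(C j) ≤ 1 / 2 * (#(C j) : ℝ) :=
      mul_le_mul_of_nonneg_right (by linarith) (hCpos j).le
    linarith
  -- the exceptional sets
  set X : Finset V := {v : V | ∀ j, (1 - 1 / (2 * σ)) * (#(C j) : ℝ) ≤ dg Γ v (C j)} with hX
  have hXc : #X < σ := card_X_lt Γ hσ hH C c9 hst (fun j => (hc9n j).trans (hc'C j))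
  set Y : Finset V := {v : V | ∀ j, δ * (#(C j) : ℝ) ≤ dg Γ v (C j)} with hY
  have hYc : #Y < m0 := card_Y_lt Γ hH C c9 c' δ hst (Hp V Γ) (fun j => by
    have h1 := hc9n j
    have h2 : (0 : ℝ) ≤ c' / 2 * #(C j) := by
      have := (hCpos j).le
      positivity
    linarith)
  set Sm : Fin q → Finset V := fun j => {v : V | (dg Γ v (C j) : ℝ) < δ * #(C j)} with hSm
  have hmemSm : ∀ v j, v ∈ Sm j ↔ (dg Γ v (C j) : ℝ) < δ * #(C j) := by
    intro v j
    rw [hSm]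
    simp
  have hσ2 : (1 : ℝ) / (2 * σ) ≤ 1 / 2 := by
    apply div_le_div_of_nonneg_left (by norm_num) (by norm_num)
    linarith
  have hXSm : ∀ v ∈ X, ∀ j, v ∉ Sm j := by
    intro v hv j hvj
    rw [hX, Finset.mem_filter] at hv
    rw [hmemSm] at hvj
    have h1 := hv.2 j
    have h2 : δ * #(C j) ≤ (1 - 1 / (2 * σ)) * (#(C j) : ℝ) :=
      mul_le_mul_of_nonneg_right (by linarith) (hCpos j).le
    linarith
  have hjv : ∀ v, ∃ j : Fin q, v ∉ X → (dg Γ v (C j) : ℝ) < (1 - 1 / (2 * σ)) * (#(C j) : ℝ) := by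
    intro v
    by_cases hv : v ∈ X
    · exact ⟨⟨0, hq⟩, fun h => absurd hv h⟩
    · have h1 : ¬ ∀ j, (1 - 1 / (2 * σ)) * (#(C j) : ℝ) ≤ dg Γ v (C j) := by
        intro h
        apply hv
        rw [hX, Finset.mem_filter]
        exact ⟨Finset.mem_univ _, h⟩
      push Not at h1
      obtain ⟨j, hj⟩ := h1
      exact ⟨j, fun _ => hj⟩
  choose jv hjv using hjv
  obtain ⟨j, hj⟩ := pigeon_part hq hσ hV Sm X hXc hXSm jv
  set Z : Finset V := {v : V | 2 ≤ #{i | v ∈ Sm i}} with hZ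
  set Yj : Finset V := {v : V | (∀ i, v ∉ Sm i) ∧ v ∉ X ∧ jv v = j} with hYj
  have ha : n ≤ #(Sm j) + #Yj := by
    by_contra hlt
    push Not at hlt
    have : q * (#(Sm j) + #Yj) ≤ q * (n - 1) := Nat.mul_le_mul_left _ (by omega)
    omega
  obtain ⟨s, hs⟩ := Nat.exists_eq_add_of_le ha
  have hsZ : 1 + #Z ≤ q * (s + 1) := by
    have h1 : q * (#(Sm j) + #Yj) = q * (n - 1) + q * (s + 1) := by
      rw [← Nat.mul_add]
      congr 1
      omega
    omega
  -- the core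
  set H : Finset V := {v ∈ C j | (dg Γ v (C j) : ℝ) ≤ β' * n ∧
    ∀ i, i ≠ j → (rdg Γ v (C i) : ℝ) < ρ * #(C i)} with hHd
  have hHC : H ⊆ C j := Finset.filter_subset _ _
  have hβn : 0 < β' * n := by positivity
  have hfirst : ∀ x : ℝ, γ ≤ β' * x →
      (#{v ∈ C j | ¬ (dg Γ v (C j) : ℝ) ≤ β' * n} : ℝ) ≤ x * n := by
    intro x hx
    have h1 : (#{v ∈ C j | ¬ (dg Γ v (C j) : ℝ) ≤ β' * n} : ℝ) * (β' * n) ≤ γ * n ^ 2 := by
      refine le_trans ?_ (hC2 j)
      have h2 : (#{v ∈ C j | ¬ (dg Γ v (C j) : ℝ) ≤ β' * n} : ℝ) * (β' * n) ≤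
          ∑ x ∈ C j with ¬ (dg Γ x (C j) : ℝ) ≤ β' * n, (dg Γ x (C j) : ℝ) := by
        rw [← nsmul_eq_mul]
        apply Finset.card_nsmul_le_sum
        intro v hv
        rw [Finset.mem_filter] at hv
        push Not at hv
        exact hv.2.le
      refine h2.trans ?_
      apply Finset.sum_le_sum_of_subset_of_nonneg (Finset.filter_subset _ _)
      intro v _ _
      positivity
    have h2 : γ * n ^ 2 ≤ β' * x * n ^ 2 := mul_le_mul_of_nonneg_right hx (by positivity)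
    have h3 : (#{v ∈ C j | ¬ (dg Γ v (C j) : ℝ) ≤ β' * n} : ℝ) * (β' * n) ≤ x * n * (β' * n) := by
      refine (h1.trans h2).trans (le_of_eq (by ring))
    exact le_of_mul_le_mul_right h3 hβn
  have hCH : (#(C j \ H) : ℝ) ≤ #{v ∈ C j | ¬ (dg Γ v (C j) : ℝ) ≤ β' * n} + q * c4 * n := by
    have h1 : C j \ H ⊆ {v ∈ C j | ¬ (dg Γ v (C j) : ℝ) ≤ β' * n} ∪
        ({i : Fin q | i ≠ j} : Finset (Fin q)).biUnion
          (fun i => {v ∈ C j | ρ * (#(C i) : ℝ) ≤ rdg Γ v (C i)}) := by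
      intro v hv
      rw [Finset.mem_sdiff, hHd, Finset.mem_filter] at hv
      obtain ⟨hvC, hv⟩ := hv
      rw [Finset.mem_union, Finset.mem_filter, Finset.mem_biUnion]
      by_cases h2 : (dg Γ v (C j) : ℝ) ≤ β' * n
      · right
        have h3 : ¬ ∀ i, i ≠ j → (rdg Γ v (C i) : ℝ) < ρ * #(C i) := fun h => hv ⟨hvC, h2, h⟩
        push Not at h3
        obtain ⟨i, hij, hi⟩ := h3
        refine ⟨i, by simpa using hij, ?_⟩
        rw [Finset.mem_filter]
        exact ⟨hvC, hi⟩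
      · exact Or.inl ⟨hvC, h2⟩
    have h2 : (#(C j \ H) : ℝ) ≤ #{v ∈ C j | ¬ (dg Γ v (C j) : ℝ) ≤ β' * n} +
        ∑ i ∈ ({i : Fin q | i ≠ j} : Finset (Fin q)),
          (#{v ∈ C j | ρ * (#(C i) : ℝ) ≤ rdg Γ v (C i)} : ℝ) := by
      have h3 := (Finset.card_le_card h1).trans (Finset.card_union_le _ _)
      have h4 : #(({i : Fin q | i ≠ j} : Finset (Fin q)).biUnion
          (fun i => {v ∈ C j | ρ * (#(C i) : ℝ) ≤ rdg Γ v (C i)})) ≤
          ∑ i ∈ ({i : Fin q | i ≠ j} : Finset (Fin q)),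
          #{v ∈ C j | ρ * (#(C i) : ℝ) ≤ rdg Γ v (C i)} := Finset.card_biUnion_le
      exact_mod_cast h3.trans (Nat.add_le_add_left h4 _)
    have h3 : ∑ i ∈ ({i : Fin q | i ≠ j} : Finset (Fin q)),
          (#{v ∈ C j | ρ * (#(C i) : ℝ) ≤ rdg Γ v (C i)} : ℝ) ≤ q * (c4 * n) := by
      have h4 := Finset.sum_le_card_nsmul ({i : Fin q | i ≠ j} : Finset (Fin q))
        (fun i => (#{v ∈ C j | ρ * (#(C i) : ℝ) ≤ rdg Γ v (C i)} : ℝ)) (c4 * n) (by
          intro i hi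
          rw [Finset.mem_filter] at hi
          exact hA i j hi.2)
      rw [nsmul_eq_mul] at h4
      refine h4.trans ?_
      apply mul_le_mul_of_nonneg_right _ (by positivity)
      have h5 : #({i : Fin q | i ≠ j} : Finset (Fin q)) ≤ q := by
        refine (Finset.card_le_univ _).trans ?_
        simp
      exact_mod_cast h5
    linarith
  have hCH1 : (#(C j \ H) : ℝ) ≤ 3 * κ / 64 * n := by
    have h1 := hfirst (κ / 32) hγ1
    have h2 : q * c4 * n ≤ κ / 64 * n := mul_le_mul_of_nonneg_right hc42 hn0.le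
    linarith
  have hCH2 : (#(C j \ H) : ℝ) ≤ 1 / (16 * σ) * n := by
    have h1 := hfirst (1 / (32 * σ)) hγ2
    have h2 : q * c4 * n ≤ 1 / (32 * σ) * n := mul_le_mul_of_nonneg_right hc43 hn0.le
    have h3 : 1 / (16 * (σ : ℝ)) * n = 1 / (32 * σ) * n + 1 / (32 * σ) * n := by
      field_simp
      norm_num
    linarith
  have hHc : (#H : ℝ) = #(C j) - #(C j \ H) := by
    rw [Finset.card_sdiff_of_subset hHC, Nat.cast_sub (Finset.card_le_card hHC)]
    ring
  have hHSm : H ⊆ Sm j := by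
    intro v hv
    rw [hHd, Finset.mem_filter] at hv
    rw [hmemSm]
    have h1 : β' * n ≤ δ / 4 * n := mul_le_mul_of_nonneg_right hβ'1 hn0.le
    have h2 : δ * (n / 2) ≤ δ * #(C j) := mul_le_mul_of_nonneg_left (hCl j) hδ.le
    have h3 : 0 < δ * n := by positivity
    linarith [hv.2.1]
  -- the small vertices outside of the part
  have hout : (#(Sm j \ C j) : ℝ) ≤ β' * n := by
    have h1 : Sm j \ C j ⊆ ({i : Fin q | i ≠ j} : Finset (Fin q)).biUnion
        (fun i => {v ∈ C i | ρ * (#(C j) : ℝ) ≤ rdg Γ v (C j)}) ∪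
        (Finset.univ \ (Finset.univ : Finset (Fin q)).biUnion C) := by
      intro v hv
      rw [Finset.mem_sdiff, hmemSm] at hv
      rw [Finset.mem_union, Finset.mem_sdiff, Finset.mem_biUnion, Finset.mem_biUnion]
      by_cases h2 : ∃ i, v ∈ C i
      · left
        obtain ⟨i, hi⟩ := h2
        have hij : i ≠ j := fun h => hv.2 (h ▸ hi)
        refine ⟨i, by simpa using hij, ?_⟩
        rw [Finset.mem_filter]
        refine ⟨hi, ?_⟩
        rw [rdg_eq]
        have h3 : ρ * (#(C j) : ℝ) ≤ 1 / 2 * #(C j) :=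
          mul_le_mul_of_nonneg_right hρ1 (hCpos j).le
        have h4 : δ * (#(C j) : ℝ) ≤ 1 / 2 * #(C j) :=
          mul_le_mul_of_nonneg_right hδ1 (hCpos j).le
        linarith [hv.1]
      · right
        refine ⟨Finset.mem_univ _, ?_⟩
        rintro ⟨i, _, hi⟩
        exact h2 ⟨i, hi⟩
    have h2 : (#(({i : Fin q | i ≠ j} : Finset (Fin q)).biUnion
        (fun i => {v ∈ C i | ρ * (#(C j) : ℝ) ≤ rdg Γ v (C j)})) : ℝ) ≤ q * (c4 * n) := by
      have h3 : (#(({i : Fin q | i ≠ j} : Finset (Fin q)).biUnion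
          (fun i => {v ∈ C i | ρ * (#(C j) : ℝ) ≤ rdg Γ v (C j)})) : ℝ) ≤
          ∑ i ∈ ({i : Fin q | i ≠ j} : Finset (Fin q)),
          (#{v ∈ C i | ρ * (#(C j) : ℝ) ≤ rdg Γ v (C j)} : ℝ) := by
        exact_mod_cast Finset.card_biUnion_le
      refine h3.trans ?_
      have h4 := Finset.sum_le_card_nsmul ({i : Fin q | i ≠ j} : Finset (Fin q))
        (fun i => (#{v ∈ C i | ρ * (#(C j) : ℝ) ≤ rdg Γ v (C j)} : ℝ)) (c4 * n) (by
          intro i hi
          rw [Finset.mem_filter] at hi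
          exact hA j i hi.2.symm)
      rw [nsmul_eq_mul] at h4
      refine h4.trans ?_
      apply mul_le_mul_of_nonneg_right _ (by positivity)
      have h5 : #({i : Fin q | i ≠ j} : Finset (Fin q)) ≤ q := by
        refine (Finset.card_le_univ _).trans ?_
        simp
      exact_mod_cast h5
    have h3 : (#(Finset.univ \ (Finset.univ : Finset (Fin q)).biUnion C) : ℝ) ≤
        q * (ε * n) + σ := by
      have h4 : (#((Finset.univ : Finset (Fin q)).biUnion C) : ℝ) = ∑ i : Fin q, (#(C i) : ℝ) := by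
        rw [Finset.card_biUnion (fun i _ i' _ h => hCd i i' h)]
        push_cast
        rfl
      have h5 : (q : ℝ) * ((1 - ε) * n) ≤ ∑ i : Fin q, (#(C i) : ℝ) := by
        have h6 := Finset.card_nsmul_le_sum (Finset.univ : Finset (Fin q))
          (fun i => (#(C i) : ℝ)) ((1 - ε) * n) (fun i _ => (hC1 i).1)
        rwa [nsmul_eq_mul, Finset.card_univ, Fintype.card_fin] at h6
      have h6 : (#(Finset.univ \ (Finset.univ : Finset (Fin q)).biUnion C) : ℝ) +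
          #((Finset.univ : Finset (Fin q)).biUnion C) = q * (n - 1) + σ := by
        have h7 := Finset.card_sdiff_add_card_eq_card
          (Finset.subset_univ ((Finset.univ : Finset (Fin q)).biUnion C))
        rw [Finset.card_univ, hV] at h7
        have h8 : ((#(Finset.univ \ (Finset.univ : Finset (Fin q)).biUnion C) +
          #((Finset.univ : Finset (Fin q)).biUnion C) : ℕ) : ℝ) =
          ((q * (n - 1) + σ : ℕ) : ℝ) := by rw [h7]
        push_cast [Nat.cast_sub hn] at h8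
        exact h8
      have h7 : (q : ℝ) * ((1 - ε) * n) = q * n - q * (ε * n) := by ring
      linarith
    have h4 : (#(Sm j \ C j) : ℝ) ≤ q * (c4 * n) + (q * (ε * n) + σ) := by
      have h5 : (#(Sm j \ C j) : ℝ) ≤ #(({i : Fin q | i ≠ j} : Finset (Fin q)).biUnion
        (fun i => {v ∈ C i | ρ * (#(C j) : ℝ) ≤ rdg Γ v (C j)})) +
        #(Finset.univ \ (Finset.univ : Finset (Fin q)).biUnion C) := by
        exact_mod_cast (Finset.card_le_card h1).trans (Finset.card_union_le _ _)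
      linarith
    have h5 : (q : ℝ) * c4 * n ≤ β' / 4 * n := mul_le_mul_of_nonneg_right hc41 hn0.le
    have h6 : (q : ℝ) * ε * n ≤ β' / 4 * n := mul_le_mul_of_nonneg_right hε1 hn0.le
    linarith
  have hSmC : ∀ u ∈ Sm j, max (dg Γ u H : ℝ) 1 ≤ 2 * δ * n := by
    intro u hu
    rw [hmemSm] at hu
    apply max_le _ hn2
    have h1 : (dg Γ u H : ℝ) ≤ dg Γ u (C j) := by exact_mod_cast dg_mono Γ u hHC
    have h2 : δ * #(C j) ≤ δ * (2 * n) := mul_le_mul_of_nonneg_left (hCu j) hδ.le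
    linarith
  have hpot := pot_sum Γ (Sm j) Z H q t M m0 n hn hq ht E κ1 δ hE0 hκ1 hδ hδE hM2 hMt hM1 hM3
    (by
      have h1 : (#H : ℝ) ≤ #(C j) := by exact_mod_cast Finset.card_le_card hHC
      have := hCu j
      linarith)
    (by
      rw [hV]
      push_cast [Nat.cast_sub hn]
      have : (σ : ℝ) ≤ n := by exact_mod_cast hN5
      linarith) hn4 hn5 hSmC
    (by
      intro T hTH hTc
      refine (card_T_lt Γ hH C j c9 c' δ ρ hst (Hp V Γ) hc9n
        (fun i => ((hc9n i).trans (hc'C i)).trans (by linarith [hCpos i])) hρt T hTc ?_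
        (cnb Γ (Sm j \ Z) T) ?_).le
      · intro x hx i hij
        have := hTH hx
        rw [hHd, Finset.mem_filter] at this
        exact (this.2.2 i hij).le
      · intro u hu
        rw [mem_cnb, Finset.mem_sdiff] at hu
        obtain ⟨⟨hu1, hu2⟩, hu3⟩ := hu
        refine ⟨?_, hu3⟩
        intro i hij
        by_contra hlt
        push Not at hlt
        apply hu2
        rw [hZ, Finset.mem_filter]
        refine ⟨Finset.mem_univ _, ?_⟩
        have h1 : ({i, j} : Finset (Fin q)) ⊆ ({i | u ∈ Sm i} : Finset (Fin q)) := by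
          intro i' hi'
          rw [Finset.mem_insert, Finset.mem_singleton] at hi'
          rw [Finset.mem_filter]
          refine ⟨Finset.mem_univ _, ?_⟩
          rcases hi' with rfl | rfl
          · rw [hmemSm]; exact hlt
          · exact hu1
        have h2 := Finset.card_le_card h1
        rw [Finset.card_pair hij] at h2
        exact h2)
  refine caseA_embed d m0 M κ κ1 (2 * β') (1 / (8 * σ)) hκ hκ1 hκ1a ?_ (by positivity) hβ'2 hn G hG
    hp hN1 hN2 hN3 hN4 Γ H (Sm j) Yj hHSm ?_ ?_ ?_ ?_ ?_ s hs ?_ ?_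
  · refine hκ1b.trans (le_of_eq ?_)
    field_simp
    norm_num
  · rw [Finset.disjoint_right]
    intro v hv
    rw [hYj, Finset.mem_filter] at hv
    exact hv.2.1 j
  · have h1 : Yj ⊆ Y := by
      intro v hv
      rw [hYj, Finset.mem_filter] at hv
      rw [hY, Finset.mem_filter]
      refine ⟨Finset.mem_univ _, ?_⟩
      intro i
      have := hv.2.1 i
      rw [hmemSm] at this
      push Not at this
      exact this
    exact (Finset.card_le_card h1).trans hYc.le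
  · have h1 := (hC1 j).1
    have h2 : ε * n ≤ κ / 32 * n := mul_le_mul_of_nonneg_right hε2 hn0.le
    have h3 : 0 < κ * n := by positivity
    rw [hHc]
    linarith
  · intro x hx
    rw [hHd, Finset.mem_filter] at hx
    have h1 : (dg Γ x (Sm j) : ℝ) ≤ dg Γ x (C j) + #(Sm j \ C j) := by
      have h2 : dg Γ x (Sm j) ≤ dg Γ x (C j) + #(Sm j \ C j) := by
        unfold dg
        refine (Finset.card_le_card (t := {y ∈ C j | Γ.Adj x y} ∪ (Sm j \ C j)) ?_).trans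
          (Finset.card_union_le _ _)
        intro y hy
        rw [Finset.mem_filter] at hy
        rw [Finset.mem_union, Finset.mem_filter, Finset.mem_sdiff]
        by_cases hyC : y ∈ C j
        · exact Or.inl ⟨hyC, hy.2⟩
        · exact Or.inr ⟨hy.1, hyC⟩
      exact_mod_cast h2
    linarith [hx.2.1]
  · intro y hy
    rw [hYj, Finset.mem_filter] at hy
    obtain ⟨_, hy1, hy2, hy3⟩ := hy
    have h1 := hjv y hy2
    rw [hy3] at h1
    have h2 : (rdg Γ y (C j) : ℝ) ≤ rdg Γ y H + #(C j \ H) := by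
      have h3 : rdg Γ y (C j) ≤ rdg Γ y H + #(C j \ H) := by
        unfold rdg
        refine (Finset.card_le_card (t := {z ∈ H | ¬ Γ.Adj y z} ∪ (C j \ H)) ?_).trans
          (Finset.card_union_le _ _)
        intro z hz
        rw [Finset.mem_filter] at hz
        rw [Finset.mem_union, Finset.mem_filter, Finset.mem_sdiff]
        by_cases hzC : z ∈ H
        · exact Or.inl ⟨hzC, hz.2⟩
        · exact Or.inr ⟨hz.1, hzC⟩
      exact_mod_cast h3
    rw [rdg_eq Γ y (C j)] at h2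
    have h3 : (1 - 1 / (2 * σ)) * (#(C j) : ℝ) = #(C j) - 1 / (2 * σ) * #(C j) := by ring
    have h4 : 1 / (2 * (σ : ℝ)) * (n / 2) ≤ 1 / (2 * σ) * #(C j) :=
      mul_le_mul_of_nonneg_left (hCl j) (by positivity)
    have h5 : 1 / (2 * (σ : ℝ)) * (n / 2) = 4 * (1 / (16 * σ) * n) := by
      field_simp
      norm_num
    have h6 : 1 / (8 * (σ : ℝ)) * n = 2 * (1 / (16 * σ) * n) := by
      field_simp
      norm_num
    have h7 : 0 ≤ 1 / (16 * (σ : ℝ)) * n := by positivity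
    rw [h6]
    linarith
  · intro u hu
    have h1 := hSmC u hu
    have h2 : 2 * δ * n ≤ κ1 / 2 * n := mul_le_mul_of_nonneg_right hδκ hn0.le
    have h3 : 0 ≤ κ1 * n := by positivity
    linarith
  · rw [← hE]
    refine lt_of_le_of_lt hpot ?_
    have h1 : ((1 + #Z : ℕ) : ℝ) ≤ ((q * (s + 1) : ℕ) : ℝ) := by exact_mod_cast hsZ
    push_cast at h1
    have h2 : (#Z : ℝ) / (4 * q) + 1 / (2 * q) = (#Z + 2) / (4 * q) := by
      field_simp
      ring
    rw [h2, div_lt_iff₀ (by positivity)]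
    have h3 : (0 : ℝ) ≤ #Z := by positivity
    linarith

end Pool.Agent.H66.RG
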