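import Pool.Agent.H66.RG.Cluster

open Finset Classical

namespace Pool.Agent.H66.RG

/-- two sets without a pair of large subsets with few edges between them are robustly dense -/
theorem biD_of_not_link {V : Type} (Γ : SimpleGraph V) (P Q : Finset V) (c2 η0 : ℝ) (hc2 : 0 < c2)
    (hη0 : 0 < η0) (hP : 0 < #P)
    (h : ¬ ∃ A ⊆ P, ∃ B ⊆ Q, c2 * #P ≤ #A ∧ c2 * #Q ≤ #B ∧ (∀ x ∈ A, (dg Γ x B : ℝ) ≤ η0 * #B) ∧
      (∀ y ∈ B, (dg Γ y A : ℝ) ≤ η0 * #A)) :
    BiD Γ (η0 / 4) P Q (2 * c2 * #P) (2 * c2 * #Q) := by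
  intro B hB hBc
  by_contra hlt
  push Not at hlt
  apply h
  set A : Finset V := {x ∈ P | (dg Γ x B : ℝ) < η0 / 4 * #B} with hA
  have hP' : (0 : ℝ) < #P := by exact_mod_cast hP
  have hApos : (0 : ℝ) < #A := lt_of_lt_of_le (by positivity) hlt
  set B' : Finset V := {y ∈ B | (dg Γ y A : ℝ) ≤ η0 / 2 * #A} with hB'
  have hsub : B' ⊆ B := Finset.filter_subset _ _
  have h1 : ∑ y ∈ B, (dg Γ y A : ℝ) ≤ η0 / 4 * #B * #A := by
    have e1 : ∑ y ∈ B, (dg Γ y A : ℝ) = ∑ x ∈ A, (dg Γ x B : ℝ) := by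
      exact_mod_cast (sum_dg Γ A B).symm
    rw [e1]
    have e2 : ∀ x ∈ A, (dg Γ x B : ℝ) ≤ η0 / 4 * #B := by
      intro x hx
      rw [hA, Finset.mem_filter] at hx
      exact hx.2.le
    refine (Finset.sum_le_sum e2).trans ?_
    rw [Finset.sum_const, nsmul_eq_mul]
    linarith
  have h2 : (#(B \ B') : ℝ) * (η0 / 2 * #A) ≤ ∑ y ∈ B, (dg Γ y A : ℝ) := by
    have e1 : (#(B \ B') : ℝ) * (η0 / 2 * #A) ≤ ∑ y ∈ B \ B', (dg Γ y A : ℝ) := by
      rw [← nsmul_eq_mul]
      apply Finset.card_nsmul_le_sum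
      intro y hy
      rw [Finset.mem_sdiff, hB', Finset.mem_filter] at hy
      by_contra hc
      push Not at hc
      exact hy.2 ⟨hy.1, hc.le⟩
    refine e1.trans ?_
    apply Finset.sum_le_sum_of_subset_of_nonneg Finset.sdiff_subset
    intro y _ _
    positivity
  have h3 : (#(B \ B') : ℝ) ≤ #B / 2 := by
    have e1 : (#(B \ B') : ℝ) * (η0 / 2 * #A) ≤ (#B / 2) * (η0 / 2 * #A) := by
      refine (h2.trans h1).trans (le_of_eq (by ring))
    exact le_of_mul_le_mul_right e1 (by positivity)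
  have h4 : (#B : ℝ) / 2 ≤ #B' := by
    have : (#(B \ B') : ℝ) = #B - #B' := by
      rw [Finset.card_sdiff_of_subset hsub, Nat.cast_sub (Finset.card_le_card hsub)]
    linarith
  refine ⟨A, Finset.filter_subset _ _, B', hsub.trans hB, ?_, ?_, ?_, ?_⟩
  · have : (0 : ℝ) ≤ c2 * #P := by positivity
    linarith
  · linarith
  · intro x hx
    have e1 : (dg Γ x B' : ℝ) ≤ dg Γ x B := by exact_mod_cast dg_mono Γ x hsub
    rw [hA, Finset.mem_filter] at hx
    have e2 := hx.2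
    have e3 : η0 / 4 * #B ≤ η0 / 4 * (2 * #B') :=
      mul_le_mul_of_nonneg_left (by linarith) (by positivity)
    have e4 : (0 : ℝ) ≤ η0 * #B' := by positivity
    linarith
  · intro y hy
    rw [hB', Finset.mem_filter] at hy
    have e1 : (0 : ℝ) ≤ η0 * #A := by positivity
    linarith [hy.2]

theorem HasMulti.cons {V : Type} {Γ : SimpleGraph V} {k t : ℕ} {a Q' : Finset V}
    {P : Fin k → Finset V} (hQ : Q' ⊆ a) (hQ' : #Q' = t)
    (h : HasMulti Γ k t (fun j => cn Γ Q' (P j))) : HasMulti Γ (k + 1) t (Fin.cons a P) := by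
  obtain ⟨S, hS1, hS2⟩ := h
  refine ⟨Fin.cons Q' S, ?_, ?_⟩
  · intro i
    refine Fin.cases ?_ ?_ i
    · simp only [Fin.cons_zero]
      exact ⟨hQ, hQ'⟩
    · intro i
      simp only [Fin.cons_succ]
      exact ⟨(hS1 i).1.trans (cn_subset _ _ _), (hS1 i).2⟩
  · intro i j
    refine Fin.cases ?_ ?_ i
    · refine Fin.cases ?_ ?_ j
      · intro h; exact absurd rfl h
      · intro j _ x hx y hy
        simp only [Fin.cons_zero, Fin.cons_succ] at hx hy
        have := (hS1 j).1 hy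
        rw [mem_cn] at this
        exact this.2 x hx
    · intro i
      refine Fin.cases ?_ ?_ j
      · intro _ x hx y hy
        simp only [Fin.cons_zero, Fin.cons_succ] at hx hy
        have := (hS1 i).1 hx
        rw [mem_cn] at this
        exact (this.2 y hy).symm
      · intro j hij x hx y hy
        simp only [Fin.cons_succ] at hx hy
        exact hS2 i j (fun h => hij (by rw [h])) x hx y hy

/-- A dense pair together with clusters which are robustly dense to each other and to the pair gives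
a complete multipartite graph. -/
theorem pair_multi (q t : ℕ) (γ η0 : ℝ) (hγ : 0 < γ) (hη0 : 0 < η0) :
    ∃ (cm s : ℝ), 0 < cm ∧ 0 < s ∧ ∀ (c2 : ℝ), 0 < c2 → c2 ≤ cm →
      ∀ (V : Type) (Γ : SimpleGraph V) (a : Finset V) (P : Fin q → Finset V) (j0 : Fin q),
        s ≤ #a → (∀ j, s ≤ #(P j)) →
        (∀ i j, i ≠ j → BiD Γ (η0 / 4) (P i) (P j) (2 * c2 * #(P i)) (2 * c2 * #(P j))) →
        (∀ j, j ≠ j0 → BiD Γ (η0 / 4) a (P j) (2 * c2 * #a) (2 * c2 * #(P j))) →
        γ * #a * #(P j0) < ∑ x ∈ a, (dg Γ x (P j0) : ℝ) →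
        HasMulti Γ (q + 1) t (Fin.cons a P) := by
  set δ' : ℝ := min (γ / 2) (η0 / 4) with hδ'
  have hδ'pos : 0 < δ' := lt_min (by positivity) (by positivity)
  obtain ⟨m1, c', hc', hc'1, Hp⟩ := pigs q t δ' hδ'pos
  obtain ⟨L, hL, HL⟩ := multi_of_biD q t (η0 / 4) (by positivity)
  have hLpos : 0 < L := by linarith
  refine ⟨min (min (1 / 2) (c' / (4 * L))) (γ / (8 * (q + 1))),
    max 1 (max (4 * m1 / γ) (2 * L / c')), by positivity, ?_, ?_⟩
  · exact lt_of_lt_of_le one_pos (le_max_left _ _)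
  intro c2 hc2 hc2m V Γ a P j0 ha hP hBP hBa hdens
  have hc2a : c2 ≤ 1 / 2 := hc2m.trans ((min_le_left _ _).trans (min_le_left _ _))
  have hc2b : c2 ≤ c' / (4 * L) := hc2m.trans ((min_le_left _ _).trans (min_le_right _ _))
  have hc2c : c2 ≤ γ / (8 * (q + 1)) := hc2m.trans (min_le_right _ _)
  have ha1 : (1 : ℝ) ≤ #a := (le_max_left _ _).trans ha
  have ha2 : 4 * m1 / γ ≤ #a := ((le_max_left _ _).trans (le_max_right _ _)).trans ha
  have hP1 : ∀ j, (1 : ℝ) ≤ #(P j) := fun j => (le_max_left _ _).trans (hP j)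
  have hP2 : ∀ j, 2 * L / c' ≤ #(P j) :=
    fun j => ((le_max_right _ _).trans (le_max_right _ _)).trans (hP j)
  set Q0 : Finset V := {x ∈ a | γ / 2 * #(P j0) ≤ dg Γ x (P j0)} with hQ0
  set Q : Finset V := {x ∈ a | ∀ j, δ' * #(P j) ≤ dg Γ x (P j)} with hQ
  have hQ0c : γ / 2 * #a ≤ #Q0 := by
    have e1 : ∑ x ∈ a, (dg Γ x (P j0) : ℝ) ≤ #Q0 * #(P j0) + #a * (γ / 2 * #(P j0)) := by
      have e2 : ∀ x ∈ a, (dg Γ x (P j0) : ℝ) ≤
          (if γ / 2 * #(P j0) ≤ dg Γ x (P j0) then (#(P j0) : ℝ) else 0) + γ / 2 * #(P j0) := by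
        intro x _
        split_ifs with h
        · have : (dg Γ x (P j0) : ℝ) ≤ #(P j0) := by exact_mod_cast dg_le_card Γ x (P j0)
          have : (0 : ℝ) ≤ γ / 2 * #(P j0) := by positivity
          linarith
        · push Not at h
          linarith
      refine (Finset.sum_le_sum e2).trans ?_
      rw [Finset.sum_add_distrib, ← Finset.sum_filter, Finset.sum_const, Finset.sum_const,
        nsmul_eq_mul, nsmul_eq_mul]
    have e3 : γ * #a * #(P j0) ≤ #Q0 * #(P j0) + #a * (γ / 2 * #(P j0)) := hdens.le.trans e1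
    have e4 : γ / 2 * #a * #(P j0) ≤ #Q0 * #(P j0) := by linarith
    exact le_of_mul_le_mul_right e4 (by linarith [hP1 j0])
  have hsub : Q0 \ Q ⊆ ({j : Fin q | j ≠ j0} : Finset (Fin q)).biUnion
      (fun j => {x ∈ a | (dg Γ x (P j) : ℝ) < η0 / 4 * #(P j)}) := by
    intro x hx
    rw [Finset.mem_sdiff, hQ0, hQ, Finset.mem_filter, Finset.mem_filter] at hx
    obtain ⟨⟨hxa, hx0⟩, hxQ⟩ := hx
    have : ¬ ∀ j, δ' * #(P j) ≤ dg Γ x (P j) := fun h => hxQ ⟨hxa, h⟩
    push Not at this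
    obtain ⟨j, hj⟩ := this
    rw [Finset.mem_biUnion]
    refine ⟨j, ?_, ?_⟩
    · rw [Finset.mem_filter]
      refine ⟨Finset.mem_univ _, ?_⟩
      rintro rfl
      have : δ' * #(P j) ≤ γ / 2 * #(P j) :=
        mul_le_mul_of_nonneg_right (min_le_left _ _) (by positivity)
      linarith
    · rw [Finset.mem_filter]
      refine ⟨hxa, lt_of_lt_of_le hj ?_⟩
      exact mul_le_mul_of_nonneg_right (min_le_right _ _) (by positivity)
  have hsubc : (#(Q0 \ Q) : ℝ) ≤ q * (2 * c2 * #a) := by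
    have e1 : (#(Q0 \ Q) : ℝ) ≤ ∑ j ∈ ({j : Fin q | j ≠ j0} : Finset (Fin q)),
        (#{x ∈ a | (dg Γ x (P j) : ℝ) < η0 / 4 * #(P j)} : ℝ) := by
      exact_mod_cast (Finset.card_le_card hsub).trans Finset.card_biUnion_le
    refine e1.trans ?_
    have e2 : ∀ j ∈ ({j : Fin q | j ≠ j0} : Finset (Fin q)),
        (#{x ∈ a | (dg Γ x (P j) : ℝ) < η0 / 4 * #(P j)} : ℝ) ≤ 2 * c2 * #a := by
      intro j hj
      rw [Finset.mem_filter] at hj
      refine (hBa j hj.2 (P j) (Finset.Subset.refl _) ?_).le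
      have := hP1 j
      nlinarith
    refine (Finset.sum_le_sum e2).trans ?_
    rw [Finset.sum_const, nsmul_eq_mul]
    apply mul_le_mul_of_nonneg_right _ (by positivity)
    have : #({j : Fin q | j ≠ j0} : Finset (Fin q)) ≤ q := by
      refine (Finset.card_le_univ _).trans ?_
      simp
    exact_mod_cast this
  have hQc : m1 ≤ #Q := by
    have e1 : (#Q0 : ℝ) ≤ #(Q0 \ Q) + #Q := by
      have := Finset.card_le_card_sdiff_add_card (s := Q0) (t := Q)
      exact_mod_cast this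
    have e2 : (q : ℝ) * (2 * c2 * #a) ≤ γ / 4 * #a := by
      have e3 : c2 * (8 * (q + 1)) ≤ γ := by
        rwa [le_div_iff₀ (by positivity)] at hc2c
      have e4 : (q : ℝ) * (2 * c2) ≤ γ / 4 := by nlinarith
      have := mul_le_mul_of_nonneg_right e4 (show (0 : ℝ) ≤ #a by positivity)
      linarith
    have e5 : (m1 : ℝ) ≤ γ / 4 * #a := by
      rw [div_le_iff₀ hγ] at ha2
      linarith
    have : (m1 : ℝ) ≤ #Q := by linarith
    exact_mod_cast this
  obtain ⟨Q', hQ', hQ'c, hQ'n⟩ := Hp V Γ P Q hQc (by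
    intro x hx j
    rw [hQ, Finset.mem_filter] at hx
    exact hx.2 j)
  have hrec := HL V Γ (fun j => cn Γ Q' (P j)) (fun j => 2 * c2 * #(P j))
    (fun j => by positivity) (by
      intro j
      refine le_trans ?_ (hQ'n j)
      have e1 := hP2 j
      rw [div_le_iff₀ hc'] at e1
      have e2 : c2 * (4 * L) ≤ c' := by rwa [le_div_iff₀ (by positivity)] at hc2b
      have e3 : (c2 * (4 * L)) * #(P j) ≤ c' * #(P j) :=
        mul_le_mul_of_nonneg_right e2 (by positivity)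
      have e4 : L * (2 * c2 * #(P j) + 1) = (c2 * (4 * L)) * #(P j) / 2 + L := by ring
      rw [e4]
      linarith) (by
      intro i j hij
      exact (hBP i j hij).mono (cn_subset _ _ _) (cn_subset _ _ _))
  exact HasMulti.cons (hQ'.trans (Finset.filter_subset _ _)) hQ'c hrec

end Pool.Agent.H66.RG
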