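import Pool.Agent.H66.RG.Comp
import Pool.Agent.H66.RG.Pair

open Finset Classical

namespace Pool.Agent.H66.RG

theorem ev_lin (A c : ℝ) (hc : 0 < c) : ∀ᶠ n : ℕ in Filter.atTop, A ≤ c * n := by
  have h : Filter.Tendsto (fun n : ℕ => c * (n : ℝ)) Filter.atTop Filter.atTop :=
    Filter.Tendsto.const_mul_atTop hc tendsto_natCast_atTop_atTop
  exact h.eventually_ge_atTop A

/-- two sets contain large subsets with few edges between them -/
def Link {V : Type} (Γ : SimpleGraph V) (c2 η0 : ℝ) (P Q : Finset V) : Prop :=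
  ∃ A ⊆ P, ∃ B ⊆ Q, c2 * #P ≤ #A ∧ c2 * #Q ≤ #B ∧ (∀ x ∈ A, (dg Γ x B : ℝ) ≤ η0 * #B) ∧
      (∀ y ∈ B, (dg Γ y A : ℝ) ≤ η0 * #A)

theorem Link.symm {V : Type} {Γ : SimpleGraph V} {c2 η0 : ℝ} {P Q : Finset V}
    (h : Link Γ c2 η0 P Q) : Link Γ c2 η0 Q P := by
  obtain ⟨A, hA, B, hB, h1, h2, h3, h4⟩ := h
  exact ⟨B, hB, A, hA, h2, h1, h4, h3⟩

theorem link_sets {V : Type} (Γ : SimpleGraph V) (c2 η0 : ℝ) {W : Type} [Fintype W]
    (Vc : W → Finset V) (𝒢 : SimpleGraph W)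
    (h𝒢 : ∀ a b, 𝒢.Adj a b → Link Γ c2 η0 (Vc a) (Vc b)) :
    ∃ A : W → W → Finset V, ∀ a b, 𝒢.Adj a b → A a b ⊆ Vc a ∧ c2 * #(Vc a) ≤ #(A a b) ∧
      ∀ x ∈ A a b, (dg Γ x (A b a) : ℝ) ≤ η0 * #(A b a) := by
  have e : W ≃ Fin (Fintype.card W) := Fintype.equivFin W
  have h1 : ∀ a b, ∃ AB : Finset V × Finset V, 𝒢.Adj a b → AB.1 ⊆ Vc a ∧ AB.2 ⊆ Vc b ∧
      c2 * #(Vc a) ≤ #AB.1 ∧ c2 * #(Vc b) ≤ #AB.2 ∧ (∀ x ∈ AB.1, (dg Γ x AB.2 : ℝ) ≤ η0 * #AB.2) ∧
      (∀ y ∈ AB.2, (dg Γ y AB.1 : ℝ) ≤ η0 * #AB.1) := by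
    intro a b
    by_cases hab : 𝒢.Adj a b
    · obtain ⟨A, hA, B, hB, h1, h2, h3, h4⟩ := h𝒢 a b hab
      exact ⟨(A, B), fun _ => ⟨hA, hB, h1, h2, h3, h4⟩⟩
    · exact ⟨(∅, ∅), fun h => absurd h hab⟩
  choose ch hch using h1
  refine ⟨fun a b => if e a < e b then (ch a b).1 else (ch b a).2, ?_⟩
  intro a b hab
  have hne : e a ≠ e b := fun h => hab.ne (e.injective h)
  rcases lt_or_gt_of_ne hne with hlt | hlt
  · have h2 : ¬ e b < e a := not_lt.2 hlt.le
    obtain ⟨k1, k2, k3, k4, k5, k6⟩ := hch a b hab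
    simp only [hlt, h2, if_true, if_false]
    exact ⟨k1, k3, k5⟩
  · have h2 : ¬ e a < e b := not_lt.2 hlt.le
    obtain ⟨k1, k2, k3, k4, k5, k6⟩ := hch b a hab.symm
    simp only [hlt, h2, if_true, if_false]
    exact ⟨k2, k4, k6⟩

theorem comps {W : Type} [Finite W] (𝒢 : SimpleGraph W) : ∃ (q' : ℕ) (g : W → Fin q'),
    (∀ a b, g a = g b ↔ 𝒢.Reachable a b) ∧ Function.Surjective g := by
  obtain ⟨q', ⟨e⟩⟩ := Finite.exists_equiv_fin 𝒢.ConnectedComponent
  refine ⟨q', fun w => e (𝒢.connectedComponentMk w), ?_, ?_⟩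
  · intro a b
    rw [e.apply_eq_iff_eq, SimpleGraph.ConnectedComponent.eq]
  · intro j
    obtain ⟨w, hw⟩ := (e.symm j).exists_rep
    refine ⟨w, ?_⟩
    have h2 : 𝒢.connectedComponentMk w = e.symm j := hw
    simp only [h2, Equiv.apply_symm_apply]

theorem dens_comp {V : Type} (Γ : SimpleGraph V) {W : Type} (Vc : W → Finset V)
    (hVd : ∀ a b : W, a ≠ b → Disjoint (Vc a) (Vc b)) (γ' : ℝ) (S : Finset W)
    (hpairs : ∀ a ∈ S, ∀ b' ∈ S, ∑ x ∈ Vc a, (dg Γ x (Vc b') : ℝ) ≤ γ' * #(Vc a) * #(Vc b')) :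
    ∑ x ∈ S.biUnion Vc, (dg Γ x (S.biUnion Vc) : ℝ) ≤ γ' * (∑ a ∈ S, (#(Vc a) : ℝ)) ^ 2 := by
  rw [Finset.sum_biUnion (fun a _ b _ hab => hVd a b hab)]
  have h2 : ∀ a ∈ S, ∑ x ∈ Vc a, (dg Γ x (S.biUnion Vc) : ℝ) ≤
      γ' * #(Vc a) * ∑ b' ∈ S, (#(Vc b') : ℝ) := by
    intro a ha
    have h3 : ∀ x, (dg Γ x (S.biUnion Vc) : ℝ) ≤ ∑ b' ∈ S, (dg Γ x (Vc b') : ℝ) := by
      intro x
      unfold dg
      rw [Finset.filter_biUnion]
      exact_mod_cast Finset.card_biUnion_le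
    refine (Finset.sum_le_sum (fun x _ => h3 x)).trans ?_
    rw [Finset.sum_comm, Finset.mul_sum]
    apply Finset.sum_le_sum
    intro b' hb'
    exact hpairs a ha b' hb'
  refine (Finset.sum_le_sum h2).trans (le_of_eq ?_)
  rw [← Finset.sum_mul, ← Finset.mul_sum]
  ring

theorem multi_comp {V : Type} (Γ : SimpleGraph V) {W : Type} [Fintype W] (Vc : W → Finset V)
    {q t : ℕ} (g : W → Fin q) (r : Fin q → W) (hr : ∀ j, g (r j) = j) (c2 η0 c9 c Lb : ℝ)
    (hc2 : 0 < c2) (hc9 : 0 < c9) (n : ℕ) (hc2b : c2 * (8 * Lb) ≤ c9)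
    (k8 : 4 * Lb ≤ c9 * c * n) (hVs : ∀ a : W, c * n ≤ #(Vc a))
    (hBi : ∀ a b : W, g a ≠ g b →
      BiD Γ (η0 / 4) (Vc a) (Vc b) (2 * c2 * #(Vc a)) (2 * c2 * #(Vc b)))
    (HLb : ∀ (P : Fin q → Finset V) (m : Fin q → ℝ), (∀ i, 0 ≤ m i) →
      (∀ i, Lb * (m i + 1) ≤ #(P i)) → (∀ i j, i ≠ j → BiD Γ (η0 / 4) (P i) (P j) (m i) (m j)) →
      HasMulti Γ q t P)
    (hbig : ∀ j, ∑ a ∈ ({a | g a = j} : Finset W), (#(Vc a) : ℝ) ≤ 2 * n)
    (P : Fin q → Finset V)
    (hP : ∀ j, P j ⊆ ({a | g a = j} : Finset W).biUnion Vc ∧ c9 * n ≤ #(P j)) :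
    HasMulti Γ q t P := by
  have hsel : ∀ j, ∃ a : W, g a = j ∧ c9 / 2 * #(Vc a) ≤ #(P j ∩ Vc a) := by
    intro j
    by_contra hcon
    push Not at hcon
    obtain ⟨hP1, hP2⟩ := hP j
    have h1 : (#(P j) : ℝ) ≤ ∑ a ∈ ({a | g a = j} : Finset W), (#(P j ∩ Vc a) : ℝ) := by
      have h2 : P j ⊆ ({a | g a = j} : Finset W).biUnion (fun a => P j ∩ Vc a) := by
        intro x hx
        have := hP1 hx
        rw [Finset.mem_biUnion] at this ⊢
        obtain ⟨a, ha, hxa⟩ := this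
        exact ⟨a, ha, Finset.mem_inter.2 ⟨hx, hxa⟩⟩
      exact_mod_cast (Finset.card_le_card h2).trans Finset.card_biUnion_le
    have h2 : ∑ a ∈ ({a | g a = j} : Finset W), (#(P j ∩ Vc a) : ℝ) <
        ∑ a ∈ ({a | g a = j} : Finset W), c9 / 2 * (#(Vc a) : ℝ) := by
      apply Finset.sum_lt_sum_of_nonempty
      · exact ⟨r j, by rw [Finset.mem_filter]; exact ⟨Finset.mem_univ _, hr j⟩⟩
      · intro a ha
        rw [Finset.mem_filter] at ha
        exact hcon a ha.2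
    rw [← Finset.mul_sum] at h2
    have h3 := hbig j
    have h5 : c9 / 2 * ∑ a ∈ ({a | g a = j} : Finset W), (#(Vc a) : ℝ) ≤ c9 / 2 * (2 * n) :=
      mul_le_mul_of_nonneg_left h3 (by positivity)
    linarith
  choose a ha1 ha2 using hsel
  refine (HLb (fun j => P j ∩ Vc (a j)) (fun j => 2 * c2 * #(Vc (a j)))
    (fun j => by positivity) ?_ ?_).mono (fun j => Finset.inter_subset_left)
  · intro j
    refine le_trans ?_ (ha2 j)
    set X : ℝ := (#(Vc (a j)) : ℝ) with hX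
    have h1 : c * n ≤ X := hVs _
    have h3 : (c2 * (8 * Lb)) * X ≤ c9 * X := mul_le_mul_of_nonneg_right hc2b (by positivity)
    have h4 : Lb * (2 * c2 * X + 1) = (c2 * (8 * Lb)) * X / 4 + Lb := by ring
    have h5 : c9 * (c * n) ≤ c9 * X := mul_le_mul_of_nonneg_left h1 hc9.le
    rw [h4]
    linarith
  · intro i j hij
    refine (hBi (a i) (a j) ?_).mono Finset.inter_subset_right Finset.inter_subset_right
    rw [ha1, ha1]
    exact hij

/-- Structure theorem: either the sparse graph embeds or the host graph is nearly a blow-up of a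
complete graph on `q` vertices. -/
theorem structure_thm (d q t : ℕ) (hq : 0 < q) (ε γ c9 : ℝ) (hε : 0 < ε) (hε1 : ε ≤ 1)
    (hγ : 0 < γ) (hc9 : 0 < c9) :
    ∃ κb : ℝ, 0 < κb ∧ ∀ᶠ n : ℕ in Filter.atTop, ∀ b : ℕ, (b : ℝ) ≤ κb * n →
      ∀ (G : SimpleGraph (Fin n)), Degen G d → ∀ p : Fin n → ℕ, BW G p b →
      ∀ (V : Type) [Fintype V] (Γ : SimpleGraph V), q * (n - 1) + 1 ≤ Fintype.card V →
      ¬ HasMulti Γ (q + 1) t (fun _ => Finset.univ) →
      (∃ φ : Fin n → V, Function.Injective φ ∧ ∀ u v, G.Adj u v → ¬ Γ.Adj (φ u) (φ v)) ∨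
      ∃ C : Fin q → Finset V, (∀ i j, i ≠ j → Disjoint (C i) (C j)) ∧
        (∀ j, (1 - ε) * n ≤ #(C j) ∧ (#(C j) : ℝ) ≤ (1 + ε) * n) ∧
        (∀ j, ∑ x ∈ C j, (dg Γ x (C j) : ℝ) ≤ γ * n ^ 2) ∧
        (∀ P : Fin q → Finset V, (∀ j, P j ⊆ C j ∧ c9 * n ≤ #(P j)) → HasMulti Γ q t P) := by
  have hqr : (1 : ℝ) ≤ q := by exact_mod_cast hq
  set ε1 : ℝ := ε / (4 * q) with hε1d
  have hε1pos : 0 < ε1 := by positivity
  have hε1le : ε1 ≤ ε / 4 := by
    rw [hε1d]
    apply div_le_div_of_nonneg_left hε.le (by norm_num) (by linarith)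
  have hε1q : ε1 * q = ε / 4 := by
    rw [hε1d]
    field_simp
  have hd1 : (0 : ℝ) < d + 1 := by positivity
  set η0 : ℝ := ε1 ^ 2 / (512 * (d + 1)) with hη0d
  have hη0 : 0 < η0 := by positivity
  set γ' : ℝ := γ / 8 with hγ'd
  have hγ' : 0 < γ' := by positivity
  obtain ⟨La, hLa, HLa⟩ := multi_of_biD (q + 1) t (η0 / 4) (by positivity)
  obtain ⟨Lb, hLb, HLb⟩ := multi_of_biD q t (η0 / 4) (by positivity)
  obtain ⟨cm, s, hcm, hs, Hpair⟩ := pair_multi q t γ' η0 hγ' hη0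
  have hLa0 : 0 < La := by linarith
  have hLb0 : 0 < Lb := by linarith
  set c2 : ℝ := min (min 1 (1 / (4 * La))) (min cm (c9 / (8 * Lb))) with hc2d
  have hc2 : 0 < c2 := by positivity
  have hc21 : c2 ≤ 1 := (min_le_left _ _).trans (min_le_left _ _)
  have hc2a : c2 ≤ 1 / (4 * La) := (min_le_left _ _).trans (min_le_right _ _)
  have hc2m : c2 ≤ cm := (min_le_right _ _).trans (min_le_left _ _)
  have hc2b : c2 ≤ c9 / (8 * Lb) := (min_le_right _ _).trans (min_le_right _ _)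
  set η : ℝ := min (ε1 ^ 2 * c2 / (512 * (d + 1))) γ' with hηd
  have hη : 0 < η := by positivity
  have hηγ : η ≤ γ' := min_le_right _ _
  have hηε : 512 * (d + 1) * η ≤ ε1 ^ 2 * c2 := by
    have h1 : η ≤ ε1 ^ 2 * c2 / (512 * (d + 1)) := min_le_left _ _
    rw [le_div_iff₀ (by positivity)] at h1
    linarith
  have hη0ε : 512 * (d + 1) * η0 ≤ ε1 ^ 2 := by
    rw [hη0d, mul_div_assoc', div_le_iff₀ (by positivity)]
    linarith
  set η2 : ℝ := ε / (8 * q) with hη2d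
  have hη2 : 0 < η2 := by positivity
  have hη2q : η2 * q = ε / 8 := by
    rw [hη2d]
    field_simp
  obtain ⟨c, n3, hc, Hpart⟩ := partition_exists (q + 1) t η η2 hη hη2
  set M : ℕ := ⌈1 / c⌉₊ with hMd
  have hM1 : 1 / c ≤ M := Nat.le_ceil _
  have hM0 : (0 : ℝ) < M := lt_of_lt_of_le (by positivity) hM1
  have hM01 : 0 < M := by exact_mod_cast hM0
  refine ⟨min (ε1 * c2 * c / (128 * M ^ 2)) (ε1 / (8 * M)), by positivity, ?_⟩
  filter_upwards [ev_lin (2 ^ M * 8) c hc, ev_lin 128 (ε1 * c) (by positivity),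
    ev_lin 32 (ε1 * c2 * c) (by positivity), ev_lin (4 * M * 2 ^ M) ε1 hε1pos,
    ev_lin 1 (min (ε1 * c2 * c / (128 * M ^ 2)) (ε1 / (8 * M))) (by positivity),
    ev_lin s c hc, ev_lin (2 * La) c hc, ev_lin (4 * Lb) (c9 * c) (by positivity),
    ev_lin q (ε / 2) (by positivity), Filter.eventually_ge_atTop (max n3 (4 * q + 1))] with n
    k1 k2 k3 k4 k5 k6 k7 k8 k9 k10
  intro b hb G hG p hp V _ Γ hV hfree
  have hn3 : n3 ≤ n := (le_max_left _ _).trans k10
  have hn4 : 4 * q + 1 ≤ n := (le_max_right _ _).trans k10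
  have hn : 0 < n := by omega
  have hnr : (0 : ℝ) < n := by exact_mod_cast hn
  set N : ℕ := Fintype.card V with hN
  have hNn : n ≤ N := by
    have : 1 * (n - 1) ≤ q * (n - 1) := Nat.mul_le_mul_right _ hq
    omega
  have hNr : (n : ℝ) ≤ N := by exact_mod_cast hNn
  have hNq : (q : ℝ) * (n - 1) + 1 ≤ N := by
    have h1 : ((q * (n - 1) + 1 : ℕ) : ℝ) ≤ N := by exact_mod_cast hV
    push_cast [Nat.cast_sub hn] at h1
    exact h1
  have hNe : Nonempty V := by
    rw [← Fintype.card_pos_iff]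
    omega
  obtain ⟨𝒞, hdisj, h𝒞, hleft⟩ := Hpart V Γ (hn3.trans hNn) hfree
  rw [← hN] at hleft
  -- clusters
  let W : Type := {C // C ∈ 𝒞}
  let Vc : W → Finset V := fun w => w.1
  have hVd : ∀ a b : W, a ≠ b → Disjoint (Vc a) (Vc b) := by
    intro a b hab
    exact hdisj a.1 a.2 b.1 b.2 (fun h => hab (Subtype.ext h))
  have hVs : ∀ a : W, c * n ≤ #(Vc a) := by
    intro a
    refine le_trans ?_ (h𝒞 a.1 a.2).1
    exact mul_le_mul_of_nonneg_left hNr hc.le
  have hVint : ∀ a : W, ∀ x ∈ Vc a, (dg Γ x (Vc a) : ℝ) ≤ η * #(Vc a) := fun a => (h𝒞 a.1 a.2).2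
  have hcardU : ∀ S : Finset W, (#(S.biUnion Vc) : ℝ) = ∑ a ∈ S, (#(Vc a) : ℝ) := by
    intro S
    rw [Finset.card_biUnion (fun a _ b _ hab => hVd a b hab)]
    push_cast
    rfl
  have hUeq : (Finset.univ : Finset W).biUnion Vc = 𝒞.biUnion id := by
    ext x
    simp only [Finset.mem_biUnion, Finset.mem_univ, true_and, id]
    constructor
    · rintro ⟨a, ha⟩
      exact ⟨a.1, a.2, ha⟩
    · rintro ⟨C, hC, hx⟩
      exact ⟨⟨C, hC⟩, hx⟩
  have htot : (1 - η2) * N ≤ ∑ a : W, (#(Vc a) : ℝ) := by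
    rw [← hcardU, hUeq]
    have h1 : (N : ℝ) = #(𝒞.biUnion id) + #(Finset.univ \ 𝒞.biUnion id) := by
      have := Finset.card_sdiff_add_card_eq_card (Finset.subset_univ (𝒞.biUnion id))
      rw [Finset.card_univ] at this
      rw [hN, ← this]
      push_cast
      ring
    linarith
  have hcardW : Fintype.card W ≤ M := by
    have h1 : (Fintype.card W : ℝ) * (c * N) ≤ N := by
      have h2 : (Fintype.card W : ℝ) * (c * N) ≤ ∑ a : W, (#(Vc a) : ℝ) := by
        have := Finset.card_nsmul_le_sum (Finset.univ : Finset W) (fun a => (#(Vc a) : ℝ)) (c * N)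
          (fun a _ => (h𝒞 a.1 a.2).1)
        rw [nsmul_eq_mul, Finset.card_univ] at this
        exact this
      refine h2.trans ?_
      rw [← hcardU]
      exact_mod_cast Finset.card_le_univ _
    have hN0 : (0 : ℝ) < N := by linarith
    have h3 : (Fintype.card W : ℝ) * c ≤ 1 := by
      have : (Fintype.card W : ℝ) * c * N ≤ 1 * N := by linarith
      exact le_of_mul_le_mul_right this hN0
    have h4 : (Fintype.card W : ℝ) ≤ 1 / c := by
      rw [le_div_iff₀ hc]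
      exact h3
    have h5 : (Fintype.card W : ℝ) ≤ M := h4.trans hM1
    exact_mod_cast h5
  -- link graph
  let 𝒢 : SimpleGraph W :=
    { Adj := fun a b => a ≠ b ∧ Link Γ c2 η0 (Vc a) (Vc b)
      symm := ⟨fun a b h => ⟨h.1.symm, h.2.symm⟩⟩
      loopless := ⟨fun a h => h.1 rfl⟩ }
  obtain ⟨A, hA⟩ := link_sets Γ c2 η0 Vc 𝒢 (fun a b h => h.2)
  obtain ⟨q', g, hg, hgs⟩ := comps 𝒢
  choose r hr using hgs
  have hVpos : ∀ a : W, 0 < #(Vc a) := by
    intro a
    have h1 := hVs a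
    have h2 : 0 < c * n := by positivity
    have h3 : (0 : ℝ) < #(Vc a) := lt_of_lt_of_le h2 h1
    exact_mod_cast h3
  have hBi : ∀ a b : W, g a ≠ g b →
      BiD Γ (η0 / 4) (Vc a) (Vc b) (2 * c2 * #(Vc a)) (2 * c2 * #(Vc b)) := by
    intro a b hab
    apply biD_of_not_link Γ (Vc a) (Vc b) c2 η0 hc2 hη0 (hVpos a)
    intro hL
    apply hab
    rw [hg]
    refine SimpleGraph.Adj.reachable ?_
    exact ⟨fun h => hab (by rw [h]), hL⟩
  have hgr : ∀ i j, i ≠ j → g (r i) ≠ g (r j) := by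
    intro i j hij
    rw [hr, hr]
    exact hij
  -- at most q components
  have hq' : q' ≤ q := by
    by_contra hlt
    push Not at hlt
    apply hfree
    have hle : q + 1 ≤ q' := hlt
    refine (HLa V Γ (fun i => Vc (r (Fin.castLE hle i)))
      (fun i => 2 * c2 * #(Vc (r (Fin.castLE hle i)))) (fun i => by positivity) ?_ ?_).mono
      (fun i => Finset.subset_univ _)
    · intro i
      set X : ℝ := (#(Vc (r (Fin.castLE hle i))) : ℝ) with hX
      have h1 : c * n ≤ X := hVs _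
      have h2 : c2 * (4 * La) ≤ 1 := by rwa [le_div_iff₀ (by positivity)] at hc2a
      have h3 : (c2 * (4 * La)) * X ≤ 1 * X := mul_le_mul_of_nonneg_right h2 (by positivity)
      have h4 : La * (2 * c2 * X + 1) = (c2 * (4 * La)) * X / 2 + La := by ring
      rw [h4]
      linarith
    · intro i j hij
      apply hBi
      apply hgr
      intro h
      exact hij (Fin.castLE_injective hle h)
  by_cases hbig : ∃ j, (1 + ε1) * n ≤ ∑ a ∈ ({a | g a = j} : Finset W), (#(Vc a) : ℝ)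
  · left
    obtain ⟨j, hj⟩ := hbig
    have hb1 : (b : ℝ) + 1 ≤ 2 * (ε1 * c2 * c / (128 * M ^ 2) * n) := by
      have e1 : min (ε1 * c2 * c / (128 * M ^ 2)) (ε1 / (8 * M)) * (n : ℝ) ≤
          ε1 * c2 * c / (128 * M ^ 2) * n := mul_le_mul_of_nonneg_right (min_le_left _ _) hnr.le
      linarith
    have hb2 : (b : ℝ) + 1 ≤ 2 * (ε1 / (8 * M) * n) := by
      have e1 : min (ε1 * c2 * c / (128 * M ^ 2)) (ε1 / (8 * M)) * (n : ℝ) ≤
          ε1 / (8 * M) * n := mul_le_mul_of_nonneg_right (min_le_right _ _) hnr.le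
      linarith
    refine comp_embed Γ hn G hG hp Vc hVd 𝒢 A ε1 c2 η η0 hε1pos (by linarith) hc2 hc21 hη.le hη0.le
      hA hVint hη0ε hηε M hcardW (c * n) hVs k1 (by linarith) ?_ (by linarith) ?_
      ({a | g a = j} : Finset W) (r j) ?_ hj
    · have e1 : 64 * ((b : ℝ) + 1) * M ^ 2 ≤ 64 * (2 * (ε1 * c2 * c / (128 * M ^ 2) * n)) * M ^ 2 := by
        apply mul_le_mul_of_nonneg_right _ (by positivity)
        linarith
      refine e1.trans (le_of_eq ?_)
      field_simp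
      ring
    · have e1 : 2 * (M : ℝ) * (b + 1) ≤ 2 * M * (2 * (ε1 / (8 * M) * n)) :=
        mul_le_mul_of_nonneg_left hb2 (by positivity)
      have e2 : 2 * (M : ℝ) * (2 * (ε1 / (8 * M) * n)) = ε1 * n / 2 := by
        field_simp
        ring
      rw [e2] at e1
      linarith
    · intro a ha
      rw [Finset.mem_filter] at ha
      rw [← hg, hr, ha.2]
  right
  push Not at hbig
  have hsum : ∑ j : Fin q', ∑ a ∈ ({a | g a = j} : Finset W), (#(Vc a) : ℝ) =
      ∑ a : W, (#(Vc a) : ℝ) := Finset.sum_fiberwise _ _ _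
  have hNbig : ((q : ℝ) - 3 * ε / 8) * n + (ε / 4) * n - q ≤ (1 - η2) * N := by
    have h1 : 0 ≤ 1 - η2 := by
      have : η2 ≤ η2 * q := le_mul_of_one_le_right hη2.le hqr
      linarith
    have h2 : (1 - η2) * ((q : ℝ) * (n - 1) + 1) ≤ (1 - η2) * N :=
      mul_le_mul_of_nonneg_left hNq h1
    have h3 : (1 - η2) * ((q : ℝ) * (n - 1) + 1) =
        q * n - q + 1 - η2 * q * n + η2 * q - η2 := by ring
    have h4 : η2 ≤ 1 := by linarith
    rw [h3, hη2q] at h2
    linarith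
  have hqq : q' = q := by
    by_contra hne
    have hlt : q' + 1 ≤ q := by omega
    have h1 : ∑ a : W, (#(Vc a) : ℝ) ≤ q' * ((1 + ε1) * n) := by
      rw [← hsum]
      have := Finset.sum_le_card_nsmul (Finset.univ : Finset (Fin q'))
        (fun j => ∑ a ∈ ({a | g a = j} : Finset W), (#(Vc a) : ℝ)) ((1 + ε1) * n)
        (fun j _ => (hbig j).le)
      rw [nsmul_eq_mul, Finset.card_univ, Fintype.card_fin] at this
      exact this
    have h2 : (q' : ℝ) + 1 ≤ q := by exact_mod_cast hlt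
    have h3 : (q' : ℝ) * ((1 + ε1) * n) ≤ (q - 1) * ((1 + ε1) * n) := by
      apply mul_le_mul_of_nonneg_right (by linarith) (by positivity)
    have h4 : ((q : ℝ) - 1) * ((1 + ε1) * n) = (q - 1) * n + (ε1 * q) * n - ε1 * n := by ring
    rw [h4, hε1q] at h3
    have h5 : (0 : ℝ) ≤ ε1 * n := by positivity
    have h6 : ((q : ℝ) - 3 * ε / 8) * n + (ε / 4) * n - q ≤ (q - 1) * n + ε / 4 * n := by linarith
    have h7 : ε * n ≤ 1 * n := mul_le_mul_of_nonneg_right hε1 hnr.le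
    have h8 : (4 : ℝ) * q + 1 ≤ n := by exact_mod_cast hn4
    linarith
  subst hqq
  refine ⟨fun j => ({a | g a = j} : Finset W).biUnion Vc, ?_, ?_, ?_, ?_⟩
  · intro i j hij
    rw [Finset.disjoint_biUnion_left]
    intro a ha
    rw [Finset.disjoint_biUnion_right]
    intro b' hb'
    rw [Finset.mem_filter] at ha hb'
    apply hVd
    rintro rfl
    exact hij (ha.2.symm.trans hb'.2)
  · intro j
    simp only [hcardU]
    constructor
    · have h1 : ∑ a : W, (#(Vc a) : ℝ) = ∑ a ∈ ({a | g a = j} : Finset W), (#(Vc a) : ℝ) +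
          ∑ i ∈ Finset.univ.erase j, ∑ a ∈ ({a | g a = i} : Finset W), (#(Vc a) : ℝ) := by
        rw [← hsum]
        exact (Finset.add_sum_erase Finset.univ
          (fun i => ∑ a ∈ ({a | g a = i} : Finset W), (#(Vc a) : ℝ)) (Finset.mem_univ j)).symm
      have h2 : ∑ i ∈ Finset.univ.erase j, ∑ a ∈ ({a | g a = i} : Finset W), (#(Vc a) : ℝ) ≤
          (q' - 1) * ((1 + ε1) * n) := by
        have := Finset.sum_le_card_nsmul ((Finset.univ : Finset (Fin q')).erase j)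
          (fun j => ∑ a ∈ ({a | g a = j} : Finset W), (#(Vc a) : ℝ)) ((1 + ε1) * n)
          (fun j _ => (hbig j).le)
        rw [nsmul_eq_mul, Finset.card_erase_of_mem (Finset.mem_univ _), Finset.card_univ,
          Fintype.card_fin, Nat.cast_sub hq] at this
        push_cast at this
        exact this
      have h4 : ((q' : ℝ) - 1) * ((1 + ε1) * n) = (q' - 1) * n + (ε1 * q') * n - ε1 * n := by ring
      rw [h4, hε1q] at h2
      have h5 : (0 : ℝ) ≤ ε1 * n := by positivity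
      have h6 : (0 : ℝ) ≤ ε * n := by positivity
      linarith
    · have h1 := hbig j
      have h2 : (1 + ε1) * n ≤ (1 + ε) * n := mul_le_mul_of_nonneg_right (by linarith) hnr.le
      linarith
  · intro j
    -- density inside a component
    have hpairs : ∀ a b' : W, g a = g b' →
        ∑ x ∈ Vc a, (dg Γ x (Vc b') : ℝ) ≤ γ' * #(Vc a) * #(Vc b') := by
      intro a b' hab
      by_cases hab' : a = b'
      · subst hab'
        have h1 : ∑ x ∈ Vc a, (dg Γ x (Vc a) : ℝ) ≤ ∑ x ∈ Vc a, γ' * (#(Vc a) : ℝ) := by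
          apply Finset.sum_le_sum
          intro x hx
          exact (hVint a x hx).trans (mul_le_mul_of_nonneg_right hηγ (by positivity))
        refine h1.trans (le_of_eq ?_)
        rw [Finset.sum_const, nsmul_eq_mul]
        ring
      · by_contra hlt
        push Not at hlt
        apply hfree
        have hP := Hpair c2 hc2 hc2m V Γ (Vc a)
          (fun i => if i = g a then Vc b' else Vc (r i)) (g a)
          (k6.trans (hVs a)) (by
            intro i
            split_ifs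
            · exact k6.trans (hVs _)
            · exact k6.trans (hVs _)) (by
            intro i i' hii
            split_ifs with h1 h2 h2
            · exact absurd (h1.trans h2.symm) hii
            · apply hBi
              rw [hr, ← hab, ← h1]
              exact hii
            · apply hBi
              rw [hr, ← hab, ← h2]
              exact hii
            · apply hBi
              exact hgr i i' hii) (by
            intro i hi
            simp only [hi, if_false]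
            apply hBi
            rw [hr]
            exact fun h => hi h.symm) (by
            simp only [if_true]
            exact hlt)
        exact hP.mono (fun i => Finset.subset_univ _)
    have h1 := dens_comp Γ Vc hVd γ' ({a | g a = j} : Finset W) (by
      intro a ha b' hb'
      rw [Finset.mem_filter] at ha hb'
      exact hpairs a b' (ha.2.trans hb'.2.symm))
    refine h1.trans ?_
    set S : ℝ := ∑ a ∈ ({a | g a = j} : Finset W), (#(Vc a) : ℝ) with hS
    have h2 : S ≤ 2 * n := by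
      have h3 := hbig j
      have h4 : (1 + ε1) * n ≤ 2 * n := mul_le_mul_of_nonneg_right (by linarith) hnr.le
      linarith
    have h3 : 0 ≤ S := Finset.sum_nonneg (fun _ _ => Nat.cast_nonneg _)
    have h4 : S ^ 2 ≤ (2 * n) ^ 2 := pow_le_pow_left₀ h3 h2 2
    have h5 : γ' * S ^ 2 ≤ γ' * (2 * n) ^ 2 := mul_le_mul_of_nonneg_left h4 hγ'.le
    have h6 : (0 : ℝ) ≤ γ * n ^ 2 := by positivity
    rw [hγ'd] at h5 ⊢
    linarith
  · intro P hP
    refine multi_comp Γ Vc g r hr c2 η0 c9 c Lb hc2 hc9 n ?_ k8 hVs hBi (HLb V Γ) ?_ P hP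
    · rwa [le_div_iff₀ (by positivity)] at hc2b
    · intro j
      have h3 := hbig j
      have h4 : (1 + ε1) * n ≤ 2 * n := mul_le_mul_of_nonneg_right (by linarith) hnr.le
      linarith

end Pool.Agent.H66.RG
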