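import Pool.Agent.H66.RG.Finish
import Pool.Agent.H66.RG.Structure

open Finset Classical

namespace Pool.Agent.H66.RG

/-- a set `C` with few edges and a linear number of outside vertices with many non-neighbours in `C`
suffice for the embedding -/
theorem caseB_core (d : ℕ) (ρ c4 κ κ2 κ3 κ4 δ τ ε : ℝ) (hρ : 0 < ρ) (hρ1 : ρ ≤ 1) (hc4 : 0 < c4)
    (hκ : κ = 1 / (2 * (4 * d + 1))) (hκ2 : 0 < κ2) (hκ2a : κ2 ≤ ρ / 16) (hκ2b : κ2 ≤ κ / 16)
    (hκ3 : κ3 = ρ * κ2 / (256 * (d + 1)))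
    (hκ4 : κ4 = (ρ / 16) ^ (4 * d) * min κ3 (ρ * c4 / 8) / 2)
    (hδ : 0 < δ) (hδ1 : δ ≤ κ4 / (128 * (d + 1))) (hδ2 : δ ≤ ρ * κ2 / (64 * (d + 1)))
    (hδ3 : δ ≤ κ / (64 * (d + 1))) (hτ : 0 < τ) (hτ1 : τ ≤ ρ / 4) (hτ2 : τ ≤ κ / 16)
    (hε : 0 < ε) (hε1 : ε ≤ κ4 / 4) (hε2 : ε ≤ κ / 16) (n : ℕ)
    (hn1 : 1 ≤ κ2 * n) (hn2 : 1 ≤ κ3 * n) (hn3 : 2 ≤ κ4 * n) (hn4 : 16 ≤ κ * n)
    (G : SimpleGraph (Fin n)) (hG : Degen G d) (V : Type) (Γ : SimpleGraph V) (C D : Finset V)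
    (hCD : Disjoint C D) (hC1 : (1 - ε) * n ≤ #C) (hC2 : (#C : ℝ) ≤ 2 * n)
    (hC : ∑ x ∈ C, (dg Γ x C : ℝ) ≤ δ * τ / 2 * n ^ 2) (hD1 : c4 * n ≤ #D)
    (hD : ∀ u ∈ D, ρ * #C ≤ rdg Γ u C) :
    ∃ φ : Fin n → V, Function.Injective φ ∧ ∀ u v, G.Adj u v → ¬ Γ.Adj (φ u) (φ v) := by
  have hd1 : (0 : ℝ) < d + 1 := by positivity
  have hd0 : (0 : ℝ) ≤ d := by positivity
  have hκpos : 0 < κ := by rw [hκ]; positivity
  have hκ1 : κ ≤ 1 / 2 := by
    rw [hκ]
    apply div_le_div_of_nonneg_left (by norm_num) (by norm_num)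
    linarith
  have hn0 : (0 : ℝ) < n := by
    by_contra h
    push Not at h
    have : κ * n ≤ 0 := mul_nonpos_of_nonneg_of_nonpos hκpos.le h
    linarith
  have hnn : 0 < n := by exact_mod_cast hn0
  have hκ3pos : 0 < κ3 := by rw [hκ3]; positivity
  have hκ3' : κ3 * (256 * (d + 1)) = ρ * κ2 := by
    rw [hκ3]
    field_simp
  -- the independent set
  obtain ⟨I, hIlow, hIc, hI⟩ := exists_indep G (4 * d)
    ({v | dg G v Finset.univ ≤ 4 * d} : Finset (Fin n)) (by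
      intro v hv
      rw [Finset.mem_filter] at hv
      exact hv.2)
  have hIdeg : ∀ u ∈ I, dg G u Finset.univ ≤ 4 * d := by
    intro u hu
    have := hIlow hu
    rw [Finset.mem_filter] at this
    exact this.2
  have hIn : #I ≤ n := by
    have := Finset.card_le_univ I
    rwa [Fintype.card_fin] at this
  have hIκ : κ * n ≤ #I := by
    have h1 := card_low G hG
    have h2 : n ≤ 2 * ((4 * d + 1) * #I) := h1.trans (Nat.mul_le_mul_left _ hIc)
    have h3 : (n : ℝ) ≤ 2 * ((4 * d + 1) * #I) := by exact_mod_cast h2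
    rw [hκ, div_mul_eq_mul_div, one_mul, div_le_iff₀ (by positivity)]
    linarith
  -- the core
  have hCh : (n : ℝ) / 2 ≤ #C := by
    have : (1 - ε) * n ≥ 1 / 2 * n := mul_le_mul_of_nonneg_right (by linarith) hn0.le
    linarith
  have hCpos : (0 : ℝ) < #C := by linarith
  have hNe : Nonempty V := by
    have : 0 < #C := by exact_mod_cast hCpos
    obtain ⟨x, _⟩ := Finset.card_pos.1 this
    exact ⟨x⟩
  set K0 : Finset V := {x ∈ C | (dg Γ x C : ℝ) < δ * #C} with hK0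
  have hK0C : K0 ⊆ C := Finset.filter_subset _ _
  have hCK0 : (#(C \ K0) : ℝ) ≤ τ * n := by
    have h1 : (#(C \ K0) : ℝ) * (δ * #C) ≤ ∑ x ∈ C \ K0, (dg Γ x C : ℝ) := by
      rw [← nsmul_eq_mul]
      apply Finset.card_nsmul_le_sum
      intro x hx
      rw [Finset.mem_sdiff, hK0, Finset.mem_filter] at hx
      by_contra hc
      push Not at hc
      exact hx.2 ⟨hx.1, hc⟩
    have h2 : ∑ x ∈ C \ K0, (dg Γ x C : ℝ) ≤ ∑ x ∈ C, (dg Γ x C : ℝ) := by
      apply Finset.sum_le_sum_of_subset_of_nonneg Finset.sdiff_subset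
      intro x _ _
      positivity
    have h3 : (#(C \ K0) : ℝ) * (δ * (n / 2)) ≤ (#(C \ K0) : ℝ) * (δ * #C) := by
      apply mul_le_mul_of_nonneg_left _ (by positivity)
      exact mul_le_mul_of_nonneg_left hCh hδ.le
    have h4 : (#(C \ K0) : ℝ) * (δ * (n / 2)) ≤ τ * n * (δ * (n / 2)) := by
      refine (h3.trans (h1.trans (h2.trans hC))).trans (le_of_eq (by ring))
    exact le_of_mul_le_mul_right h4 (by positivity)
  have hK0c : (#K0 : ℝ) = #C - #(C \ K0) := by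
    rw [Finset.card_sdiff_of_subset hK0C, Nat.cast_sub (Finset.card_le_card hK0C)]
    ring
  have hDpos : (0 : ℝ) < #D := lt_of_lt_of_le (by positivity) hD1
  have hτC : τ * n ≤ ρ / 2 * #C := by
    have h1 : τ * n ≤ ρ / 4 * n := mul_le_mul_of_nonneg_right hτ1 hn0.le
    have h2 : ρ / 4 * n ≤ ρ / 4 * (2 * #C) := mul_le_mul_of_nonneg_left (by linarith) (by positivity)
    linarith
  have hsum1 : 2 * (ρ / 4) * #K0 * #D ≤ ∑ x ∈ K0, (rdg Γ x D : ℝ) := by
    have h1 : ∑ x ∈ K0, (rdg Γ x D : ℝ) = ∑ u ∈ D, (rdg Γ u K0 : ℝ) := by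
      exact_mod_cast sum_rdg Γ K0 D
    rw [h1]
    have h2 : (#D : ℝ) * (ρ / 2 * #C) ≤ ∑ u ∈ D, (rdg Γ u K0 : ℝ) := by
      rw [← nsmul_eq_mul]
      apply Finset.card_nsmul_le_sum
      intro u hu
      have h3 : (rdg Γ u C : ℝ) ≤ rdg Γ u K0 + #(C \ K0) := by
        have : rdg Γ u C ≤ rdg Γ u K0 + #(C \ K0) := by
          unfold rdg
          refine (Finset.card_le_card (t := {y ∈ K0 | ¬ Γ.Adj u y} ∪ (C \ K0)) ?_).trans
            (Finset.card_union_le _ _)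
          intro y hy
          rw [Finset.mem_filter] at hy
          rw [Finset.mem_union, Finset.mem_filter, Finset.mem_sdiff]
          by_cases hyK : y ∈ K0
          · exact Or.inl ⟨hyK, hy.2⟩
          · exact Or.inr ⟨hy.1, hyK⟩
        exact_mod_cast this
      have h4 := hD u hu
      linarith
    refine le_trans ?_ h2
    have h5 : (#K0 : ℝ) ≤ #C := by exact_mod_cast Finset.card_le_card hK0C
    have h6 : ρ / 2 * #K0 ≤ ρ / 2 * #C := mul_le_mul_of_nonneg_left h5 (by positivity)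
    have h7 : #D * (ρ / 2 * #K0) ≤ #D * (ρ / 2 * (#C : ℝ)) := mul_le_mul_of_nonneg_left h6 hDpos.le
    linarith
  have hR' := many_large K0 (fun x => (rdg Γ x D : ℝ)) (ρ / 4) #D
    (fun x _ => by exact_mod_cast rdg_le_card Γ x D) (by positivity) hsum1
  set R' : Finset V := {x ∈ K0 | ρ / 4 * #D ≤ (rdg Γ x D : ℝ)} with hR'd
  have hR'c : ρ / 4 * #K0 ≤ #R' := le_of_mul_le_mul_right hR' hDpos
  have hK0n : (1 - κ / 8) * n ≤ #K0 := by
    have h1 : ε * n ≤ κ / 16 * n := mul_le_mul_of_nonneg_right hε2 hn0.le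
    have h2 : τ * n ≤ κ / 16 * n := mul_le_mul_of_nonneg_right hτ2 hn0.le
    linarith
  have hR'n : 2 * κ2 * n ≤ #R' := by
    have h1 : (n : ℝ) / 2 ≤ #K0 := by
      have : κ * n ≤ 1 / 2 * n := mul_le_mul_of_nonneg_right hκ1 hn0.le
      linarith
    have h2 : ρ / 4 * (n / 2) ≤ ρ / 4 * #K0 := mul_le_mul_of_nonneg_left h1 (by positivity)
    have h3 : κ2 * n ≤ ρ / 16 * n := mul_le_mul_of_nonneg_right hκ2a hn0.le
    linarith
  have hceil2 : (⌈κ2 * n⌉₊ : ℝ) ≤ 2 * κ2 * n := by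
    have := Nat.ceil_lt_add_one (show 0 ≤ κ2 * n by positivity)
    linarith
  obtain ⟨R, hRR', hRc⟩ := Finset.exists_subset_card_eq (s := R') (n := ⌈κ2 * n⌉₊) (by
    have : (⌈κ2 * n⌉₊ : ℝ) ≤ #R' := hceil2.trans hR'n
    exact_mod_cast this)
  have hR1 : κ2 * n ≤ #R := by rw [hRc]; exact Nat.le_ceil _
  have hR2 : (#R : ℝ) ≤ 2 * κ2 * n := by rw [hRc]; exact hceil2
  have hRpos : (0 : ℝ) < #R := by linarith
  have hRK0 : R ⊆ K0 := hRR'.trans (Finset.filter_subset _ _)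
  have hsum2 : 2 * (ρ / 8) * #D * #R ≤ ∑ u ∈ D, (rdg Γ u R : ℝ) := by
    have h1 : ∑ u ∈ D, (rdg Γ u R : ℝ) = ∑ x ∈ R, (rdg Γ x D : ℝ) := by
      exact_mod_cast sum_rdg Γ D R
    rw [h1]
    have h2 : (#R : ℝ) * (ρ / 4 * #D) ≤ ∑ x ∈ R, (rdg Γ x D : ℝ) := by
      rw [← nsmul_eq_mul]
      apply Finset.card_nsmul_le_sum
      intro x hx
      have := hRR' hx
      rw [hR'd, Finset.mem_filter] at this
      exact this.2
    linarith
  have hD' := many_large D (fun u => (rdg Γ u R : ℝ)) (ρ / 8) #R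
    (fun x _ => by exact_mod_cast rdg_le_card Γ x R) (by positivity) hsum2
  set D' : Finset V := {u ∈ D | ρ / 8 * #R ≤ (rdg Γ u R : ℝ)} with hD'd
  have hD'c : ρ / 8 * #D ≤ #D' := le_of_mul_le_mul_right hD' hRpos
  have hD'n : ρ * c4 / 8 * n ≤ #D' := by
    have h1 : ρ / 8 * (c4 * n) ≤ ρ / 8 * #D := mul_le_mul_of_nonneg_left hD1 (by positivity)
    linarith
  -- the leaves
  have hceil3 : (⌈κ3 * n⌉₊ : ℝ) ≤ 2 * κ3 * n := by
    have := Nat.ceil_lt_add_one (show 0 ≤ κ3 * n by positivity)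
    linarith
  have hκ3κ : κ3 ≤ κ / 16 := by
    have h1 : κ3 * (256 * (d + 1)) ≥ κ3 * 1 := mul_le_mul_of_nonneg_left (by linarith) hκ3pos.le
    have h2 : ρ * κ2 ≤ 1 * κ2 := mul_le_mul_of_nonneg_right hρ1 hκ2.le
    linarith
  have h2κ3 : 2 * κ3 * n ≤ κ / 8 * n := mul_le_mul_of_nonneg_right (by linarith) hn0.le
  obtain ⟨I2, hI2I, hI2c⟩ := Finset.exists_subset_card_eq (s := I) (n := ⌈κ3 * n⌉₊) (by
    have : (⌈κ3 * n⌉₊ : ℝ) ≤ #I := by
      have : (0 : ℝ) ≤ κ * n := by positivity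
      linarith
    exact_mod_cast this)
  have hI21 : κ3 * n ≤ #I2 := by rw [hI2c]; exact Nat.le_ceil _
  have hI22 : (#I2 : ℝ) ≤ 2 * κ3 * n := by rw [hI2c]; exact hceil3
  set NI : Finset (Fin n) := I2.biUnion fun x => {y | G.Adj x y} with hNI
  have hNIc : (#NI : ℝ) ≤ 4 * d * (2 * κ3 * n) := by
    have h1 : (#NI : ℝ) ≤ ∑ x ∈ I2, (#({y | G.Adj x y} : Finset (Fin n)) : ℝ) := by
      exact_mod_cast Finset.card_biUnion_le
    have h2 : ∑ x ∈ I2, (#({y | G.Adj x y} : Finset (Fin n)) : ℝ) ≤ ∑ x ∈ I2, (4 * d : ℝ) := by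
      apply Finset.sum_le_sum
      intro x hx
      have : #({y | G.Adj x y} : Finset (Fin n)) ≤ 4 * d := hIdeg x (hI2I hx)
      exact_mod_cast this
    rw [Finset.sum_const, nsmul_eq_mul] at h2
    have h3 : (#I2 : ℝ) * (4 * d) ≤ 2 * κ3 * n * (4 * d) :=
      mul_le_mul_of_nonneg_right hI22 (by positivity)
    linarith
  obtain ⟨e, he1, he2, he3⟩ := exists_order G hnn hG (Iᶜ)
  have hSc : (#(Iᶜ) : ℝ) = n - #I := by
    rw [Finset.card_compl, Fintype.card_fin, Nat.cast_sub hIn]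
  -- loss
  have hloss : 4 * d * (2 * κ3 * n) + d * (δ * #C) ≤ ρ / 16 * #R := by
    have h1 : (d : ℝ) * (δ * #C) ≤ (d + 1) * (δ * (2 * n)) := by
      have e1 : δ * (#C : ℝ) ≤ δ * (2 * n) := mul_le_mul_of_nonneg_left hC2 hδ.le
      exact mul_le_mul (by linarith) e1 (by positivity) (by positivity)
    have h2 : (d + 1) * (δ * (2 * n)) ≤ ρ * κ2 / 32 * n := by
      rw [le_div_iff₀ (by positivity)] at hδ2
      have e1 : δ * (64 * (d + 1)) * n ≤ ρ * κ2 * n := mul_le_mul_of_nonneg_right hδ2 hn0.le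
      linarith
    have h3 : 4 * (d : ℝ) * (2 * κ3 * n) ≤ ρ * κ2 / 32 * n := by
      have e1 : κ3 * (256 * (d + 1)) * n = ρ * κ2 * n := by rw [hκ3']
      have e2 : 0 ≤ κ3 * n := by positivity
      linarith
    have h4 : ρ / 16 * (κ2 * n) ≤ ρ / 16 * #R := mul_le_mul_of_nonneg_left hR1 (by positivity)
    linarith
  have hdδ : (d : ℝ) * (δ * #C) ≤ κ / 32 * n := by
    have h1 : (d : ℝ) * (δ * #C) ≤ (d + 1) * (δ * (2 * n)) := by
      have e1 : δ * (#C : ℝ) ≤ δ * (2 * n) := mul_le_mul_of_nonneg_left hC2 hδ.le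
      exact mul_le_mul (by linarith) e1 (by positivity) (by positivity)
    have h2 : (d + 1) * (δ * (2 * n)) ≤ κ / 32 * n := by
      rw [le_div_iff₀ (by positivity)] at hδ3
      have e1 : δ * (64 * (d + 1)) * n ≤ κ * n := mul_le_mul_of_nonneg_right hδ3 hn0.le
      linarith
    linarith
  set T : Fin n → Finset V := fun v => if v ∈ NI then R else K0 \ R with hT
  have hTN : ∀ v, v ∈ NI → T v = R := fun v hv => by simp [hT, hv]
  have hTN' : ∀ v, v ∉ NI → T v = K0 \ R := fun v hv => by simp [hT, hv]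
  have hTK0 : ∀ v, T v ⊆ K0 := by
    intro v
    by_cases hv : v ∈ NI
    · rw [hTN v hv]; exact hRK0
    · rw [hTN' v hv]; exact Finset.sdiff_subset
  have hRdisj : Disjoint (K0 \ R) R := Finset.sdiff_disjoint
  obtain ⟨φ, hφ1, hφ2, hφ3, hφ4⟩ := greedyG Γ G (Iᶜ) #(Iᶜ) e he1 he2 d he3 (I2 ×ˢ D')
    (fun _ => False) T (fun v => if v ∈ NI then #R - ρ / 16 * #R else 1) (δ * #C) (by positivity)
    (fun a v z => if G.Adj a.1 v then (if ¬ Γ.Adj a.2 z then 1 else 0) else 1)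
    (fun a v => if G.Adj a.1 v then ρ / 16 else 1)
    (by
      intro u _ v _ _ x hx
      have hx' := hTK0 u hx
      rw [hK0, Finset.mem_filter] at hx'
      refine le_trans ?_ hx'.2.le
      exact_mod_cast dg_mono Γ x ((hTK0 v).trans hK0C))
    (by
      intro j hj
      by_cases hv : e j ∈ NI
      · rw [if_pos hv, hTN _ hv]
        have h1 : (#{i ∈ range j | ¬ Disjoint (T (e i)) R} : ℝ) ≤ #NI := by
          have : #{i ∈ range j | ¬ Disjoint (T (e i)) R} ≤ #NI := by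
            apply Finset.card_le_card_of_injOn e
            · intro i hi
              rw [Finset.mem_coe, Finset.mem_filter, Finset.mem_range] at hi
              by_contra hc
              apply hi.2
              rw [hTN' _ (fun h => hc (by exact_mod_cast h))]
              exact hRdisj
            · intro i hi i' hi' hii
              rw [Finset.mem_coe, Finset.mem_filter, Finset.mem_range] at hi hi'
              exact he1 i (hi.1.trans hj) i' (hi'.1.trans hj) hii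
          exact_mod_cast this
        linarith
      · rw [if_neg hv, hTN' _ hv]
        have h1 : (#{i ∈ range j | ¬ Disjoint (T (e i)) (K0 \ R)} : ℝ) ≤ #(Iᶜ) := by
          have h2 : #{i ∈ range j | ¬ Disjoint (T (e i)) (K0 \ R)} ≤ #(range j) :=
            Finset.card_filter_le _ _
          rw [Finset.card_range] at h2
          exact_mod_cast h2.trans hj.le
        have h3 : (#(K0 \ R) : ℝ) = #K0 - #R := by
          rw [Finset.card_sdiff_of_subset hRK0, Nat.cast_sub (Finset.card_le_card hRK0)]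
        have h4 : 2 * κ2 * n ≤ κ / 8 * n := mul_le_mul_of_nonneg_right (by linarith) hn0.le
        rw [h3]
        rw [hSc] at h1
        linarith)
    (by
      intro v _
      split_ifs
      · have : ρ / 16 * (#R : ℝ) ≤ 1 / 16 * #R := mul_le_mul_of_nonneg_right (by linarith) hRpos.le
        linarith
      · exact one_pos)
    (by
      intro a _ v _ z _
      split_ifs <;> norm_num)
    (by
      intro a _ v _
      split_ifs <;> positivity)
    (fun _ _ h => absurd h id)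
    (by
      intro a ha _ v hv C' hC' hKC
      rw [Finset.mem_product, hD'd, Finset.mem_filter] at ha
      by_cases hadj : G.Adj a.1 v
      · have hvN : v ∈ NI := by
          rw [hNI, Finset.mem_biUnion]
          exact ⟨a.1, ha.1, by simpa using hadj⟩
        simp only [hadj, if_true]
        rw [if_pos hvN] at hKC
        rw [hTN v hvN] at hC'
        have h1 : ∑ x ∈ C', (if ¬ Γ.Adj a.2 x then (1 : ℝ) else 0) = rdg Γ a.2 C' := by
          rw [Finset.sum_boole]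
          rfl
        rw [h1]
        have h2 : (rdg Γ a.2 R : ℝ) ≤ rdg Γ a.2 C' + (#R - #C') := by
          have : rdg Γ a.2 R ≤ rdg Γ a.2 C' + #(R \ C') := by
            unfold rdg
            refine (Finset.card_le_card (t := {y ∈ C' | ¬ Γ.Adj a.2 y} ∪ (R \ C')) ?_).trans
              (Finset.card_union_le _ _)
            intro y hy
            rw [Finset.mem_filter] at hy
            rw [Finset.mem_union, Finset.mem_filter, Finset.mem_sdiff]
            by_cases hyK : y ∈ C'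
            · exact Or.inl ⟨hyK, hy.2⟩
            · exact Or.inr ⟨hy.1, hyK⟩
          have h3 : (#(R \ C') : ℝ) = #R - #C' := by
            rw [Finset.card_sdiff_of_subset hC', Nat.cast_sub (Finset.card_le_card hC')]
          rw [← h3]
          exact_mod_cast this
        have h4 : (#C' : ℝ) ≤ #R := by exact_mod_cast Finset.card_le_card hC'
        have h5 : ρ / 16 * (#C' : ℝ) ≤ ρ / 16 * #R := mul_le_mul_of_nonneg_left h4 (by positivity)
        have h6 := ha.2.2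
        linarith
      · simp only [hadj, if_false]
        rw [Finset.sum_const, nsmul_eq_mul]
        linarith)
    (fun _ => -1) (fun _ _ h => absurd h id) (fun _ _ _ => by norm_num)
  have hIS : ∀ v, v ∉ I → v ∈ Iᶜ := fun v hv => Finset.mem_compl.2 hv
  -- many compatible pairs
  set P : Finset (Fin n × V) := {a ∈ I2 ×ˢ D' | ∀ y, G.Adj a.1 y → ¬ Γ.Adj a.2 (φ y)} with hP
  have hPc : (ρ / 16) ^ (4 * d) * (#I2 * #D') ≤ #P := by
    have h1 : ∑ a ∈ I2 ×ˢ D', ∏ v ∈ Iᶜ, (if G.Adj a.1 v then ρ / 16 else (1 : ℝ)) ≤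
        ∑ a ∈ I2 ×ˢ D', ∏ v ∈ Iᶜ,
          (if G.Adj a.1 v then (if ¬ Γ.Adj a.2 (φ v) then (1 : ℝ) else 0) else 1) := by
      rw [← Finset.mul_sum, ← Finset.mul_sum] at hφ4
      linarith
    have h2 : ((#I2 : ℝ) * #D') * (ρ / 16) ^ (4 * d) ≤
        ∑ a ∈ I2 ×ˢ D', ∏ v ∈ Iᶜ, (if G.Adj a.1 v then ρ / 16 else (1 : ℝ)) := by
      have h3 : ((#I2 : ℝ) * #D') = (#(I2 ×ˢ D') : ℝ) := by
        rw [Finset.card_product]
        push_cast
        ring
      rw [h3, ← nsmul_eq_mul]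
      apply Finset.card_nsmul_le_sum
      intro a ha
      rw [Finset.mem_product] at ha
      rw [Finset.prod_ite, Finset.prod_const_one, mul_one, Finset.prod_const]
      apply pow_le_pow_of_le_one (by positivity) (by linarith)
      exact (Finset.card_le_card (Finset.filter_subset_filter _ (Finset.subset_univ _))).trans
        (hIdeg a.1 (hI2I ha.1))
    have h4 : ∑ a ∈ I2 ×ˢ D', ∏ v ∈ Iᶜ,
          (if G.Adj a.1 v then (if ¬ Γ.Adj a.2 (φ v) then (1 : ℝ) else 0) else 1) ≤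
          ∑ a ∈ I2 ×ˢ D', if ∀ y, G.Adj a.1 y → ¬ Γ.Adj a.2 (φ y) then (1 : ℝ) else 0 := by
      apply Finset.sum_le_sum
      intro a ha
      rw [Finset.mem_product] at ha
      split_ifs with h
      · apply Finset.prod_le_one
        · intro v _
          split_ifs <;> norm_num
        · intro v _
          split_ifs <;> norm_num
      · push Not at h
        obtain ⟨y, hy1, hy2⟩ := h
        have hyI : y ∉ I := fun hyI => hI a.1 (hI2I ha.1) y hyI hy1
        apply le_of_eq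
        apply Finset.prod_eq_zero (hIS y hyI)
        simp [hy1, hy2]
    rw [Finset.sum_boole] at h4
    linarith
  have hη : 0 < (ρ / 16) ^ (4 * d) := by positivity
  have hmin0 : 0 < min κ3 (ρ * c4 / 8) := by positivity
  have hκ4pos : 0 < κ4 := by rw [hκ4]; positivity
  have hI2n : #I2 ≤ n := (Finset.card_le_card hI2I).trans hIn
  have hI2pos : (0 : ℝ) < #I2 := by linarith
  have hk0 : ⌊κ4 * n⌋₊ * (#I2 + #D') ≤ #P := by
    have h1 : (⌊κ4 * n⌋₊ : ℝ) ≤ κ4 * n := Nat.floor_le (by positivity)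
    have h2 : (⌊κ4 * n⌋₊ : ℝ) * (#I2 + #D') ≤ κ4 * n * (#I2 + #D') :=
      mul_le_mul_of_nonneg_right h1 (by positivity)
    have hm1 : min κ3 (ρ * c4 / 8) * n ≤ #I2 :=
      (mul_le_mul_of_nonneg_right (min_le_left _ _) hn0.le).trans hI21
    have hm2 : min κ3 (ρ * c4 / 8) * n ≤ #D' :=
      (mul_le_mul_of_nonneg_right (min_le_right _ _) hn0.le).trans hD'n
    have h3 : min κ3 (ρ * c4 / 8) * n * #D' ≤ #I2 * #D' :=
      mul_le_mul_of_nonneg_right hm1 (by positivity)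
    have h4 : min κ3 (ρ * c4 / 8) * n * #I2 ≤ #D' * #I2 :=
      mul_le_mul_of_nonneg_right hm2 (by positivity)
    have h5 : κ4 * n * (#I2 + #D') = (ρ / 16) ^ (4 * d) *
        ((min κ3 (ρ * c4 / 8) * n * #D' + min κ3 (ρ * c4 / 8) * n * #I2) / 2) := by
      rw [hκ4]
      ring
    have h6 : (ρ / 16) ^ (4 * d) *
        ((min κ3 (ρ * c4 / 8) * n * #D' + min κ3 (ρ * c4 / 8) * n * #I2) / 2) ≤
        (ρ / 16) ^ (4 * d) * (#I2 * #D') := by
      apply mul_le_mul_of_nonneg_left _ hη.le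
      linarith
    have h7 : (⌊κ4 * n⌋₊ : ℝ) * (#I2 + #D') ≤ #P := by linarith
    exact_mod_cast h7
  have hI2D : 0 < #I2 + #D' := by
    have : 0 < #I2 := by exact_mod_cast hI2pos
    omega
  obtain ⟨X, ψ, hX1, hX2, hX3, hX4⟩ := match_many I2 D' hI2D ⌊κ4 * n⌋₊ P
    (Finset.filter_subset _ _) hk0
  have hfl : κ4 * n - 1 ≤ #X := by
    rw [hX2]
    have := Nat.lt_floor_add_one (κ4 * n)
    linarith
  have hXI2 : (#X : ℝ) ≤ #I2 := by exact_mod_cast Finset.card_le_card hX1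
  have h8 : 2 * (4 * d * (δ * #C)) ≤ 16 * (d + 1) * δ * n := by
    have e1 : δ * (#C : ℝ) ≤ δ * (2 * n) := mul_le_mul_of_nonneg_left hC2 hδ.le
    have e2 : (d : ℝ) * (δ * #C) ≤ (d + 1) * (δ * (2 * n)) :=
      mul_le_mul (by linarith) e1 (by positivity) (by positivity)
    linarith
  refine caseB_finish Γ G I hI hIdeg C D hCD (δ * #C) (by positivity) φ ?_ ?_ ?_ X
    (hX1.trans hI2I) ψ hX3 ?_ ?_ ?_
  · intro v hv
    have h1 := hTK0 v (hφ1 v (hIS v hv))
    rw [hK0, Finset.mem_filter] at h1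
    exact ⟨h1.1, h1.2.le⟩
  · intro u hu v hv huv
    exact hφ2 u (hIS u hu) v (hIS v hv) huv
  · intro u hu v hv huv
    exact hφ3 u (hIS u hu) v (hIS v hv) huv
  · intro x hx
    have h1 := hX4 x hx
    rw [hP, Finset.mem_filter, Finset.mem_product, hD'd, Finset.mem_filter] at h1
    exact ⟨h1.1.2.1, h1.2⟩
  · have h1 : 16 * (d + 1) * δ * n ≤ κ4 / 8 * n := by
      rw [le_div_iff₀ (by positivity)] at hδ1
      have e1 : δ * (128 * (d + 1)) * n ≤ κ4 * n := mul_le_mul_of_nonneg_right hδ1 hn0.le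
      linarith
    have h2 : ε * n ≤ κ4 / 4 * n := mul_le_mul_of_nonneg_right hε1 hn0.le
    linarith
  · have h1 : 16 * (d + 1) * δ * n ≤ κ / 4 * n := by
      rw [le_div_iff₀ (by positivity)] at hδ3
      have e1 : δ * (64 * (d + 1)) * n ≤ κ * n := mul_le_mul_of_nonneg_right hδ3 hn0.le
      linarith
    have h2 : (0 : ℝ) ≤ κ * n := by positivity
    linarith

theorem caseB (d : ℕ) (ρ c4 : ℝ) (hρ : 0 < ρ) (hρ1 : ρ ≤ 1) (hc4 : 0 < c4) :
    ∃ ε γ : ℝ, 0 < ε ∧ 0 < γ ∧ ∀ᶠ n : ℕ in Filter.atTop,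
      ∀ G : SimpleGraph (Fin n), Degen G d → ∀ (V : Type) (Γ : SimpleGraph V) (C D : Finset V),
      Disjoint C D → (1 - ε) * n ≤ #C → (#C : ℝ) ≤ 2 * n →
      ∑ x ∈ C, (dg Γ x C : ℝ) ≤ γ * n ^ 2 → c4 * n ≤ #D →
      (∀ u ∈ D, ρ * #C ≤ rdg Γ u C) →
      ∃ φ : Fin n → V, Function.Injective φ ∧ ∀ u v, G.Adj u v → ¬ Γ.Adj (φ u) (φ v) := by
  set κ : ℝ := 1 / (2 * (4 * d + 1)) with hκ
  have hκ0 : 0 < κ := by positivity
  set κ2 : ℝ := min (ρ / 16) (κ / 16) with hκ2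
  have hκ20 : 0 < κ2 := by positivity
  set κ3 : ℝ := ρ * κ2 / (256 * (d + 1)) with hκ3
  have hκ30 : 0 < κ3 := by positivity
  set κ4 : ℝ := (ρ / 16) ^ (4 * d) * min κ3 (ρ * c4 / 8) / 2 with hκ4
  have hκ40 : 0 < κ4 := by positivity
  set δ : ℝ := min (κ4 / (128 * (d + 1))) (min (ρ * κ2 / (64 * (d + 1))) (κ / (64 * (d + 1))))
    with hδ
  have hδ0 : 0 < δ := by positivity
  set τ : ℝ := min (ρ / 4) (κ / 16) with hτ
  have hτ0 : 0 < τ := by positivity
  refine ⟨min (κ4 / 4) (κ / 16), δ * τ / 2, by positivity, by positivity, ?_⟩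
  filter_upwards [ev_lin 1 κ2 hκ20, ev_lin 1 κ3 hκ30, ev_lin 2 κ4 hκ40, ev_lin 16 κ hκ0] with n
    h1 h2 h3 h4
  intro G hG V Γ C D hCD hC1 hC2 hC hD1 hD
  exact caseB_core d ρ c4 κ κ2 κ3 κ4 δ τ (min (κ4 / 4) (κ / 16)) hρ hρ1 hc4 hκ hκ20
    (min_le_left _ _) (min_le_right _ _) hκ3 hκ4 hδ0 (min_le_left _ _)
    ((min_le_right _ _).trans (min_le_left _ _)) ((min_le_right _ _).trans (min_le_right _ _))
    hτ0 (min_le_left _ _) (min_le_right _ _) (by positivity) (min_le_left _ _) (min_le_right _ _)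
    n h1 h2 h3 h4 G hG V Γ C D hCD hC1 hC2 hC hD1 hD

end Pool.Agent.H66.RG
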