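import Pool.Agent.H66.RG.GFacts

open Finset Classical

namespace Pool.Agent.H66.RG

/-- Embedding a degenerate graph of small bandwidth along a sequence of target sets. -/
theorem chain_embed {V : Type} [Nonempty V] (Γ : SimpleGraph V) {n d b : ℕ} (hn : 0 < n)
    (G : SimpleGraph (Fin n)) (hd : Degen G d) {p : Fin n → ℕ} (hb : BW G p b) (lam : ℕ)
    (hlam : b < lam) (L : ℕ) (ℓ : ℕ → Finset V) (hL : n ≤ L * lam) (θ : ℝ) (hθ : 0 ≤ θ)
    (h1 : ∀ k < L, ∀ x ∈ ℓ k, (dg Γ x (ℓ k) : ℝ) ≤ θ * #(ℓ k))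
    (h2 : ∀ k, k + 1 < L → (∀ x ∈ ℓ k, (dg Γ x (ℓ (k + 1)) : ℝ) ≤ θ * #(ℓ (k + 1))) ∧
      (∀ x ∈ ℓ (k + 1), (dg Γ x (ℓ k) : ℝ) ≤ θ * #(ℓ k)))
    (h3 : ∀ k < L, (lam : ℝ) * #{k' ∈ range L | ¬ Disjoint (ℓ k') (ℓ k)} + d * (θ * #(ℓ k)) + 1
      ≤ #(ℓ k)) :
    ∃ φ : Fin n → V, Function.Injective φ ∧ ∀ u v, G.Adj u v → ¬ Γ.Adj (φ u) (φ v) := by
  have hlam0 : 0 < lam := by omega
  obtain ⟨e, he1, he2, he3⟩ := exists_order G hn hd Finset.univ
  rw [Finset.card_univ, Fintype.card_fin] at he1 he2 he3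
  have hblk : ∀ v, p v / lam < L := by
    intro v
    rw [Nat.div_lt_iff_lt_mul hlam0]
    exact lt_of_lt_of_le (hb.lt v) hL
  set T : ℕ → Finset V := fun i => ℓ (p (e i) / lam) with hT
  have hadj : ∀ u v, G.Adj u v → p u / lam ≤ p v / lam + 1 := by
    intro u v huv
    have := hb.bw u v huv
    calc p u / lam ≤ (p v + lam) / lam := Nat.div_le_div_right (by omega)
      _ = p v / lam + 1 := Nat.add_div_right _ hlam0
  have hdeg : ∀ u v, G.Adj u v → ∀ x ∈ ℓ (p u / lam),
      (dg Γ x (ℓ (p v / lam)) : ℝ) ≤ θ * #(ℓ (p v / lam)) := by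
    intro u v huv x hx
    have e1 := hadj u v huv
    have e2 := hadj v u huv.symm
    rcases Nat.lt_trichotomy (p u / lam) (p v / lam) with h | h | h
    · have h' : p v / lam = p u / lam + 1 := by omega
      rw [h']
      exact (h2 (p u / lam) (h' ▸ hblk v)).1 x hx
    · rw [← h]
      exact h1 _ (hblk u) x hx
    · have h' : p u / lam = p v / lam + 1 := by omega
      rw [h'] at hx
      exact (h2 (p v / lam) (h' ▸ hblk u)).2 x hx
  obtain ⟨φ, g1, g2, g3, _⟩ := greedy Γ (A := Empty) ∅ (fun _ => True)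
    (fun i j => G.Adj (e i) (e j)) T (fun _ => 1) (fun j => θ * #(T j)) (fun _ _ _ => 0)
    (fun _ _ => 0) n (by
      intro j _ i _ hij x hx
      exact hdeg _ _ hij x hx) (by
      intro j hj
      have e1 : #{i ∈ range j | ¬ Disjoint (T i) (T j)} ≤
          lam * #{k' ∈ range L | ¬ Disjoint (ℓ k') (T j)} := by
        set Sg : Finset ℕ := ({k' ∈ range L | ¬ Disjoint (ℓ k') (T j)} : Finset ℕ).biUnion
          (fun k => Finset.Ico (k * lam) ((k + 1) * lam)) with hSg
        have e2 : ∀ i ∈ ({i ∈ range j | ¬ Disjoint (T i) (T j)} : Finset ℕ), p (e i) ∈ Sg := by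
          intro i hi
          rw [Finset.mem_filter, Finset.mem_range] at hi
          rw [hSg, Finset.mem_biUnion]
          refine ⟨p (e i) / lam, ?_, ?_⟩
          · rw [Finset.mem_filter, Finset.mem_range]
            exact ⟨hblk _, hi.2⟩
          · rw [Finset.mem_Ico]
            exact ⟨Nat.div_mul_le_self _ _, by
              have := Nat.lt_div_mul_add hlam0 (a := p (e i))
              rw [add_mul, one_mul]; exact this⟩
        refine (Finset.card_le_card_of_injOn (fun i => p (e i)) e2 ?_).trans ?_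
        · intro i hi i' hi' hii
          have hi1 := Finset.mem_range.mp (Finset.mem_filter.mp hi).1
          have hi2 := Finset.mem_range.mp (Finset.mem_filter.mp hi').1
          exact he1 i (by omega) i' (by omega) (hb.inj hii)
        · rw [hSg]
          refine Finset.card_biUnion_le.trans ?_
          refine (Finset.sum_le_sum (g := fun _ => lam) ?_).trans ?_
          · intro k _
            rw [Nat.card_Ico, add_mul, one_mul]
            omega
          · rw [Finset.sum_const, smul_eq_mul, mul_comm]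
      have e3 : (#{i ∈ range j | ¬ Disjoint (T i) (T j)} : ℝ) ≤
          lam * #{k' ∈ range L | ¬ Disjoint (ℓ k') (T j)} := by exact_mod_cast e1
      have e4 : (#{i ∈ range j | G.Adj (e i) (e j)} : ℝ) * (θ * #(T j)) ≤ d * (θ * #(T j)) := by
        apply mul_le_mul_of_nonneg_right _ (by positivity)
        exact_mod_cast he3 j hj
      have e5 := h3 (p (e j) / lam) (hblk _)
      have e6 : T j = ℓ (p (e j) / lam) := rfl
      rw [← e6] at e5
      linarith) (by intro j _; exact one_pos) (by simp) (by simp) (by simp) (by simp)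
    (fun _ => 0) (by simp) (by simp)
  have hidx : ∀ v, ∃ i < n, e i = v := fun v => (he2 v).mp (Finset.mem_univ _)
  choose idx hidx1 hidx2 using hidx
  refine ⟨fun v => φ (idx v), ?_, ?_⟩
  · intro u v huv
    by_contra hne
    have : idx u ≠ idx v := fun h => hne (by rw [← hidx2 u, ← hidx2 v, h])
    exact g2 _ (hidx1 u) _ (hidx1 v) this huv
  · intro u v huv
    have hne : idx u ≠ idx v := fun h => G.ne_of_adj huv (by rw [← hidx2 u, ← hidx2 v, h])
    rcases Nat.lt_or_gt_of_ne hne with h | h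
    · exact g3 _ _ h (hidx1 v) (by simp only [hidx2]; exact huv)
    · intro hc
      exact g3 _ _ h (hidx1 u) (by simp only [hidx2]; exact huv.symm) hc.symm

end Pool.Agent.H66.RG
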