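import Pool.Agent.H66.RG.Basic

open Finset Classical

namespace Pool.Agent.H66.RG

theorem cluster_exists (r t : ℕ) (η : ℝ) (hη : 0 < η) : ∃ (c : ℝ) (n0 : ℕ), 0 < c ∧ c ≤ 1 ∧
    ∀ (V : Type) (Γ : SimpleGraph V) (S : Finset V), n0 ≤ #S →
      (∃ S' ⊆ S, c * #S ≤ #S' ∧ ∀ x ∈ S', (dg Γ x S' : ℝ) ≤ η * #S') ∨
        HasMulti Γ r t (fun _ => S) := by
  induction r with
  | zero =>
    refine ⟨1, 0, one_pos, le_rfl, ?_⟩
    intro V Γ S _
    right
    exact ⟨fun i => ∅, fun i => i.elim0, fun i => i.elim0⟩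
  | succ r ih =>
    obtain ⟨c', n', hc', hc'1, H⟩ := ih
    obtain ⟨m, c1, hc1, Hp⟩ := pig t (η / 2) (by positivity)
    set c1' : ℝ := min c1 (1 / 2) with hc1'
    have hc1'pos : 0 < c1' := lt_min hc1 (by norm_num)
    refine ⟨c' * c1', max (2 * m) ⌈(n' : ℝ) / c1'⌉₊, by positivity, ?_, ?_⟩
    · have : c1' ≤ 1 / 2 := min_le_right _ _
      nlinarith
    intro V Γ S hS
    have hS1 : 2 * m ≤ #S := (le_max_left _ _).trans hS
    have hS2 : (n' : ℝ) ≤ c1' * #S := by
      have h1 : ⌈(n' : ℝ) / c1'⌉₊ ≤ #S := (le_max_right _ _).trans hS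
      have h2 : (n' : ℝ) / c1' ≤ #S := (Nat.le_ceil _).trans (by exact_mod_cast h1)
      rw [div_le_iff₀ hc1'pos] at h2
      linarith
    by_cases hex : ∃ S' ⊆ S, c' * c1' * #S ≤ #S' ∧ ∀ x ∈ S', (dg Γ x S' : ℝ) ≤ η * #S'
    · exact Or.inl hex
    right
    push Not at hex
    set Q : Finset V := {x ∈ S | η / 2 * #S ≤ dg Γ x S} with hQ
    have hQS : Q ⊆ S := Finset.filter_subset _ _
    have hQc : (#S : ℝ) / 2 ≤ #Q := by
      by_contra hlt
      push Not at hlt
      have hsd : (#(S \ Q) : ℝ) = #S - #Q := by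
        rw [Finset.card_sdiff_of_subset hQS, Nat.cast_sub (Finset.card_le_card hQS)]
      have hhalf : (#S : ℝ) / 2 ≤ #(S \ Q) := by rw [hsd]; linarith
      have h1 : c' * c1' * #S ≤ #(S \ Q) := by
        have h2 : c1' ≤ 1 / 2 := min_le_right _ _
        have h3 : c' * c1' ≤ 1 / 2 := by nlinarith
        have h4 : c' * c1' * #S ≤ 1 / 2 * #S := mul_le_mul_of_nonneg_right h3 (by positivity)
        linarith
      obtain ⟨x, hx, hxd⟩ := hex (S \ Q) Finset.sdiff_subset h1
      rw [Finset.mem_sdiff, hQ, Finset.mem_filter] at hx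
      apply hx.2
      refine ⟨hx.1, ?_⟩
      have h2 : (dg Γ x (S \ Q) : ℝ) ≤ dg Γ x S := by
        exact_mod_cast dg_mono Γ x Finset.sdiff_subset
      have h3 : η / 2 * #S ≤ η * #(S \ Q) := by nlinarith
      linarith
    have hmQ : m ≤ #Q := by
      have h1 : (2 * m : ℝ) ≤ #S := by exact_mod_cast hS1
      have : (m : ℝ) ≤ #Q := by linarith
      exact_mod_cast this
    obtain ⟨Q', hQ', hQ'c, hQ'n⟩ := Hp V Γ S Q hmQ (by
      intro x hx
      rw [hQ, Finset.mem_filter] at hx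
      exact hx.2)
    have hcnc : c1' * #S ≤ #(cn Γ Q' S) :=
      (mul_le_mul_of_nonneg_right (min_le_left _ _) (by positivity)).trans hQ'n
    have hn' : n' ≤ #(cn Γ Q' S) := by
      have : (n' : ℝ) ≤ #(cn Γ Q' S) := hS2.trans hcnc
      exact_mod_cast this
    rcases H V Γ (cn Γ Q' S) hn' with ⟨S', hS', hS'c, hS'd⟩ | hM
    · exfalso
      obtain ⟨x, hx, hxd⟩ := hex S' (hS'.trans (cn_subset _ _ _)) (by
        refine le_trans ?_ hS'c
        rw [mul_assoc]
        exact mul_le_mul_of_nonneg_left hcnc hc'.le)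
      exact absurd (hS'd x hx) (not_le.mpr hxd)
    · obtain ⟨T, hT1, hT2⟩ := hM
      refine ⟨Fin.cons Q' T, ?_, ?_⟩
      · intro i
        refine Fin.cases ?_ ?_ i
        · simp only [Fin.cons_zero]
          exact ⟨hQ'.trans hQS, hQ'c⟩
        · intro i
          simp only [Fin.cons_succ]
          exact ⟨(hT1 i).1.trans (cn_subset _ _ _), (hT1 i).2⟩
      · intro i j
        refine Fin.cases ?_ ?_ i
        · refine Fin.cases ?_ ?_ j
          · intro h; exact absurd rfl h
          · intro j _ x hx y hy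
            simp only [Fin.cons_zero, Fin.cons_succ] at hx hy
            have := (hT1 j).1 hy
            rw [mem_cn] at this
            exact this.2 x hx
        · intro i
          refine Fin.cases ?_ ?_ j
          · intro _ x hx y hy
            simp only [Fin.cons_zero, Fin.cons_succ] at hx hy
            have := (hT1 i).1 hx
            rw [mem_cn] at this
            exact (this.2 y hy).symm
          · intro j hij x hx y hy
            simp only [Fin.cons_succ] at hx hy
            exact hT2 i j (fun h => hij (by rw [h])) x hx y hy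

theorem partition_exists (r t : ℕ) (η η2 : ℝ) (hη : 0 < η) (hη2 : 0 < η2) :
    ∃ (c : ℝ) (n0 : ℕ), 0 < c ∧ ∀ (V : Type) [Fintype V] (Γ : SimpleGraph V),
      n0 ≤ Fintype.card V → ¬ HasMulti Γ r t (fun _ => Finset.univ) →
      ∃ 𝒞 : Finset (Finset V), (∀ C ∈ 𝒞, ∀ C' ∈ 𝒞, C ≠ C' → Disjoint C C') ∧
        (∀ C ∈ 𝒞, c * Fintype.card V ≤ #C ∧ ∀ x ∈ C, (dg Γ x C : ℝ) ≤ η * #C) ∧
        (#(Finset.univ \ 𝒞.biUnion id) : ℝ) ≤ η2 * Fintype.card V := by
  obtain ⟨c3, n3, hc3, hc31, H⟩ := cluster_exists r t η hη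
  refine ⟨c3 * η2, max 1 ⌈(n3 : ℝ) / η2⌉₊, by positivity, ?_⟩
  intro V _ Γ hN hM
  have hN1 : 1 ≤ Fintype.card V := (le_max_left _ _).trans hN
  have hN2 : (n3 : ℝ) ≤ η2 * Fintype.card V := by
    have h1 : ⌈(n3 : ℝ) / η2⌉₊ ≤ Fintype.card V := (le_max_right _ _).trans hN
    have h2 : (n3 : ℝ) / η2 ≤ Fintype.card V := (Nat.le_ceil _).trans (by exact_mod_cast h1)
    rw [div_le_iff₀ hη2] at h2
    linarith
  set fam : Finset (Finset (Finset V)) := {𝒞 | (∀ C ∈ 𝒞, ∀ C' ∈ 𝒞, C ≠ C' → Disjoint C C') ∧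
        (∀ C ∈ 𝒞, c3 * η2 * Fintype.card V ≤ #C ∧ ∀ x ∈ C, (dg Γ x C : ℝ) ≤ η * #C)} with hfam
  have hne : fam.Nonempty := ⟨∅, by simp [hfam]⟩
  obtain ⟨𝒞, h𝒞, hmax⟩ := Finset.exists_max_image fam (fun 𝒞 => #(𝒞.biUnion id)) hne
  rw [hfam, Finset.mem_filter] at h𝒞
  obtain ⟨_, hdisj, hprop⟩ := h𝒞
  refine ⟨𝒞, hdisj, hprop, ?_⟩
  by_contra hlt
  push Not at hlt
  set R : Finset V := Finset.univ \ 𝒞.biUnion id with hR
  have hRn : n3 ≤ #R := by
    have : (n3 : ℝ) ≤ #R := hN2.trans hlt.le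
    exact_mod_cast this
  rcases H V Γ R hRn with ⟨S', hS', hS'c, hS'd⟩ | hM'
  · have hposN : (0 : ℝ) < Fintype.card V := by exact_mod_cast hN1
    have hS'pos : (0 : ℝ) < #S' := by
      have : 0 < c3 * #R := by
        have : 0 < (#R : ℝ) := lt_of_le_of_lt (by positivity) hlt
        positivity
      linarith
    have hS'ne : S'.Nonempty := by
      rw [← Finset.card_pos]
      exact_mod_cast hS'pos
    have hdS' : ∀ C ∈ 𝒞, Disjoint S' C := by
      intro C hC
      rw [Finset.disjoint_left]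
      intro x hx hxC
      have := hS' hx
      rw [hR, Finset.mem_sdiff] at this
      exact this.2 (Finset.mem_biUnion.mpr ⟨C, hC, hxC⟩)
    have hnotin : S' ∉ 𝒞 := by
      intro hin
      have := hdS' S' hin
      rw [Finset.disjoint_self_iff_empty] at this
      exact hS'ne.ne_empty this
    have hin : insert S' 𝒞 ∈ fam := by
      rw [hfam, Finset.mem_filter]
      refine ⟨Finset.mem_univ _, ?_, ?_⟩
      · intro C hC C' hC' hne
        rw [Finset.mem_insert] at hC hC'
        rcases hC with rfl | hC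
        · rcases hC' with rfl | hC'
          · exact absurd rfl hne
          · exact hdS' C' hC'
        · rcases hC' with rfl | hC'
          · exact (hdS' C hC).symm
          · exact hdisj C hC C' hC' hne
      · intro C hC
        rw [Finset.mem_insert] at hC
        rcases hC with rfl | hC
        · refine ⟨?_, hS'd⟩
          refine le_trans ?_ hS'c
          rw [mul_assoc]
          exact mul_le_mul_of_nonneg_left hlt.le hc3.le
        · exact hprop C hC
    have h1 := hmax _ hin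
    simp only [Finset.biUnion_insert, id] at h1
    rw [Finset.card_union_of_disjoint] at h1
    · have : 0 < #S' := Finset.card_pos.mpr hS'ne
      have h2 : #(𝒞.biUnion id) = #(𝒞.biUnion fun x => x) := rfl
      omega
    · rw [Finset.disjoint_biUnion_right]
      exact hdS'
  · exact hM (hM'.mono (fun _ => Finset.subset_univ _))

end Pool.Agent.H66.RG
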