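import Pool.Agent.H66.RG.Route

open Finset Classical

namespace Pool.Agent.H66.RG

/-- target set of a kind -/
noncomputable def tgt {V W : Type} (Vc F : W → Finset V) (A : W → W → Finset V) : Kind W → Finset V
  | Kind.J a => Vc a \ F a
  | Kind.X a b => F a ∩ A a b

theorem comp_embed {V : Type} [Nonempty V] (Γ : SimpleGraph V) {n d b : ℕ} (hn : 0 < n)
    (G : SimpleGraph (Fin n)) (hd : Degen G d) {p : Fin n → ℕ} (hb : BW G p b)
    {W : Type} [Fintype W] (Vc : W → Finset V) (hdisj : ∀ a b, a ≠ b → Disjoint (Vc a) (Vc b))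
    (𝒢 : SimpleGraph W) (A : W → W → Finset V) (ε c2 η η0 : ℝ) (hε : 0 < ε) (hε1 : ε ≤ 1)
    (hc2 : 0 < c2) (hc21 : c2 ≤ 1) (hη : 0 ≤ η) (hη0 : 0 ≤ η0)
    (hA : ∀ a b, 𝒢.Adj a b → A a b ⊆ Vc a ∧ c2 * #(Vc a) ≤ #(A a b) ∧
      ∀ x ∈ A a b, (dg Γ x (A b a) : ℝ) ≤ η0 * #(A b a))
    (hint : ∀ a, ∀ x ∈ Vc a, (dg Γ x (Vc a) : ℝ) ≤ η * #(Vc a))
    (hη0' : 512 * (d + 1) * η0 ≤ ε ^ 2) (hη' : 512 * (d + 1) * η ≤ ε ^ 2 * c2)
    (M : ℕ) (hM : Fintype.card W ≤ M) (s0 : ℝ) (hs0 : ∀ a, s0 ≤ #(Vc a))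
    (hN1 : 2 ^ M * 8 ≤ s0) (hN2 : 128 ≤ ε * s0) (hN3 : 64 * (b + 1) * M ^ 2 ≤ ε * c2 * s0)
    (hN4 : 32 ≤ ε * c2 * s0) (hN5 : 2 * M * (2 ^ M + (b + 1)) ≤ ε * n)
    (𝒮 : Finset W) (r : W) (hreach : ∀ a ∈ 𝒮, 𝒢.Reachable r a)
    (hsize : (1 + ε) * n ≤ ∑ a ∈ 𝒮, (#(Vc a) : ℝ)) :
    ∃ φ : Fin n → V, Function.Injective φ ∧ ∀ u v, G.Adj u v → ¬ Γ.Adj (φ u) (φ v) := by
  set lam : ℕ := b + 1 with hlam
  set θ : ℝ := ε / (64 * (d + 1)) with hθ
  have hd1 : (0 : ℝ) < d + 1 := by positivity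
  have hθ0 : 0 < θ := by positivity
  have hθd : (d : ℝ) * θ ≤ ε / 64 := by
    rw [hθ, mul_div_assoc', div_le_div_iff₀ (by positivity) (by norm_num)]
    nlinarith
  have hθη0 : 8 * η0 ≤ ε * θ := by
    rw [hθ, mul_div_assoc', le_div_iff₀ (by positivity)]
    nlinarith
  have hθη : 8 * η ≤ ε * c2 * θ := by
    rw [hθ, mul_div_assoc', le_div_iff₀ (by positivity)]
    nlinarith
  have hθη2 : 2 * η ≤ θ := by
    have : ε * c2 * θ ≤ θ := by
      have : ε * c2 ≤ 1 := by nlinarith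
      nlinarith
    linarith
  -- reserved sets
  have hres : ∀ a, ∃ F ⊆ Vc a, ε / 8 * #(Vc a) ≤ #F ∧
      (#F : ℝ) ≤ ε / 8 * #(Vc a) + 2 ^ Fintype.card W ∧
      ∀ c, ε / 8 * #(A a c ∩ Vc a) ≤ #(F ∩ A a c) := by
    intro a
    obtain ⟨F, h1, h2, h3, h4⟩ := reserve (ε / 8) (by positivity) (by linarith) (A a) Finset.univ
      (Vc a)
    exact ⟨F, h1, h2, by rwa [Finset.card_univ] at h3, fun c => h4 c (Finset.mem_univ _)⟩
  choose F hF1 hF2 hF3 hF4 using hres
  have hpow : (2 : ℝ) ^ Fintype.card W ≤ 2 ^ M := pow_le_pow_right₀ (by norm_num) hM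
  -- sizes
  have hJ : ∀ a, (#(Vc a \ F a) : ℝ) ≥ (1 - ε / 8) * #(Vc a) - 2 ^ M := by
    intro a
    have h1 : (#(Vc a \ F a) : ℝ) = #(Vc a) - #(F a) := by
      rw [Finset.card_sdiff_of_subset (hF1 a), Nat.cast_sub (Finset.card_le_card (hF1 a))]
    have := hF3 a
    linarith
  have hVpos : ∀ a, (0 : ℝ) < #(Vc a) := by
    intro a
    have := hs0 a
    have : (0 : ℝ) < 2 ^ M := by positivity
    linarith
  have hJ2 : ∀ a, (#(Vc a) : ℝ) / 2 ≤ #(Vc a \ F a) := by
    intro a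
    have h1 := hJ a
    have h2 := hs0 a
    have h3 := hVpos a
    nlinarith
  have hX : ∀ a c, 𝒢.Adj a c → ε / 8 * #(A a c) ≤ #(F a ∩ A a c) := by
    intro a c hac
    have h1 := hF4 a c
    rw [Finset.inter_eq_left.mpr (hA a c hac).1] at h1
    exact h1
  have hX2 : ∀ a c, 𝒢.Adj a c → ε / 8 * c2 * #(Vc a) ≤ #(F a ∩ A a c) := by
    intro a c hac
    have h1 := hX a c hac
    have h2 := (hA a c hac).2.1
    have h3 : ε / 8 * (c2 * #(Vc a)) ≤ ε / 8 * #(A a c) :=
      mul_le_mul_of_nonneg_left h2 (by positivity)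
    linarith
  -- degrees into the targets
  have hhome : ∀ k : Kind W, ((∃ a, k = Kind.J a) ∨ ∃ a b, 𝒢.Adj a b ∧ k = Kind.X a b) →
      ∀ x ∈ Vc k.home, (dg Γ x (tgt Vc F A k) : ℝ) ≤ θ * #(tgt Vc F A k) := by
    intro k hk x hx
    rcases hk with ⟨a, rfl⟩ | ⟨a, c, hac, rfl⟩
    · simp only [Kind.home] at hx
      simp only [tgt]
      have h1 : (dg Γ x (Vc a \ F a) : ℝ) ≤ dg Γ x (Vc a) := by
        exact_mod_cast dg_mono Γ x Finset.sdiff_subset
      have h2 := hint a x hx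
      have h3 := hJ2 a
      have h4 := hVpos a
      calc (dg Γ x (Vc a \ F a) : ℝ) ≤ η * #(Vc a) := h1.trans h2
        _ ≤ 2 * η * #(Vc a \ F a) := by nlinarith
        _ ≤ θ * #(Vc a \ F a) := mul_le_mul_of_nonneg_right hθη2 (by positivity)
    · simp only [Kind.home] at hx
      simp only [tgt]
      have h1 : (dg Γ x (F a ∩ A a c) : ℝ) ≤ dg Γ x (Vc a) := by
        exact_mod_cast dg_mono Γ x (Finset.inter_subset_left.trans (hF1 a))
      have h2 := hint a x hx
      have h3 := hX2 a c hac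
      have h4 := hVpos a
      calc (dg Γ x (F a ∩ A a c) : ℝ) ≤ η * #(Vc a) := h1.trans h2
        _ ≤ ε * c2 * θ / 8 * #(Vc a) := mul_le_mul_of_nonneg_right (by linarith) h4.le
        _ = θ * (ε / 8 * c2 * #(Vc a)) := by ring
        _ ≤ θ * #(F a ∩ A a c) := mul_le_mul_of_nonneg_left h3 hθ0.le
  have htgtsub : ∀ k : Kind W, tgt Vc F A k ⊆ Vc k.home := by
    intro k
    cases k with
    | J a => exact Finset.sdiff_subset
    | X a c => exact Finset.inter_subset_left.trans (hF1 a)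
  have hrel : ∀ k k' : Kind W, ((∃ a, k' = Kind.J a) ∨ ∃ a b, 𝒢.Adj a b ∧ k' = Kind.X a b) →
      KRel 𝒢 k k' → ∀ x ∈ tgt Vc F A k, (dg Γ x (tgt Vc F A k') : ℝ) ≤ θ * #(tgt Vc F A k') := by
    intro k k' hk' hkk x hx
    rcases hkk with h | ⟨a, c, hac, rfl, rfl⟩
    · exact hhome k' hk' x (h ▸ htgtsub k hx)
    · simp only [tgt] at hx ⊢
      have h1 : (dg Γ x (F c ∩ A c a) : ℝ) ≤ dg Γ x (A c a) := by
        exact_mod_cast dg_mono Γ x Finset.inter_subset_right
      have h2 := (hA a c hac).2.2 x (Finset.mem_of_mem_inter_right hx)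
      have h3 := hX c a hac.symm
      calc (dg Γ x (F c ∩ A c a) : ℝ) ≤ η0 * #(A c a) := h1.trans h2
        _ ≤ ε * θ / 8 * #(A c a) := mul_le_mul_of_nonneg_right (by linarith) (by positivity)
        _ = θ * (ε / 8 * #(A c a)) := by ring
        _ ≤ θ * #(F c ∩ A c a) := mul_le_mul_of_nonneg_left h3 hθ0.le
  have hrelsymm : ∀ k k' : Kind W, KRel 𝒢 k k' → KRel 𝒢 k' k := by
    intro k k' h
    rcases h with h | ⟨a, c, hac, rfl, rfl⟩
    · exact Or.inl h.symm
    · exact Or.inr ⟨c, a, hac.symm, rfl, rfl⟩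
  -- the route
  have hlampos : (0 : ℝ) < lam := by rw [hlam]; positivity
  set K : W → ℕ := fun a => ⌊(1 - ε / 32) * #(Vc a \ F a) / lam⌋₊ with hK
  obtain ⟨h, κ, _, hroute, hcount, hXcount⟩ := exists_route 𝒢 r K 𝒮 hreach
  set ℓ : ℕ → Finset V := fun k => tgt Vc F A (κ.getD k (Kind.J r)) with hℓ
  have hvalid := hroute.valid
  have hchain := hroute.chain
  have hmem : ∀ k < κ.length, κ.getD k (Kind.J r) ∈ κ := by
    intro k hk
    rw [List.getD_eq_getElem _ _ hk]
    exact List.getElem_mem hk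
  -- disjointness of targets
  have hdisjJ : ∀ (a : W) (k : Kind W), ¬ Disjoint (tgt Vc F A k) (tgt Vc F A (Kind.J a)) →
      k = Kind.J a := by
    intro a k hnd
    cases k with
    | J c =>
      by_contra hne
      apply hnd
      have hca : c ≠ a := fun h => hne (by rw [h])
      exact Finset.disjoint_of_subset_left (htgtsub (Kind.J c))
        (Finset.disjoint_of_subset_right (htgtsub (Kind.J a)) (hdisj c a hca))
    | X c e =>
      exfalso
      apply hnd
      by_cases hca : c = a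
      · subst hca
        simp only [tgt]
        rw [Finset.disjoint_left]
        intro x hx1 hx2
        exact (Finset.mem_sdiff.mp hx2).2 (Finset.mem_of_mem_inter_left hx1)
      · exact Finset.disjoint_of_subset_left (htgtsub (Kind.X c e))
          (Finset.disjoint_of_subset_right (htgtsub (Kind.J a)) (hdisj c a hca))
  have hdisjX : ∀ (a c : W) (k : Kind W), ¬ Disjoint (tgt Vc F A k) (tgt Vc F A (Kind.X a c)) →
      k.isX := by
    intro a c k hnd
    cases k with
    | J e =>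
      exfalso
      have := hdisjJ e (Kind.X a c) (fun h => hnd h.symm)
      cases this
    | X c e => trivial
  have h𝒮card : #𝒮 ≤ M := (Finset.card_le_univ 𝒮).trans hM
  have hM0 : (0 : ℝ) ≤ M := by positivity
  have hXc : (κ.countP (fun k => decide k.isX) : ℝ) ≤ 2 * M ^ 2 := by
    have h1 : κ.countP (fun k => decide k.isX) ≤ 2 * M * M :=
      hXcount.trans (by gcongr)
    have h2 : (κ.countP (fun k => decide k.isX) : ℝ) ≤ 2 * M * M := by exact_mod_cast h1
    linarith [sq (M : ℝ)]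
  apply chain_embed Γ hn G hd hb lam (by omega) κ.length ℓ _ θ hθ0.le
  · -- degrees inside a target
    intro k hk x hx
    exact hhome _ (hvalid _ (hmem k hk)) x (htgtsub _ hx)
  · -- consecutive targets
    intro k hk
    have hc : KRel 𝒢 (κ.getD k (Kind.J r)) (κ.getD (k + 1) (Kind.J r)) := by
      rw [List.getD_eq_getElem _ _ hk, List.getD_eq_getElem _ _ (by omega : k < κ.length)]
      exact List.isChain_iff_getElem.mp hchain k hk
    exact ⟨fun x hx => hrel _ _ (hvalid _ (hmem (k + 1) hk)) hc x hx,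
      fun x hx => hrel _ _ (hvalid _ (hmem k (by omega))) (hrelsymm _ _ hc) x hx⟩
  · -- capacities
    intro k hk
    rcases hvalid _ (hmem k hk) with ⟨a, ha⟩ | ⟨a, c, hac, ha⟩
    · have e1 : #{k' ∈ range κ.length | ¬ Disjoint (ℓ k') (ℓ k)} ≤ K a := by
        have e2 : #{k' ∈ range κ.length | ¬ Disjoint (ℓ k') (ℓ k)} ≤
            #{k' ∈ range κ.length | κ.getD k' (Kind.J r) = Kind.J a} := by
          apply Finset.card_le_card
          intro k' hk'
          rw [Finset.mem_filter] at hk' ⊢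
          refine ⟨hk'.1, hdisjJ a _ ?_⟩
          have := hk'.2
          simp only [hℓ, ha] at this
          exact this
        refine e2.trans ?_
        rw [card_range_getD κ (Kind.J r) (fun x => x = Kind.J a), hcount]
        split_ifs <;> omega
      have e3 : (lam : ℝ) * K a ≤ (1 - ε / 32) * #(Vc a \ F a) := by
        have h1 : (0 : ℝ) ≤ (1 - ε / 32) * #(Vc a \ F a) / lam := by
          have : (0 : ℝ) ≤ 1 - ε / 32 := by linarith
          positivity
        have h2 : (K a : ℝ) ≤ (1 - ε / 32) * #(Vc a \ F a) / lam := Nat.floor_le h1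
        rw [le_div_iff₀ hlampos] at h2
        linarith
      have e4 : (#{k' ∈ range κ.length | ¬ Disjoint (ℓ k') (ℓ k)} : ℝ) ≤ K a := by
        exact_mod_cast e1
      have e5 : ℓ k = Vc a \ F a := by
        simp only [hℓ, ha, tgt]
      have e6 : (1 : ℝ) ≤ ε / 64 * #(Vc a \ F a) := by
        have h1 := hJ2 a
        have h2 := hs0 a
        have h3 : ε / 64 * (s0 / 2) ≤ ε / 64 * #(Vc a \ F a) := by
          apply mul_le_mul_of_nonneg_left _ (by positivity)
          linarith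
        linarith
      have e7 : (lam : ℝ) * #{k' ∈ range κ.length | ¬ Disjoint (ℓ k') (ℓ k)} ≤ lam * K a :=
        mul_le_mul_of_nonneg_left e4 hlampos.le
      have e8 : (d : ℝ) * (θ * #(ℓ k)) ≤ ε / 64 * #(Vc a \ F a) := by
        rw [e5, ← mul_assoc]
        exact mul_le_mul_of_nonneg_right hθd (by positivity)
      rw [e5] at e7 e8 ⊢
      linarith
    · have e2 : #{k' ∈ range κ.length | ¬ Disjoint (ℓ k') (ℓ k)} ≤
          κ.countP (fun k => decide k.isX) := by
        rw [← card_range_getD κ (Kind.J r) (fun x => x.isX)]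
        apply Finset.card_le_card
        intro k' hk'
        rw [Finset.mem_filter] at hk' ⊢
        refine ⟨hk'.1, hdisjX a c _ ?_⟩
        have := hk'.2
        simp only [hℓ, ha] at this
        exact this
      have e4 : (#{k' ∈ range κ.length | ¬ Disjoint (ℓ k') (ℓ k)} : ℝ) ≤ 2 * M ^ 2 :=
        le_trans (by exact_mod_cast e2) hXc
      have e5 : ℓ k = F a ∩ A a c := by
        simp only [hℓ, ha, tgt]
      have e6 : ε / 8 * c2 * s0 ≤ #(F a ∩ A a c) := by
        refine le_trans ?_ (hX2 a c hac)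
        exact mul_le_mul_of_nonneg_left (hs0 a) (by positivity)
      have e7 : (lam : ℝ) * #{k' ∈ range κ.length | ¬ Disjoint (ℓ k') (ℓ k)} ≤
          lam * (2 * M ^ 2) := mul_le_mul_of_nonneg_left e4 hlampos.le
      have e8 : (d : ℝ) * (θ * #(ℓ k)) ≤ ε / 64 * #(F a ∩ A a c) := by
        rw [e5, ← mul_assoc]
        exact mul_le_mul_of_nonneg_right hθd (by positivity)
      have e9 : (lam : ℝ) = b + 1 := by rw [hlam]; push_cast; ring
      have e10 : (lam : ℝ) * (2 * M ^ 2) ≤ 1 / 4 * #(F a ∩ A a c) := by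
        rw [e9]; linarith
      have e11 : (1 : ℝ) ≤ 1 / 4 * #(F a ∩ A a c) := by linarith
      have e12 : ε / 64 * #(F a ∩ A a c) ≤ 1 / 4 * #(F a ∩ A a c) :=
        mul_le_mul_of_nonneg_right (by linarith) (by positivity)
      rw [e5] at e7 e8 ⊢
      have e13 : (0 : ℝ) ≤ #(F a ∩ A a c) := by positivity
      linarith
  · -- total length
    have e1 : ∑ a ∈ 𝒮, K a ≤ κ.length := by
      have e2 : ∑ a ∈ 𝒮, K a = ∑ a ∈ 𝒮, #{k ∈ range κ.length | κ.getD k (Kind.J r) = Kind.J a} := by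
        apply Finset.sum_congr rfl
        intro a ha
        rw [card_range_getD κ (Kind.J r) (fun x => x = Kind.J a), hcount, if_pos ha]
      rw [e2, ← Finset.card_biUnion]
      · refine (Finset.card_le_card ?_).trans (Finset.card_range _).le
        intro k hk
        rw [Finset.mem_biUnion] at hk
        obtain ⟨a, _, hk⟩ := hk
        exact (Finset.mem_filter.mp hk).1
      · intro a _ c _ hac
        show Disjoint _ _
        rw [Finset.disjoint_left]
        intro k hk1 hk2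
        rw [Finset.mem_filter] at hk1 hk2
        rw [hk1.2] at hk2
        exact hac (by have := hk2.2; injection this)
    have e3 : ∀ a ∈ 𝒮, (1 - ε / 32) * ((1 - ε / 8) * #(Vc a)) - (2 ^ M + (b + 1)) ≤ K a * lam := by
      intro a _
      have h1 : (1 - ε / 32) * #(Vc a \ F a) / lam < K a + 1 := Nat.lt_floor_add_one _
      rw [div_lt_iff₀ hlampos] at h1
      have h2 := hJ a
      have h3 : (1 - ε / 32) * ((1 - ε / 8) * #(Vc a) - 2 ^ M) ≤ (1 - ε / 32) * #(Vc a \ F a) :=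
        mul_le_mul_of_nonneg_left h2 (by linarith)
      have h4 : (0 : ℝ) < 2 ^ M := by positivity
      have h5 : (1 - ε / 32) * (2 : ℝ) ^ M ≤ 1 * 2 ^ M :=
        mul_le_mul_of_nonneg_right (by linarith) h4.le
      have e9 : (lam : ℝ) = b + 1 := by rw [hlam]; push_cast; ring
      rw [e9] at h1 ⊢
      linarith
    have e4 : (1 - ε / 32) * (1 - ε / 8) * ((1 + ε) * n) - M * (2 ^ M + (b + 1)) ≤
        (κ.length * lam : ℝ) := by
      have h1 := Finset.sum_le_sum e3
      rw [Finset.sum_sub_distrib, ← Finset.mul_sum, ← Finset.mul_sum, Finset.sum_const,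
        nsmul_eq_mul, ← Finset.sum_mul] at h1
      have h2 : (∑ a ∈ 𝒮, (K a : ℝ)) * lam ≤ κ.length * lam := by
        apply mul_le_mul_of_nonneg_right _ hlampos.le
        exact_mod_cast e1
      have h3 : (#𝒮 : ℝ) * (2 ^ M + (b + 1)) ≤ M * (2 ^ M + (b + 1)) := by
        apply mul_le_mul_of_nonneg_right _ (by positivity)
        exact_mod_cast h𝒮card
      have h4 : (1 - ε / 32) * ((1 - ε / 8) * ((1 + ε) * n)) ≤
          (1 - ε / 32) * ((1 - ε / 8) * ∑ a ∈ 𝒮, (#(Vc a) : ℝ)) := by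
        apply mul_le_mul_of_nonneg_left _ (by linarith)
        exact mul_le_mul_of_nonneg_left hsize (by linarith)
      linarith
    have e5 : (n : ℝ) ≤ κ.length * lam := by
      refine le_trans ?_ e4
      have h1 : (0 : ℝ) ≤ n := by positivity
      have h2 : (1 + ε / 2) ≤ (1 - ε / 32) * (1 - ε / 8) * (1 + ε) := by nlinarith [mul_pos hε hε]
      have h3 : (1 + ε / 2) * n ≤ (1 - ε / 32) * (1 - ε / 8) * (1 + ε) * n :=
        mul_le_mul_of_nonneg_right h2 h1
      linarith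
    exact_mod_cast e5

end Pool.Agent.H66.RG
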