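import Pool.Agent.H66.RG.Finish

open Finset Classical

namespace Pool.Agent.H66.RG

/-- an order starting with the vertices of `A`, then those of `B` in a degenerate order -/
theorem order_two {n : ℕ} (G : SimpleGraph (Fin n)) (hn : 0 < n) {d : ℕ} (hd : Degen G d)
    (A B : Finset (Fin n)) (hAB : Disjoint A B) :
    ∃ e : ℕ → Fin n, (∀ i < #A + #B, ∀ j < #A + #B, e i = e j → i = j) ∧
      (∀ v, v ∈ A ∪ B ↔ ∃ i < #A + #B, e i = v) ∧ (∀ i < #A, e i ∈ A) ∧
      (∀ j, #A ≤ j → j < #A + #B → e j ∈ B) ∧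
      ∀ j < #A + #B, #{i ∈ range j | G.Adj (e i) (e j)} ≤ #A + d := by
  obtain ⟨eA, a1, a2, a3⟩ := exists_order G hn hd A
  obtain ⟨eB, b1, b2, b3⟩ := exists_order G hn hd B
  have hA : ∀ i < #A, eA i ∈ A := fun i hi => (a2 _).2 ⟨i, hi, rfl⟩
  have hB : ∀ i < #B, eB i ∈ B := fun i hi => (b2 _).2 ⟨i, hi, rfl⟩
  set e : ℕ → Fin n := fun i => if i < #A then eA i else eB (i - #A) with he
  have e1 : ∀ i, i < #A → e i = eA i := fun i hi => by simp [he, hi]
  have e2 : ∀ i, #A ≤ i → e i = eB (i - #A) := fun i hi => by simp [he, not_lt.2 hi]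
  refine ⟨e, ?_, ?_, ?_, ?_, ?_⟩
  · intro i hi j hj hij
    rcases lt_or_ge i #A with h1 | h1 <;> rcases lt_or_ge j #A with h2 | h2
    · rw [e1 i h1, e1 j h2] at hij
      exact a1 i h1 j h2 hij
    · rw [e1 i h1, e2 j h2] at hij
      exact absurd (hij ▸ hA i h1) (fun h => Finset.disjoint_left.1 hAB h (hB _ (by omega)))
    · rw [e2 i h1, e1 j h2] at hij
      exact absurd (hij ▸ hA j h2) (fun h => Finset.disjoint_left.1 hAB h (hB _ (by omega)))
    · rw [e2 i h1, e2 j h2] at hij
      have := b1 _ (by omega) _ (by omega) hij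
      omega
  · intro v
    rw [Finset.mem_union]
    constructor
    · rintro (hv | hv)
      · obtain ⟨i, hi, rfl⟩ := (a2 v).1 hv
        exact ⟨i, by omega, e1 i hi⟩
      · obtain ⟨i, hi, rfl⟩ := (b2 v).1 hv
        refine ⟨i + #A, by omega, ?_⟩
        rw [e2 _ (by omega)]
        congr 1
        omega
    · rintro ⟨i, hi, rfl⟩
      rcases lt_or_ge i #A with h1 | h1
      · rw [e1 i h1]
        exact Or.inl (hA i h1)
      · rw [e2 i h1]
        exact Or.inr (hB _ (by omega))
  · intro i hi
    rw [e1 i hi]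
    exact hA i hi
  · intro j h1 h2
    rw [e2 j h1]
    exact hB _ (by omega)
  · intro j hj
    rcases lt_or_ge j #A with h1 | h1
    · have h2 : #{i ∈ range j | G.Adj (e i) (e j)} ≤ #{i ∈ range j | G.Adj (eA i) (eA j)} := by
        apply Finset.card_le_card
        intro i hi
        rw [Finset.mem_filter, Finset.mem_range] at hi ⊢
        rw [e1 i (by omega), e1 j h1] at hi
        exact hi
      have := a3 j h1
      omega
    · have h2 : #{i ∈ range j | G.Adj (e i) (e j)} ≤
          #(range #A ∪ ({i ∈ range (j - #A) | G.Adj (eB i) (eB (j - #A))}).image (· + #A)) := by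
        apply Finset.card_le_card
        intro i hi
        rw [Finset.mem_filter, Finset.mem_range] at hi
        rw [Finset.mem_union, Finset.mem_range, Finset.mem_image]
        rcases lt_or_ge i #A with h3 | h3
        · exact Or.inl h3
        · right
          rw [e2 i h3, e2 j h1] at hi
          refine ⟨i - #A, ?_, by omega⟩
          rw [Finset.mem_filter, Finset.mem_range]
          exact ⟨by omega, hi.2⟩
      have h3 := Finset.card_union_le (range #A)
        (({i ∈ range (j - #A) | G.Adj (eB i) (eB (j - #A))}).image (· + #A))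
      have h4 : #(({i ∈ range (j - #A) | G.Adj (eB i) (eB (j - #A))}).image (· + #A)) ≤
        #{i ∈ range (j - #A) | G.Adj (eB i) (eB (j - #A))} := Finset.card_image_le
      have h5 := b3 (j - #A) (by omega)
      rw [Finset.card_range] at h3
      omega

theorem exists_inj {X Y : Type} [Nonempty Y] (A : Finset X) (B : Finset Y) (h : #A ≤ #B) :
    ∃ ξ : X → Y, (∀ v ∈ A, ξ v ∈ B) ∧ ∀ u ∈ A, ∀ v ∈ A, ξ u = ξ v → u = v := by
  obtain ⟨B', hB', hc⟩ := Finset.exists_subset_card_eq h
  have e : A ≃ B' := Finset.equivOfCardEq hc.symm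
  refine ⟨fun v => if h : v ∈ A then (e ⟨v, h⟩).1 else Classical.arbitrary Y, ?_, ?_⟩
  · intro v hv
    simp only [hv, dif_pos]
    exact hB' (e ⟨v, hv⟩).2
  · intro u hu v hv huv
    simp only [hu, hv, dif_pos] at huv
    have := e.injective (Subtype.ext huv)
    exact congrArg Subtype.val this

end Pool.Agent.H66.RG
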