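import Pool.Agent.H66.RG.HasH
import Pool.Agent.H66.RG.Order2

open Finset Classical

namespace Pool.Agent.H66.RG

/-- a graph coloured with `q + 1` colours, one class being of size `σ`, is contained in the
configuration -/
theorem contained_of_hasH {m q σ t : ℕ} (H : SimpleGraph (Fin m)) (c : Fin m → Fin (q + 1))
    (hc : ∀ u v, H.Adj u v → c u ≠ c v) (i0 : Fin (q + 1)) (hi0 : #{u | c u = i0} = σ)
    (ht : m ≤ t) {V : Type} (Γ : SimpleGraph V) (h : HasH Γ q σ t) (hm : 0 < m) :
    H.IsContained Γ := by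
  obtain ⟨X, S, hX, hS, hXS, hSS⟩ := h
  set T : Fin (q + 1) → Finset V := i0.insertNth (α := fun _ => Finset V) X S with hT
  have hT0 : T i0 = X := by rw [hT, Fin.insertNth_apply_same]
  have hT1 : ∀ i, T (i0.succAbove i) = S i := by
    intro i
    rw [hT, Fin.insertNth_apply_succAbove]
  have hTT : ∀ i j, i ≠ j → ∀ x ∈ T i, ∀ y ∈ T j, Γ.Adj x y := by
    intro i j hij x hx y hy
    by_cases hi : i = i0
    · subst hi
      obtain ⟨j', rfl⟩ := Fin.exists_succAbove_eq (Ne.symm hij)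
      rw [hT0] at hx
      rw [hT1] at hy
      exact hXS j' x hx y hy
    · obtain ⟨i', rfl⟩ := Fin.exists_succAbove_eq hi
      rw [hT1] at hx
      by_cases hj : j = i0
      · subst hj
        rw [hT0] at hy
        exact (hXS i' y hy x hx).symm
      · obtain ⟨j', rfl⟩ := Fin.exists_succAbove_eq hj
        rw [hT1] at hy
        exact hSS i' j' (fun h => hij (by rw [h])) x hx y hy
  have hcard : ∀ i, #{u | c u = i} ≤ #(T i) := by
    intro i
    by_cases hi : i = i0
    · subst hi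
      rw [hT0, hX, hi0]
    · obtain ⟨i', rfl⟩ := Fin.exists_succAbove_eq hi
      rw [hT1, hS]
      refine le_trans ?_ ht
      refine (Finset.card_le_univ _).trans ?_
      rw [Fintype.card_fin]
  have hNe : Nonempty V := by
    have h1 := hcard (c ⟨0, hm⟩)
    have h2 : 0 < #({u | c u = c ⟨0, hm⟩} : Finset (Fin m)) :=
      Finset.card_pos.2 ⟨⟨0, hm⟩, by simp⟩
    obtain ⟨x, _⟩ := Finset.card_pos.1 (lt_of_lt_of_le h2 h1)
    exact ⟨x⟩
  have hex : ∀ i, ∃ ξ : Fin m → V, (∀ v ∈ ({u | c u = i} : Finset (Fin m)), ξ v ∈ T i) ∧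
      ∀ u ∈ ({u | c u = i} : Finset (Fin m)), ∀ v ∈ ({u | c u = i} : Finset (Fin m)),
        ξ u = ξ v → u = v := fun i => exists_inj _ _ (hcard i)
  choose ξ hξ1 hξ2 using hex
  have hmem : ∀ u, ξ (c u) u ∈ T (c u) := fun u => hξ1 (c u) u (by simp)
  refine ⟨⟨⟨fun u => ξ (c u) u, ?_⟩, ?_⟩⟩
  · intro u v huv
    exact hTT (c u) (c v) (hc u v huv) _ (hmem u) _ (hmem v)
  · intro u v huv
    by_cases h : c u = c v
    · have huv' : ξ (c u) u = ξ (c u) v := by
        have : ξ (c u) u = ξ (c v) v := huv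
        rw [this, h]
      exact hξ2 (c u) u (by simp) v (by simp [h]) huv'
    · have h1 := hTT (c u) (c v) h _ (hmem u) _ (hmem v)
      have : ξ (c u) u = ξ (c v) v := huv
      rw [this] at h1
      exact absurd h1 (Γ.loopless.irrefl _)

/-- every colour class of a colouring with the least number of colours is nonempty -/
theorem class_pos {m q σ : ℕ} (H : SimpleGraph (Fin m)) (hχ : H.chromaticNumber = ((q + 1 : ℕ) : ℕ∞))
    (c : Fin m → Fin (q + 1)) (hc : ∀ u v, H.Adj u v → c u ≠ c v) (i0 : Fin (q + 1))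
    (hi0 : #{u | c u = i0} = σ) : 0 < σ := by
  by_contra hσ
  have h0 : ∀ u, c u ≠ i0 := by
    intro u hu
    have : 0 < #({u | c u = i0} : Finset (Fin m)) := Finset.card_pos.2 ⟨u, by simpa using hu⟩
    omega
  have hex : ∀ u, ∃ i', i0.succAbove i' = c u := fun u => Fin.exists_succAbove_eq (h0 u)
  choose c' hc' using hex
  have hcol : H.Colorable q := by
    refine ⟨SimpleGraph.Coloring.mk c' ?_⟩
    intro u v huv h
    apply hc u v huv
    rw [← hc' u, ← hc' v, h]
  have h1 := hcol.chromaticNumber_le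
  rw [hχ] at h1
  have h2 : q + 1 ≤ q := by exact_mod_cast h1
  omega

/-- the standard lower bound construction -/
theorem lower_graph {n m k s : ℕ} (hn : 2 ≤ n) (hsn : s ≤ n) (hs : 0 < s) (hk : 0 < k)
    (G : SimpleGraph (Fin n)) (hG : G.Connected) (H : SimpleGraph (Fin m))
    (hcol : ∀ c : Fin m → Fin k, (∀ u v, H.Adj u v → c u ≠ c v) → ∀ i, s ≤ #{u | c u = i}) :
    ∃ F : SimpleGraph (Fin ((k - 1) * (n - 1) + s - 1)),
      ¬ G.IsContained F ∧ ¬ H.IsContained Fᶜ := by
  set N : ℕ := (k - 1) * (n - 1) + s - 1 with hN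
  have hblk : ∀ x : Fin N, (x : ℕ) / (n - 1) < k := by
    intro x
    rw [Nat.div_lt_iff_lt_mul (by omega)]
    have h1 := x.2
    have h2 : k * (n - 1) = (k - 1) * (n - 1) + (n - 1) := by
      have : k = (k - 1) + 1 := by omega
      conv_lhs => rw [this]
      ring
    omega
  refine ⟨⟨fun x y => x ≠ y ∧ (x : ℕ) / (n - 1) = (y : ℕ) / (n - 1),
    ⟨fun x y h => ⟨h.1.symm, h.2.symm⟩⟩, ⟨fun x h => h.1 rfl⟩⟩, ?_, ?_⟩
  · rintro ⟨f, hf⟩
    have hadj : ∀ u v, G.Adj u v → ((f u : Fin N) : ℕ) / (n - 1) = ((f v : Fin N) : ℕ) / (n - 1) :=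
      fun u v huv => (f.map_rel huv).2
    have hreach : ∀ u v, ((f u : Fin N) : ℕ) / (n - 1) = ((f v : Fin N) : ℕ) / (n - 1) := by
      intro u v
      obtain ⟨w⟩ := hG.preconnected u v
      induction w with
      | nil => rfl
      | cons h _ ih => exact (hadj _ _ h).trans ih
    set v0 : Fin n := ⟨0, by omega⟩ with hv0
    set a : ℕ := ((f v0 : Fin N) : ℕ) / (n - 1) with ha
    have h1 : ∀ u ∈ (Finset.univ : Finset (Fin n)),
        ((f u : Fin N) : ℕ) ∈ Finset.Ico (a * (n - 1)) ((a + 1) * (n - 1)) := by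
      intro u _
      have h2 := hreach u v0
      rw [← ha] at h2
      rw [Finset.mem_Ico]
      have h3 := Nat.div_add_mod ((f u : Fin N) : ℕ) (n - 1)
      have h4 := Nat.mod_lt ((f u : Fin N) : ℕ) (show 0 < n - 1 by omega)
      rw [h2] at h3
      constructor
      · rw [mul_comm]
        omega
      · rw [add_mul, one_mul, mul_comm]
        omega
    have h2 := Finset.card_le_card_of_injOn (fun u : Fin n => ((f u : Fin N) : ℕ)) h1 (by
      intro u _ v _ huv
      exact hf (Fin.ext huv))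
    rw [Finset.card_univ, Fintype.card_fin, Nat.card_Ico, add_mul, one_mul] at h2
    omega
  · rintro ⟨g, hg⟩
    have h1 := hcol (fun u => ⟨((g u : Fin N) : ℕ) / (n - 1), hblk (g u)⟩) (by
      intro u v huv h
      have h2 : ((g u : Fin N) : ℕ) / (n - 1) = ((g v : Fin N) : ℕ) / (n - 1) := by
        have := congrArg Fin.val h
        exact this
      have h3 := g.map_rel huv
      rw [SimpleGraph.compl_adj] at h3
      exact h3.2 ⟨h3.1, h2⟩) ⟨k - 1, by omega⟩
    have h2 : ∀ u ∈ ({u | (⟨((g u : Fin N) : ℕ) / (n - 1), hblk (g u)⟩ : Fin k) =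
        ⟨k - 1, by omega⟩} : Finset (Fin m)),
        ((g u : Fin N) : ℕ) ∈ Finset.Ico ((k - 1) * (n - 1)) N := by
      intro u hu
      rw [Finset.mem_filter] at hu
      have h3 : ((g u : Fin N) : ℕ) / (n - 1) = k - 1 := congrArg Fin.val hu.2
      rw [Finset.mem_Ico]
      refine ⟨?_, (g u).2⟩
      have h4 := Nat.div_mul_le_self ((g u : Fin N) : ℕ) (n - 1)
      rw [h3] at h4
      exact h4
    have h3 := Finset.card_le_card_of_injOn (fun u : Fin m => ((g u : Fin N) : ℕ)) h2 (by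
      intro u _ v _ huv
      exact hg (Fin.ext huv))
    rw [Nat.card_Ico] at h3
    omega

end Pool.Agent.H66.RG
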