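import Pool.Agent.H66.RG.Match

open Finset Classical

namespace Pool.Agent.H66.RG

/-- the vertex `u` is not a neighbour of the images of the neighbours of `x` -/
def Cpt {V : Type} (Γ : SimpleGraph V) {n : ℕ} (G : SimpleGraph (Fin n)) (φ0 : Fin n → V)
    (x : Fin n) (u : V) : Prop :=
  ∀ y, G.Adj x y → ¬ Γ.Adj (φ0 y) u

/-- placing a last independent set of vertices by a matching -/
theorem finish {V : Type} [Nonempty V] (Γ : SimpleGraph V) {n : ℕ} (G : SimpleGraph (Fin n))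
    (I : Finset (Fin n)) (hI : ∀ u ∈ I, ∀ v ∈ I, ¬ G.Adj u v) (φ0 : Fin n → V)
    (hinj : ∀ u, u ∉ I → ∀ v, v ∉ I → φ0 u = φ0 v → u = v)
    (hadj : ∀ u, u ∉ I → ∀ v, v ∉ I → G.Adj u v → ¬ Γ.Adj (φ0 u) (φ0 v)) (U : Finset V)
    (hU : ∀ v, v ∉ I → φ0 v ∉ U) (h1 : #I ≤ #U)
    (h2 : ∀ x ∈ I, #I ≤ 2 * #{u ∈ U | Cpt Γ G φ0 x u})
    (h3 : ∀ u ∈ U, 2 * #{x ∈ I | ¬ Cpt Γ G φ0 x u} ≤ #I) :
    ∃ φ : Fin n → V, Function.Injective φ ∧ ∀ u v, G.Adj u v → ¬ Γ.Adj (φ u) (φ v) := by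
  obtain ⟨ψ, hψ1, hψ2⟩ := hall_match I U (Cpt Γ G φ0) h1 h2 h3
  refine ⟨fun v => if v ∈ I then ψ v else φ0 v, ?_, ?_⟩
  · intro u v huv
    by_cases hu : u ∈ I <;> by_cases hv : v ∈ I
    · simp only [hu, hv, if_true] at huv
      exact hψ1 hu hv huv
    · simp only [hu, hv, if_true, if_false] at huv
      exact absurd (huv ▸ (hψ2 u hu).1) (hU v hv)
    · simp only [hu, hv, if_true, if_false] at huv
      exact absurd (huv ▸ (hψ2 v hv).1) (hU u hu)
    · simp only [hu, hv, if_false] at huv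
      exact hinj u hu v hv huv
  · intro u v huv
    by_cases hu : u ∈ I <;> by_cases hv : v ∈ I
    · exact absurd huv (hI u hu v hv)
    · simp only [hu, hv, if_true, if_false]
      exact fun h => (hψ2 u hu).2 v huv h.symm
    · simp only [hu, hv, if_true, if_false]
      exact (hψ2 v hv).2 u huv.symm
    · simp only [hu, hv, if_false]
      exact hadj u hu v hv huv

/-- number of vertices which are blocked for a vertex of small degree -/
theorem blocked_le {V : Type} (Γ : SimpleGraph V) {n : ℕ} (G : SimpleGraph (Fin n)) (x : Fin n)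
    (φ0 : Fin n → V) (C : Finset V) (β : ℝ) (D : ℕ) (hβ0 : 0 ≤ β) (hx : dg G x Finset.univ ≤ D)
    (hβ : ∀ y, G.Adj x y → (dg Γ (φ0 y) C : ℝ) ≤ β) :
    (#{u ∈ C | ¬ Cpt Γ G φ0 x u} : ℝ) ≤ D * β := by
  have h1 : ({u ∈ C | ¬ Cpt Γ G φ0 x u} : Finset V) ⊆
      ({y | G.Adj x y} : Finset (Fin n)).biUnion fun y => {u ∈ C | Γ.Adj (φ0 y) u} := by
    intro u hu
    rw [Finset.mem_filter] at hu
    obtain ⟨huC, hu⟩ := hu
    unfold Cpt at hu
    push Not at hu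
    obtain ⟨y, hy1, hy2⟩ := hu
    rw [Finset.mem_biUnion]
    exact ⟨y, by simpa using hy1, by rw [Finset.mem_filter]; exact ⟨huC, hy2⟩⟩
  have h2 : (#{u ∈ C | ¬ Cpt Γ G φ0 x u} : ℝ) ≤
      ∑ y ∈ ({y | G.Adj x y} : Finset (Fin n)), (#{u ∈ C | Γ.Adj (φ0 y) u} : ℝ) := by
    exact_mod_cast (Finset.card_le_card h1).trans Finset.card_biUnion_le
  have h3 : ∑ y ∈ ({y | G.Adj x y} : Finset (Fin n)), (#{u ∈ C | Γ.Adj (φ0 y) u} : ℝ) ≤
      ∑ y ∈ ({y | G.Adj x y} : Finset (Fin n)), β := by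
    apply Finset.sum_le_sum
    intro y hy
    rw [Finset.mem_filter] at hy
    exact hβ y hy.2
  refine h2.trans (h3.trans ?_)
  rw [Finset.sum_const, nsmul_eq_mul]
  apply mul_le_mul_of_nonneg_right _ hβ0
  have : #({y | G.Adj x y} : Finset (Fin n)) ≤ D := hx
  exact_mod_cast this

theorem caseB_finish {V : Type} [Nonempty V] (Γ : SimpleGraph V) {n d : ℕ}
    (G : SimpleGraph (Fin n)) (I : Finset (Fin n)) (hI : ∀ u ∈ I, ∀ v ∈ I, ¬ G.Adj u v)
    (hIdeg : ∀ u ∈ I, dg G u Finset.univ ≤ 4 * d) (C D : Finset V) (hCD : Disjoint C D)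
    (β : ℝ) (hβ0 : 0 ≤ β) (φ : Fin n → V)
    (hφ : ∀ v, v ∉ I → φ v ∈ C ∧ (dg Γ (φ v) C : ℝ) ≤ β)
    (hinj : ∀ u, u ∉ I → ∀ v, v ∉ I → φ u = φ v → u = v)
    (hadj : ∀ u, u ∉ I → ∀ v, v ∉ I → G.Adj u v → ¬ Γ.Adj (φ u) (φ v))
    (X : Finset (Fin n)) (hX : X ⊆ I) (ψ : Fin n → V) (hψi : Set.InjOn ψ X)
    (hψ : ∀ x ∈ X, ψ x ∈ D ∧ ∀ y, G.Adj x y → ¬ Γ.Adj (ψ x) (φ y))
    (hs1 : (n : ℝ) + 2 * (4 * d * β) ≤ #C + #X) (hs2 : (#X : ℝ) + 2 * (4 * d * β) ≤ #I) :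
    ∃ φ : Fin n → V, Function.Injective φ ∧ ∀ u v, G.Adj u v → ¬ Γ.Adj (φ u) (φ v) := by
  set I' : Finset (Fin n) := I \ X with hI'
  have hI'I : I' ⊆ I := Finset.sdiff_subset
  have hI'c : (#I' : ℝ) = #I - #X := by
    rw [hI', Finset.card_sdiff_of_subset hX, Nat.cast_sub (Finset.card_le_card hX)]
  set φ0 : Fin n → V := fun v => if v ∈ X then ψ v else φ v with hφ0
  have hφX : ∀ v, v ∈ X → φ0 v = ψ v := fun v hv => by simp [hφ0, hv]
  have hφI : ∀ v, v ∉ I → φ0 v = φ v := fun v hv => by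
    have : v ∉ X := fun h => hv (hX h)
    simp [hφ0, this]
  have hcase : ∀ v, v ∉ I' → v ∈ X ∨ v ∉ I := by
    intro v hv
    by_cases h : v ∈ I
    · left
      by_contra hx
      exact hv (Finset.mem_sdiff.2 ⟨h, hx⟩)
    · exact Or.inr h
  have hnbr : ∀ x ∈ I, ∀ y, G.Adj x y → y ∉ I := fun x hx y hxy hy => hI x hx y hy hxy
  set U0 : Finset V := C \ (Iᶜ).image φ with hU0
  have hU0C : U0 ⊆ C := Finset.sdiff_subset
  set U : Finset V := {u ∈ U0 | 2 * #{x ∈ I' | ¬ Cpt Γ G φ0 x u} ≤ #I'} with hU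
  have hUU0 : U ⊆ U0 := Finset.filter_subset _ _
  have hU0c : (#C : ℝ) - (n - #I) ≤ #U0 := by
    have h1 : #C ≤ #U0 + #((Iᶜ).image φ) := by
      exact Finset.card_le_card_sdiff_add_card
    have h2 : #((Iᶜ).image φ) ≤ #(Iᶜ) := Finset.card_image_le
    have h3 : #(Iᶜ) = n - #I := by rw [Finset.card_compl, Fintype.card_fin]
    have h4 : #I ≤ n := by
      have := Finset.card_le_univ I
      rwa [Fintype.card_fin] at this
    have h5 : (#(Iᶜ) : ℝ) = n - #I := by rw [h3, Nat.cast_sub h4]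
    have h6 : (#C : ℝ) ≤ #U0 + #(Iᶜ) := by exact_mod_cast h1.trans (by omega)
    linarith
  have hblock : ∀ x ∈ I', (#{u ∈ C | ¬ Cpt Γ G φ0 x u} : ℝ) ≤ 4 * d * β := by
    intro x hx
    have := blocked_le Γ G x φ0 C β (4 * d) hβ0 (hIdeg x (hI'I hx)) (by
      intro y hy
      have hyI := hnbr x (hI'I hx) y hy
      rw [hφI y hyI]
      exact (hφ y hyI).2)
    push_cast at this
    exact this
  have hbad : (#(U0 \ U) : ℝ) * #I' ≤ 2 * (4 * d * β) * #I' := by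
    have h1 : (#(U0 \ U) : ℝ) * #I' ≤
        ∑ u ∈ U0 \ U, 2 * (#{x ∈ I' | ¬ Cpt Γ G φ0 x u} : ℝ) := by
      rw [← nsmul_eq_mul]
      apply Finset.card_nsmul_le_sum
      intro u hu
      rw [Finset.mem_sdiff, hU, Finset.mem_filter] at hu
      have h2 : ¬ (2 * #{x ∈ I' | ¬ Cpt Γ G φ0 x u} ≤ #I') :=
        fun h => hu.2 ⟨hu.1, h⟩
      push Not at h2
      have h3 : #I' ≤ 2 * #{x ∈ I' | ¬ Cpt Γ G φ0 x u} := h2.le
      exact_mod_cast h3
    have h2 : ∑ u ∈ U0 \ U, 2 * (#{x ∈ I' | ¬ Cpt Γ G φ0 x u} : ℝ) ≤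
        ∑ u ∈ C, 2 * (#{x ∈ I' | ¬ Cpt Γ G φ0 x u} : ℝ) := by
      apply Finset.sum_le_sum_of_subset_of_nonneg (Finset.sdiff_subset.trans hU0C)
      intro u _ _
      positivity
    have h3 : ∑ u ∈ C, (#{x ∈ I' | ¬ Cpt Γ G φ0 x u} : ℝ) =
        ∑ x ∈ I', (#{u ∈ C | ¬ Cpt Γ G φ0 x u} : ℝ) := by
      have h := Finset.sum_card_bipartiteAbove_eq_sum_card_bipartiteBelow
        (fun (u : V) (x : Fin n) => ¬ Cpt Γ G φ0 x u) (s := C) (t := I')
      unfold Finset.bipartiteAbove Finset.bipartiteBelow at h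
      exact_mod_cast h
    have h4 : ∑ x ∈ I', (#{u ∈ C | ¬ Cpt Γ G φ0 x u} : ℝ) ≤
        #I' * (4 * d * β) := by
      have := Finset.sum_le_card_nsmul I'
        (fun x => (#{u ∈ C | ¬ Cpt Γ G φ0 x u} : ℝ)) (4 * d * β) hblock
      rwa [nsmul_eq_mul] at this
    rw [← Finset.mul_sum C, h3] at h2
    linarith
  rcases I'.eq_empty_or_nonempty with hemp | hne
  · refine finish Γ G I' (fun u hu => by rw [hemp] at hu; simp at hu) φ0 ?_ ?_ ∅ (by simp)
      (by rw [hemp]; simp) (fun u hu => by rw [hemp] at hu; simp at hu) (by simp)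
    · intro u hu v hv huv
      rcases hcase u hu with hu' | hu' <;> rcases hcase v hv with hv' | hv'
      · rw [hφX u hu', hφX v hv'] at huv
        exact hψi hu' hv' huv
      · rw [hφX u hu', hφI v hv'] at huv
        exact absurd (huv ▸ (hψ u hu').1) (Finset.disjoint_left.1 hCD (hφ v hv').1)
      · rw [hφI u hu', hφX v hv'] at huv
        exact absurd (huv ▸ (hψ v hv').1) (Finset.disjoint_left.1 hCD (hφ u hu').1)
      · rw [hφI u hu', hφI v hv'] at huv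
        exact hinj u hu' v hv' huv
    · intro u hu v hv huv
      rcases hcase u hu with hu' | hu' <;> rcases hcase v hv with hv' | hv'
      · exact absurd huv (hI u (hX hu') v (hX hv'))
      · rw [hφX u hu', hφI v hv']
        exact (hψ u hu').2 v huv
      · rw [hφI u hu', hφX v hv']
        exact fun h => (hψ v hv').2 u huv.symm h.symm
      · rw [hφI u hu', hφI v hv']
        exact hadj u hu' v hv' huv
  have hI'pos : (0 : ℝ) < #I' := by exact_mod_cast hne.card_pos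
  have hbad2 : (#(U0 \ U) : ℝ) ≤ 2 * (4 * d * β) := le_of_mul_le_mul_right hbad hI'pos
  have hUc : (#U : ℝ) = #U0 - #(U0 \ U) := by
    rw [Finset.card_sdiff_of_subset hUU0, Nat.cast_sub (Finset.card_le_card hUU0)]
    ring
  have hUge : (#I' : ℝ) ≤ #U := by linarith
  refine finish Γ G I' (fun u hu v hv => hI u (hI'I hu) v (hI'I hv)) φ0 ?_ ?_ U ?_ ?_ ?_ ?_
  · intro u hu v hv huv
    rcases hcase u hu with hu' | hu' <;> rcases hcase v hv with hv' | hv'
    · rw [hφX u hu', hφX v hv'] at huv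
      exact hψi hu' hv' huv
    · rw [hφX u hu', hφI v hv'] at huv
      exact absurd (huv ▸ (hψ u hu').1) (Finset.disjoint_left.1 hCD (hφ v hv').1)
    · rw [hφI u hu', hφX v hv'] at huv
      exact absurd (huv ▸ (hψ v hv').1) (Finset.disjoint_left.1 hCD (hφ u hu').1)
    · rw [hφI u hu', hφI v hv'] at huv
      exact hinj u hu' v hv' huv
  · intro u hu v hv huv
    rcases hcase u hu with hu' | hu' <;> rcases hcase v hv with hv' | hv'
    · exact absurd huv (hI u (hX hu') v (hX hv'))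
    · rw [hφX u hu', hφI v hv']
      exact (hψ u hu').2 v huv
    · rw [hφI u hu', hφX v hv']
      exact fun h => (hψ v hv').2 u huv.symm h.symm
    · rw [hφI u hu', hφI v hv']
      exact hadj u hu' v hv' huv
  · intro v hv hvU
    have hvU0 := hUU0 hvU
    rw [hU0, Finset.mem_sdiff] at hvU0
    rcases hcase v hv with hv' | hv'
    · rw [hφX v hv'] at hvU0
      exact Finset.disjoint_left.1 hCD hvU0.1 (hψ v hv').1
    · apply hvU0.2
      rw [hφI v hv', Finset.mem_image]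
      exact ⟨v, by simpa using hv', rfl⟩
  · exact_mod_cast hUge
  · intro x hx
    have h1 := Finset.card_filter_add_card_filter_not (s := U)
      (fun u => Cpt Γ G φ0 x u)
    have h2 : (#{u ∈ U | ¬ Cpt Γ G φ0 x u} : ℝ) ≤ 4 * d * β := by
      refine le_trans ?_ (hblock x hx)
      exact_mod_cast Finset.card_le_card (Finset.filter_subset_filter _ (hUU0.trans hU0C))
    have h3 : (#{u ∈ U | Cpt Γ G φ0 x u} : ℝ) +
        #{u ∈ U | ¬ Cpt Γ G φ0 x u} = #U := by exact_mod_cast h1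
    have h4 : (#I' : ℝ) ≤ 2 * #{u ∈ U | Cpt Γ G φ0 x u} := by linarith
    exact_mod_cast h4
  · intro u hu
    rw [hU, Finset.mem_filter] at hu
    exact hu.2

end Pool.Agent.H66.RG
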