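import Pool.Agent.H66.RG.Greedy

open Finset Classical

namespace Pool.Agent.H66.RG

variable {n : ℕ}

/-- every nonempty set of vertices has a vertex with at most `d` neighbours in it -/
def Degen (G : SimpleGraph (Fin n)) (d : ℕ) : Prop :=
  ∀ S : Finset (Fin n), S.Nonempty → ∃ v ∈ S, dg G v S ≤ d

/-- `p` is an injective labelling by numbers below `n` for which adjacent vertices have labels at distance at most `b` -/
structure BW (G : SimpleGraph (Fin n)) (p : Fin n → ℕ) (b : ℕ) : Prop where
  inj : Function.Injective p
  lt : ∀ v, p v < n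
  bw : ∀ u v, G.Adj u v → p u ≤ p v + b

theorem exists_order (G : SimpleGraph (Fin n)) (hn : 0 < n) {d : ℕ} (hd : Degen G d)
    (S : Finset (Fin n)) : ∃ e : ℕ → Fin n, (∀ i < #S, ∀ j < #S, e i = e j → i = j) ∧
      (∀ v, v ∈ S ↔ ∃ i < #S, e i = v) ∧ ∀ j < #S, #{i ∈ range j | G.Adj (e i) (e j)} ≤ d := by
  induction hc : #S generalizing S with
  | zero =>
    rw [Finset.card_eq_zero] at hc
    subst hc
    exact ⟨fun _ => ⟨0, hn⟩, by simp, by simp, by simp⟩
  | succ m ih =>
    have hne : S.Nonempty := by rw [← Finset.card_pos]; omega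
    obtain ⟨v, hv, hvd⟩ := hd S hne
    have hc' : #(S.erase v) = m := by rw [Finset.card_erase_of_mem hv]; omega
    obtain ⟨e, h1, h2, h3⟩ := ih (S.erase v) hc'
    refine ⟨Function.update e m v, ?_, ?_, ?_⟩
    · intro i hi j hj hij
      by_cases him : i = m
      · by_cases hjm : j = m
        · omega
        · subst him
          rw [Function.update_self, Function.update_of_ne hjm] at hij
          have : e j ∈ S.erase v := (h2 _).mpr ⟨j, by omega, rfl⟩
          rw [← hij] at this
          simp at this
      · by_cases hjm : j = m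
        · subst hjm
          rw [Function.update_self, Function.update_of_ne him] at hij
          have : e i ∈ S.erase v := (h2 _).mpr ⟨i, by omega, rfl⟩
          rw [hij] at this
          simp at this
        · rw [Function.update_of_ne him, Function.update_of_ne hjm] at hij
          exact h1 i (by omega) j (by omega) hij
    · intro u
      constructor
      · intro hu
        by_cases huv : u = v
        · exact ⟨m, by omega, by rw [Function.update_self, huv]⟩
        · obtain ⟨i, hi, hie⟩ := (h2 u).mp (Finset.mem_erase.mpr ⟨huv, hu⟩)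
          exact ⟨i, by omega, by rw [Function.update_of_ne (by omega), hie]⟩
      · rintro ⟨i, hi, hie⟩
        by_cases him : i = m
        · subst him
          rw [Function.update_self] at hie
          rw [← hie]; exact hv
        · rw [Function.update_of_ne him] at hie
          have := (h2 u).mpr ⟨i, by omega, hie⟩
          exact Finset.mem_of_mem_erase this
    · intro j hj
      by_cases hjm : j = m
      · subst hjm
        have hmap : ∀ i ∈ ({i ∈ range j | G.Adj (Function.update e j v i)
            (Function.update e j v j)} : Finset ℕ), e i ∈ ({w ∈ S | G.Adj v w} : Finset (Fin n)) := by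
          intro i hi
          rw [Finset.mem_filter, Finset.mem_range] at hi
          obtain ⟨hi1, hi2⟩ := hi
          rw [Function.update_self, Function.update_of_ne (by omega)] at hi2
          rw [Finset.mem_filter]
          exact ⟨Finset.mem_of_mem_erase ((h2 _).mpr ⟨i, hi1, rfl⟩), hi2.symm⟩
        refine (Finset.card_le_card_of_injOn e hmap ?_).trans hvd
        intro i hi i' hi' hii
        have hi1 := Finset.mem_range.mp (Finset.mem_filter.mp hi).1
        have hi2 := Finset.mem_range.mp (Finset.mem_filter.mp hi').1
        exact h1 i hi1 i' hi2 hii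
      · refine le_trans (le_of_eq ?_) (h3 j (by omega))
        congr 1
        apply Finset.filter_congr
        intro i hi
        rw [Finset.mem_range] at hi
        rw [Function.update_of_ne hjm, Function.update_of_ne (by omega)]

theorem sum_dg_le (G : SimpleGraph (Fin n)) {d : ℕ} (hd : Degen G d) (S : Finset (Fin n)) :
    ∑ v ∈ S, dg G v S ≤ 2 * d * #S := by
  induction hc : #S generalizing S with
  | zero =>
    rw [Finset.card_eq_zero] at hc
    subst hc
    simp
  | succ m ih =>
    have hne : S.Nonempty := by rw [← Finset.card_pos]; omega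
    obtain ⟨v, hv, hvd⟩ := hd S hne
    have hc' : #(S.erase v) = m := by rw [Finset.card_erase_of_mem hv]; omega
    have h1 := ih (S.erase v) hc'
    have h2 : ∀ u ∈ S.erase v, dg G u S = dg G u (S.erase v) + (if G.Adj v u then 1 else 0) := by
      intro u hu
      have hS : S = insert v (S.erase v) := (Finset.insert_erase hv).symm
      unfold dg
      conv_lhs => rw [hS]
      rw [Finset.filter_insert]
      split_ifs with h h' h'
      · rw [Finset.card_insert_of_notMem (by simp)]
      · exact absurd h.symm h'
      · exact absurd h'.symm h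
      · rfl
    have h3 : dg G v S = dg G v (S.erase v) := by
      unfold dg
      congr 1
      ext w
      simp only [Finset.mem_filter, Finset.mem_erase]
      constructor
      · rintro ⟨hw, hadj⟩
        exact ⟨⟨fun h => by subst h; exact G.loopless.irrefl _ hadj, hw⟩, hadj⟩
      · rintro ⟨⟨_, hw⟩, hadj⟩
        exact ⟨hw, hadj⟩
    have h4 : ∑ u ∈ S.erase v, (if G.Adj v u then 1 else 0) = dg G v (S.erase v) := by
      unfold dg
      rw [Finset.card_filter]
    rw [← Finset.add_sum_erase S _ hv, Finset.sum_congr rfl h2, Finset.sum_add_distrib, h4]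
    have h5 : dg G v (S.erase v) ≤ d := h3 ▸ hvd
    rw [h3]
    nlinarith

theorem card_low (G : SimpleGraph (Fin n)) {d : ℕ} (hd : Degen G d) :
    n ≤ 2 * #{v : Fin n | dg G v Finset.univ ≤ 4 * d} := by
  have h1 := sum_dg_le G hd Finset.univ
  rw [Finset.card_univ, Fintype.card_fin] at h1
  have h2 : #{v : Fin n | ¬ dg G v Finset.univ ≤ 4 * d} * (4 * d + 1) ≤ 2 * d * n := by
    refine le_trans ?_ h1
    refine le_trans ?_ (Finset.sum_le_sum_of_subset (Finset.filter_subset
      (fun v => ¬ dg G v Finset.univ ≤ 4 * d) Finset.univ))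
    rw [← smul_eq_mul]
    apply Finset.card_nsmul_le_sum
    intro v hv
    rw [Finset.mem_filter] at hv
    omega
  have h3 := Finset.card_filter_add_card_filter_not (s := (Finset.univ : Finset (Fin n)))
    (fun v => dg G v Finset.univ ≤ 4 * d)
  rw [Finset.card_univ, Fintype.card_fin] at h3
  set a := #{v : Fin n | dg G v Finset.univ ≤ 4 * d}
  set c := #{v : Fin n | ¬ dg G v Finset.univ ≤ 4 * d}
  have h4 : 2 * c ≤ n := by
    by_contra hlt
    push Not at hlt
    nlinarith
  omega

theorem card_near {p : Fin n → ℕ} (hp : Function.Injective p) (u : Fin n) (r : ℕ) :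
    #{v : Fin n | p v ≤ p u + r ∧ p u ≤ p v + r} ≤ 2 * r + 1 := by
  have h1 : ∀ v ∈ ({v : Fin n | p v ≤ p u + r ∧ p u ≤ p v + r} : Finset (Fin n)),
      p v ∈ Finset.Icc (p u - r) (p u + r) := by
    intro v hv
    rw [Finset.mem_filter] at hv
    rw [Finset.mem_Icc]
    omega
  have h2 := Finset.card_le_card_of_injOn p h1 (fun _ _ _ _ h => hp h)
  rw [Nat.card_Icc] at h2
  omega

theorem dg_le_bw (G : SimpleGraph (Fin n)) {p : Fin n → ℕ} {b : ℕ} (h : BW G p b) (v : Fin n)
    (S : Finset (Fin n)) : dg G v S ≤ 2 * b + 1 := by
  refine le_trans (Finset.card_le_card ?_) (card_near h.inj v b)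
  intro w hw
  rw [Finset.mem_filter] at hw ⊢
  exact ⟨Finset.mem_univ _, h.bw _ _ hw.2.symm, h.bw _ _ hw.2⟩

/-- a set of `m` vertices of `S` whose labels are pairwise at distance more than `r` -/
theorem exists_spaced {p : Fin n → ℕ} (hp : Function.Injective p) (r : ℕ)
    (S : Finset (Fin n)) (m : ℕ) (hm : m * (2 * r + 1) ≤ #S) :
    ∃ W ⊆ S, #W = m ∧ ∀ u ∈ W, ∀ v ∈ W, u ≠ v → p u + r < p v ∨ p v + r < p u := by
  induction m with
  | zero => exact ⟨∅, by simp, by simp, by simp⟩
  | succ m ih =>
    obtain ⟨W, hW, hWc, hWs⟩ := ih (by nlinarith)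
    set F : Finset (Fin n) := W.biUnion fun u => {v : Fin n | p v ≤ p u + r ∧ p u ≤ p v + r} with hF
    have hFc : #F ≤ m * (2 * r + 1) := by
      rw [hF]
      refine Finset.card_biUnion_le.trans ?_
      refine (Finset.sum_le_sum (fun u _ => card_near hp u r)).trans ?_
      rw [Finset.sum_const, smul_eq_mul, hWc]
    have hex : ∃ v ∈ S, v ∉ F := by
      by_contra hcon
      push Not at hcon
      have := Finset.card_le_card (show S ⊆ F from hcon)
      nlinarith
    obtain ⟨v, hv, hvF⟩ := hex
    have hfar : ∀ u ∈ W, p u + r < p v ∨ p v + r < p u := by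
      intro u hu
      by_contra hcon
      push Not at hcon
      apply hvF
      rw [hF, Finset.mem_biUnion]
      exact ⟨u, hu, by rw [Finset.mem_filter]; exact ⟨Finset.mem_univ _, hcon.1, hcon.2⟩⟩
    have hvW : v ∉ W := by
      intro hin
      have := hfar v hin
      omega
    refine ⟨insert v W, ?_, ?_, ?_⟩
    · intro x hx
      rw [Finset.mem_insert] at hx
      rcases hx with rfl | hx
      · exact hv
      · exact hW hx
    · rw [Finset.card_insert_of_notMem hvW, hWc]
    · intro x hx y hy hxy
      rw [Finset.mem_insert] at hx hy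
      rcases hx with rfl | hx
      · rcases hy with rfl | hy
        · exact absurd rfl hxy
        · exact (hfar y hy).symm
      · rcases hy with rfl | hy
        · exact hfar x hx
        · exact hWs x hx y hy hxy

/-- independent subsets of a set of vertices of small degree -/
theorem exists_indep (G : SimpleGraph (Fin n)) (D : ℕ) (S : Finset (Fin n))
    (hS : ∀ v ∈ S, dg G v Finset.univ ≤ D) :
    ∃ I ⊆ S, #S ≤ (D + 1) * #I ∧ ∀ u ∈ I, ∀ v ∈ I, ¬ G.Adj u v := by
  induction hc : #S using Nat.strong_induction_on generalizing S with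
  | _ m ih =>
    by_cases hm : m = 0
    · exact ⟨∅, by simp, by omega, by simp⟩
    have hne : S.Nonempty := by rw [← Finset.card_pos]; omega
    obtain ⟨v, hv⟩ := hne
    set S' : Finset (Fin n) := {w ∈ S | w ≠ v ∧ ¬ G.Adj v w} with hS'
    have hS's : S' ⊆ S := Finset.filter_subset _ _
    have hvS' : v ∉ S' := by simp [hS']
    have hlt : #S' < m := by
      rw [← hc]
      apply Finset.card_lt_card
      rw [Finset.ssubset_iff_of_subset hS's]
      exact ⟨v, hv, hvS'⟩
    have hle : #S ≤ #S' + (D + 1) := by
      have h1 : S ⊆ S' ∪ insert v {w ∈ (Finset.univ : Finset (Fin n)) | G.Adj v w} := by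
        intro w hw
        rw [Finset.mem_union, Finset.mem_insert, hS', Finset.mem_filter, Finset.mem_filter]
        by_cases h1 : w = v
        · exact Or.inr (Or.inl h1)
        · by_cases h2 : G.Adj v w
          · exact Or.inr (Or.inr ⟨Finset.mem_univ _, h2⟩)
          · exact Or.inl ⟨hw, h1, h2⟩
      refine (Finset.card_le_card h1).trans ?_
      refine (Finset.card_union_le _ _).trans ?_
      have h2 := Finset.card_insert_le v {w ∈ (Finset.univ : Finset (Fin n)) | G.Adj v w}
      have h3 := hS v hv
      unfold dg at h3
      omega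
    obtain ⟨I, hI, hIc, hIi⟩ := ih #S' hlt S' (fun w hw => hS w (hS's hw)) rfl
    refine ⟨insert v I, ?_, ?_, ?_⟩
    · intro x hx
      rw [Finset.mem_insert] at hx
      rcases hx with rfl | hx
      · exact hv
      · exact hS's (hI hx)
    · rw [Finset.card_insert_of_notMem (fun h => hvS' (hI h))]
      rw [hc] at hle
      nlinarith
    · intro x hx y hy
      rw [Finset.mem_insert] at hx hy
      rcases hx with rfl | hx
      · rcases hy with rfl | hy
        · exact G.loopless.irrefl _
        · have := hI hy
          rw [hS', Finset.mem_filter] at this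
          exact this.2.2
      · rcases hy with rfl | hy
        · have := hI hx
          rw [hS', Finset.mem_filter] at this
          exact fun h => this.2.2 h.symm
        · exact hIi x hx y hy

end Pool.Agent.H66.RG
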