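import Pool.Agent.H66.RG.Basic

open Finset Classical

namespace Pool.Agent.H66.RG

/-- Greedy embedding with an averaging argument: the vertices `0, 1, …, m - 1` are placed one after the other,
and a sum of products of weights is controlled. -/
theorem greedy {V : Type} [Nonempty V] (Γ : SimpleGraph V) {A : Type} (s : Finset A) (σ : A → Prop)
    (adj : ℕ → ℕ → Prop) (T : ℕ → Finset V) (K B : ℕ → ℝ) (f : A → ℕ → V → ℝ) (μ : A → ℕ → ℝ)
    (m : ℕ)
    (hB : ∀ j < m, ∀ i < j, adj i j → ∀ x ∈ T i, (dg Γ x (T j) : ℝ) ≤ B j)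
    (hK : ∀ j < m, (#{i ∈ range j | ¬ Disjoint (T i) (T j)} : ℝ) +
      #{i ∈ range j | adj i j} * B j + K j ≤ #(T j))
    (hKpos : ∀ j < m, 0 < K j)
    (hf : ∀ a ∈ s, ∀ i < m, ∀ x ∈ T i, 0 ≤ f a i x)
    (hμ : ∀ a ∈ s, ∀ i < m, 0 ≤ μ a i)
    (hup : ∀ a ∈ s, σ a → ∀ i < m, ∀ C ⊆ T i, K i ≤ #C → ∑ x ∈ C, f a i x ≤ μ a i * #C)
    (hlo : ∀ a ∈ s, ¬ σ a → ∀ i < m, ∀ C ⊆ T i, K i ≤ #C → μ a i * #C ≤ ∑ x ∈ C, f a i x)
    (w : A → ℝ) (hw1 : ∀ a ∈ s, σ a → 0 ≤ w a) (hw2 : ∀ a ∈ s, ¬ σ a → w a ≤ 0) :
    ∃ φ : ℕ → V, (∀ i < m, φ i ∈ T i) ∧ (∀ i < m, ∀ j < m, i ≠ j → φ i ≠ φ j) ∧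
      (∀ i j, i < j → j < m → adj i j → ¬ Γ.Adj (φ i) (φ j)) ∧
      ∑ a ∈ s, w a * ∏ i ∈ range m, f a i (φ i) ≤ ∑ a ∈ s, w a * ∏ i ∈ range m, μ a i := by
  induction m generalizing w with
  | zero =>
    exact ⟨fun _ => Classical.arbitrary V, by simp, by simp, by simp, by simp⟩
  | succ m ih =>
    obtain ⟨φ, h1, h2, h3, h4⟩ := ih (fun j hj => hB j (by omega)) (fun j hj => hK j (by omega))
      (fun j hj => hKpos j (by omega)) (fun a ha i hi => hf a ha i (by omega))
      (fun a ha i hi => hμ a ha i (by omega)) (fun a ha hs i hi => hup a ha hs i (by omega))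
      (fun a ha hs i hi => hlo a ha hs i (by omega)) (fun a => w a * μ a m)
      (fun a ha hs => mul_nonneg (hw1 a ha hs) (hμ a ha m (by omega)))
      (fun a ha hs => mul_nonpos_of_nonpos_of_nonneg (hw2 a ha hs) (hμ a ha m (by omega)))
    set C : Finset V := {x ∈ T m | (∀ i < m, φ i ≠ x) ∧ ∀ i < m, adj i m → ¬ Γ.Adj (φ i) x} with hC
    have hCsub : C ⊆ T m := Finset.filter_subset _ _
    have hcov : T m \ C ⊆ ({i ∈ range m | ¬ Disjoint (T i) (T m)}.image φ) ∪
        ({i ∈ range m | adj i m}.biUnion fun i => {y ∈ T m | Γ.Adj (φ i) y}) := by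
      intro x hx
      rw [Finset.mem_sdiff, hC, Finset.mem_filter] at hx
      obtain ⟨hxT, hx2⟩ := hx
      have hx3 : ¬ ((∀ i < m, φ i ≠ x) ∧ ∀ i < m, adj i m → ¬ Γ.Adj (φ i) x) :=
        fun h => hx2 ⟨hxT, h⟩
      rw [Finset.mem_union]
      by_cases hc : ∀ i < m, φ i ≠ x
      · right
        have : ¬ ∀ i < m, adj i m → ¬ Γ.Adj (φ i) x := fun h => hx3 ⟨hc, h⟩
        push Not at this
        obtain ⟨i, hi, hadj, hG⟩ := this
        rw [Finset.mem_biUnion]
        exact ⟨i, by rw [Finset.mem_filter, Finset.mem_range]; exact ⟨hi, hadj⟩,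
          by rw [Finset.mem_filter]; exact ⟨hxT, hG⟩⟩
      · left
        push Not at hc
        obtain ⟨i, hi, hix⟩ := hc
        rw [Finset.mem_image]
        refine ⟨i, ?_, hix⟩
        rw [Finset.mem_filter, Finset.mem_range]
        refine ⟨hi, ?_⟩
        rw [Finset.not_disjoint_iff]
        exact ⟨x, hix ▸ h1 i hi, hxT⟩
    have hcardC : K m ≤ #C := by
      have e1 : (#(T m \ C) : ℝ) ≤ #{i ∈ range m | ¬ Disjoint (T i) (T m)} +
          #{i ∈ range m | adj i m} * B m := by
        have e2 : (#(T m \ C) : ℝ) ≤ #({i ∈ range m | ¬ Disjoint (T i) (T m)}.image φ) +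
            #({i ∈ range m | adj i m}.biUnion fun i => {y ∈ T m | Γ.Adj (φ i) y}) := by
          exact_mod_cast (Finset.card_le_card hcov).trans (Finset.card_union_le _ _)
        have e3 : (#({i ∈ range m | ¬ Disjoint (T i) (T m)}.image φ) : ℝ) ≤
            #{i ∈ range m | ¬ Disjoint (T i) (T m)} := by
          exact_mod_cast Finset.card_image_le
        have e4 : (#({i ∈ range m | adj i m}.biUnion fun i => {y ∈ T m | Γ.Adj (φ i) y}) : ℝ) ≤
            #{i ∈ range m | adj i m} * B m := by
          have e5 : (#({i ∈ range m | adj i m}.biUnion fun i => {y ∈ T m | Γ.Adj (φ i) y}) : ℝ) ≤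
              ∑ i ∈ {i ∈ range m | adj i m}, (#{y ∈ T m | Γ.Adj (φ i) y} : ℝ) := by
            exact_mod_cast Finset.card_biUnion_le
          refine e5.trans ?_
          have e6 : ∀ i ∈ ({i ∈ range m | adj i m} : Finset ℕ),
              (#{y ∈ T m | Γ.Adj (φ i) y} : ℝ) ≤ B m := by
            intro i hi
            rw [Finset.mem_filter, Finset.mem_range] at hi
            exact hB m (by omega) i hi.1 hi.2 (φ i) (h1 i hi.1)
          refine (Finset.sum_le_sum e6).trans ?_
          rw [Finset.sum_const, nsmul_eq_mul]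
        linarith
      have e7 : (#(T m \ C) : ℝ) = #(T m) - #C := by
        rw [Finset.card_sdiff_of_subset hCsub, Nat.cast_sub (Finset.card_le_card hCsub)]
      have e8 := hK m (by omega)
      linarith
    have hCpos : (0 : ℝ) < #C := lt_of_lt_of_le (hKpos m (by omega)) hcardC
    have hCne : C.Nonempty := by
      rw [← Finset.card_pos]
      exact_mod_cast hCpos
    have havg : ∑ x ∈ C, (∑ a ∈ s, w a * ((∏ i ∈ range m, f a i (φ i)) * f a m x)) ≤
        ∑ x ∈ C, (∑ a ∈ s, w a * ∏ i ∈ range (m + 1), μ a i) := by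
      rw [Finset.sum_const, nsmul_eq_mul, Finset.sum_comm]
      have e1 : ∀ a ∈ s, ∑ x ∈ C, w a * ((∏ i ∈ range m, f a i (φ i)) * f a m x) ≤
          #C * (w a * μ a m * ∏ i ∈ range m, f a i (φ i)) := by
        intro a ha
        have e2 : ∑ x ∈ C, w a * ((∏ i ∈ range m, f a i (φ i)) * f a m x) =
            w a * (∏ i ∈ range m, f a i (φ i)) * ∑ x ∈ C, f a m x := by
          rw [Finset.mul_sum]
          apply Finset.sum_congr rfl
          intro x _
          ring
        rw [e2]
        have e3 : 0 ≤ ∏ i ∈ range m, f a i (φ i) := by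
          apply Finset.prod_nonneg
          intro i hi
          rw [Finset.mem_range] at hi
          exact hf a ha i (by omega) _ (h1 i hi)
        by_cases hs : σ a
        · have e4 := hup a ha hs m (by omega) C hCsub hcardC
          have e5 : 0 ≤ w a * ∏ i ∈ range m, f a i (φ i) := mul_nonneg (hw1 a ha hs) e3
          have e6 := mul_le_mul_of_nonneg_left e4 e5
          linarith
        · have e4 := hlo a ha hs m (by omega) C hCsub hcardC
          have e5 : w a * ∏ i ∈ range m, f a i (φ i) ≤ 0 :=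
            mul_nonpos_of_nonpos_of_nonneg (hw2 a ha hs) e3
          have e6 := mul_le_mul_of_nonpos_left e4 e5
          linarith
      refine (Finset.sum_le_sum e1).trans ?_
      rw [← Finset.mul_sum]
      apply mul_le_mul_of_nonneg_left _ hCpos.le
      refine h4.trans (le_of_eq ?_)
      apply Finset.sum_congr rfl
      intro a _
      rw [Finset.prod_range_succ]
      ring
    obtain ⟨x, hx, hxle⟩ := Finset.exists_le_of_sum_le hCne havg
    have hx' := hx
    rw [hC, Finset.mem_filter] at hx'
    obtain ⟨hxT, hxne, hxadj⟩ := hx'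
    refine ⟨Function.update φ m x, ?_, ?_, ?_, ?_⟩
    · intro i hi
      by_cases him : i = m
      · subst him; simpa using hxT
      · rw [Function.update_of_ne him]
        exact h1 i (by omega)
    · intro i hi j hj hij
      by_cases him : i = m
      · subst him
        rw [Function.update_self, Function.update_of_ne (Ne.symm hij)]
        exact (hxne j (by omega)).symm
      · by_cases hjm : j = m
        · subst hjm
          rw [Function.update_self, Function.update_of_ne him]
          exact hxne i (by omega)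
        · rw [Function.update_of_ne him, Function.update_of_ne hjm]
          exact h2 i (by omega) j (by omega) hij
    · intro i j hij hj hadj
      by_cases hjm : j = m
      · subst hjm
        rw [Function.update_self, Function.update_of_ne (by omega)]
        exact hxadj i hij hadj
      · rw [Function.update_of_ne hjm, Function.update_of_ne (by omega)]
        exact h3 i j hij (by omega) hadj
    · refine le_trans (le_of_eq ?_) hxle
      apply Finset.sum_congr rfl
      intro a _
      rw [Finset.prod_range_succ, Function.update_self]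
      congr 2
      apply Finset.prod_congr rfl
      intro i hi
      rw [Finset.mem_range] at hi
      rw [Function.update_of_ne (by omega)]

end Pool.Agent.H66.RG
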