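import Pool.Agent.H66.RG.Match

open Finset Classical

namespace Pool.Agent.H66.RG

/-- a set `X` of size `σ` and `q` sets of size `t`, all completely joined to each other -/
def HasH {V : Type} (Γ : SimpleGraph V) (q σ t : ℕ) : Prop :=
  ∃ (X : Finset V) (S : Fin q → Finset V), #X = σ ∧ (∀ i, #(S i) = t) ∧
    (∀ i, ∀ x ∈ X, ∀ y ∈ S i, Γ.Adj x y) ∧ ∀ i j, i ≠ j → ∀ x ∈ S i, ∀ y ∈ S j, Γ.Adj x y

theorem HasH.of_multi {V : Type} {Γ : SimpleGraph V} {q σ t : ℕ} (hσ : σ ≤ t)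
    {P : Fin (q + 1) → Finset V} (h : HasMulti Γ (q + 1) t P) : HasH Γ q σ t := by
  obtain ⟨S, h1, h2⟩ := h
  obtain ⟨X, hX, hXc⟩ := Finset.exists_subset_card_eq (s := S 0) (n := σ) (by rw [(h1 0).2]; exact hσ)
  refine ⟨X, fun i => S i.succ, hXc, fun i => (h1 _).2, ?_, ?_⟩
  · intro i x hx y hy
    exact h2 0 i.succ (Fin.succ_ne_zero i).symm x (hX hx) y hy
  · intro i j hij x hx y hy
    exact h2 i.succ j.succ (fun h => hij (Fin.succ_injective _ h)) x hx y hy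

theorem HasH.of_cn {V : Type} {Γ : SimpleGraph V} {q σ t : ℕ} (X : Finset V) (hX : #X = σ)
    {P : Fin q → Finset V} (h : HasMulti Γ q t (fun i => cn Γ X (P i))) : HasH Γ q σ t := by
  obtain ⟨S, h1, h2⟩ := h
  refine ⟨X, S, hX, fun i => (h1 i).2, ?_, h2⟩
  intro i x hx y hy
  have := (h1 i).1 hy
  rw [mem_cn] at this
  exact this.2 x hx

theorem card_cn_ge {V : Type} (Γ : SimpleGraph V) (X C : Finset V) :
    (#C : ℝ) - ∑ x ∈ X, (rdg Γ x C : ℝ) ≤ #(cn Γ X C) := by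
  have h1 : C \ cn Γ X C ⊆ X.biUnion fun x => {y ∈ C | ¬ Γ.Adj x y} := by
    intro y hy
    rw [Finset.mem_sdiff, mem_cn] at hy
    have : ¬ ∀ x ∈ X, Γ.Adj x y := fun h => hy.2 ⟨hy.1, h⟩
    push Not at this
    obtain ⟨x, hx, hxy⟩ := this
    rw [Finset.mem_biUnion]
    exact ⟨x, hx, by rw [Finset.mem_filter]; exact ⟨hy.1, hxy⟩⟩
  have h2 : (#(C \ cn Γ X C) : ℝ) ≤ ∑ x ∈ X, (rdg Γ x C : ℝ) := by
    exact_mod_cast (Finset.card_le_card h1).trans Finset.card_biUnion_le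
  have h3 : (#(C \ cn Γ X C) : ℝ) = #C - #(cn Γ X C) := by
    rw [Finset.card_sdiff_of_subset (cn_subset _ _ _),
      Nat.cast_sub (Finset.card_le_card (cn_subset _ _ _))]
  linarith

theorem rdg_eq {V : Type} (Γ : SimpleGraph V) (x : V) (S : Finset V) :
    (rdg Γ x S : ℝ) = #S - dg Γ x S := by
  have : (rdg Γ x S : ℝ) + dg Γ x S = #S := by exact_mod_cast rdg_add_dg Γ x S
  linarith

/-- few vertices have almost full degree to all parts -/
theorem card_X_lt {V : Type} [Fintype V] (Γ : SimpleGraph V) {q σ t n : ℕ} (hσ : 0 < σ)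
    (hH : ¬ HasH Γ q σ t) (C : Fin q → Finset V) (c9 : ℝ)
    (hst : ∀ P : Fin q → Finset V, (∀ j, P j ⊆ C j ∧ c9 * n ≤ #(P j)) → HasMulti Γ q t P)
    (hc9 : ∀ j, c9 * n ≤ (#(C j) : ℝ) / 2) :
    #{v : V | ∀ j, (1 - 1 / (2 * σ)) * (#(C j) : ℝ) ≤ dg Γ v (C j)} < σ := by
  by_contra hlt
  push Not at hlt
  obtain ⟨X, hX, hXc⟩ := Finset.exists_subset_card_eq hlt
  apply hH
  apply HasH.of_cn X hXc (P := C)
  apply hst
  intro j
  refine ⟨cn_subset _ _ _, (hc9 j).trans ?_⟩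
  have h1 := card_cn_ge Γ X (C j)
  have h2 : ∑ x ∈ X, (rdg Γ x (C j) : ℝ) ≤ #X * ((#(C j) : ℝ) / (2 * σ)) := by
    have := Finset.sum_le_card_nsmul X (fun x => (rdg Γ x (C j) : ℝ)) ((#(C j) : ℝ) / (2 * σ)) (by
      intro x hx
      have h3 := hX hx
      rw [Finset.mem_filter] at h3
      have h4 := h3.2 j
      rw [rdg_eq]
      have h5 : (1 - 1 / (2 * (σ : ℝ))) * (#(C j) : ℝ) = #(C j) - (#(C j) : ℝ) / (2 * σ) := by
        ring
      linarith)
    rwa [nsmul_eq_mul] at this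
  have hσ' : (0 : ℝ) < σ := by exact_mod_cast hσ
  have h3 : (#X : ℝ) * ((#(C j) : ℝ) / (2 * σ)) = (#(C j) : ℝ) / 2 := by
    rw [hXc]
    field_simp
  linarith

/-- few vertices have positive density to all parts -/
theorem card_Y_lt {V : Type} [Fintype V] (Γ : SimpleGraph V) {q σ t n m0 : ℕ}
    (hH : ¬ HasH Γ q σ t) (C : Fin q → Finset V) (c9 c' δ : ℝ)
    (hst : ∀ P : Fin q → Finset V, (∀ j, P j ⊆ C j ∧ c9 * n ≤ #(P j)) → HasMulti Γ q t P)
    (Hp : ∀ (S : Fin q → Finset V) (Q : Finset V), m0 ≤ #Q →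
      (∀ x ∈ Q, ∀ i, δ * #(S i) ≤ dg Γ x (S i)) →
      ∃ Q' ⊆ Q, #Q' = σ ∧ ∀ i, c' * #(S i) ≤ #(cn Γ Q' (S i)))
    (hc9 : ∀ j, c9 * n ≤ c' * #(C j)) :
    #{v : V | ∀ j, δ * (#(C j) : ℝ) ≤ dg Γ v (C j)} < m0 := by
  by_contra hlt
  push Not at hlt
  obtain ⟨Q', _, hQc, hQn⟩ := Hp C _ hlt (by
    intro x hx i
    rw [Finset.mem_filter] at hx
    exact hx.2 i)
  apply hH
  apply HasH.of_cn Q' hQc (P := C)
  apply hst
  intro j
  exact ⟨cn_subset _ _ _, (hc9 j).trans (hQn j)⟩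

/-- a `t`-set in the core has few common neighbours which are dense to the other parts -/
theorem card_T_lt {V : Type} (Γ : SimpleGraph V) {q σ t n m0 : ℕ}
    (hH : ¬ HasH Γ q σ t) (C : Fin q → Finset V) (j : Fin q) (c9 c' δ ρ : ℝ)
    (hst : ∀ P : Fin q → Finset V, (∀ j, P j ⊆ C j ∧ c9 * n ≤ #(P j)) → HasMulti Γ q t P)
    (Hp : ∀ (S : Fin q → Finset V) (Q : Finset V), m0 ≤ #Q →
      (∀ x ∈ Q, ∀ i, δ * #(S i) ≤ dg Γ x (S i)) →
      ∃ Q' ⊆ Q, #Q' = σ ∧ ∀ i, c' * #(S i) ≤ #(cn Γ Q' (S i)))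
    (hc9 : ∀ i, c9 * n ≤ c' / 2 * #(C i)) (hc9' : ∀ i, c9 * n ≤ #(C i)) (hρ : t * ρ ≤ c' / 2)
    (T : Finset V) (hTc : #T = t)
    (hT : ∀ x ∈ T, ∀ i, i ≠ j → (rdg Γ x (C i) : ℝ) ≤ ρ * #(C i)) (A : Finset V)
    (hA : ∀ u ∈ A, (∀ i, i ≠ j → δ * #(C i) ≤ dg Γ u (C i)) ∧ ∀ x ∈ T, Γ.Adj u x) :
    #A < m0 := by
  by_contra hlt
  push Not at hlt
  obtain ⟨Q', hQ', hQc, hQn⟩ := Hp (fun i => if i = j then ∅ else C i) A hlt (by
    intro x hx i
    by_cases hij : i = j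
    · simp [hij]
    · simp only [hij, if_false]
      exact (hA x hx).1 i hij)
  have hsz : ∀ i, i ≠ j → c9 * n ≤ #(cn Γ T (cn Γ Q' (C i))) := by
    intro i hij
    have h1 := hQn i
    simp only [hij, if_false] at h1
    have h2 := card_cn_ge Γ T (cn Γ Q' (C i))
    have h3 : ∑ x ∈ T, (rdg Γ x (cn Γ Q' (C i)) : ℝ) ≤ #T * (ρ * #(C i)) := by
      have := Finset.sum_le_card_nsmul T (fun x => (rdg Γ x (cn Γ Q' (C i)) : ℝ)) (ρ * #(C i)) (by
        intro x hx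
        refine le_trans ?_ (hT x hx i hij)
        exact_mod_cast rdg_mono Γ x (cn_subset _ _ _))
      rwa [nsmul_eq_mul] at this
    have h4 : (t * ρ) * #(C i) ≤ c' / 2 * #(C i) := mul_le_mul_of_nonneg_right hρ (by positivity)
    have h5 := hc9 i
    rw [hTc] at h3
    linarith
  obtain ⟨S, hS1, hS2⟩ := hst (fun i => if i = j then C j else cn Γ T (cn Γ Q' (C i))) (by
    intro i
    by_cases hij : i = j
    · subst hij
      simp only [if_true]
      exact ⟨Finset.Subset.refl _, hc9' i⟩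
    · simp only [hij, if_false]
      exact ⟨(cn_subset _ _ _).trans (cn_subset _ _ _), hsz i hij⟩)
  have hmem : ∀ i, i ≠ j → ∀ y ∈ S i, (∀ x ∈ T, Γ.Adj x y) ∧ ∀ x ∈ Q', Γ.Adj x y := by
    intro i hij y hy
    have h1 := (hS1 i).1
    simp only [hij, if_false] at h1
    have h2 := h1 hy
    rw [mem_cn, mem_cn] at h2
    exact ⟨h2.2, h2.1.2⟩
  apply hH
  refine ⟨Q', fun i => if i = j then T else S i, hQc, ?_, ?_, ?_⟩
  · intro i
    by_cases hij : i = j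
    · simp only [hij, if_true]
      exact hTc
    · simp only [hij, if_false]
      exact (hS1 i).2
  · intro i x hx y hy
    by_cases hij : i = j
    · simp only [hij, if_true] at hy
      exact (hA x (hQ' hx)).2 y hy
    · simp only [hij, if_false] at hy
      exact (hmem i hij y hy).2 x hx
  · intro i i' hii x hx y hy
    by_cases hij : i = j
    · have hi'j : i' ≠ j := fun h => hii (hij.trans h.symm)
      simp only [hij, if_true] at hx
      simp only [hi'j, if_false] at hy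
      exact (hmem i' hi'j y hy).1 x hx
    · simp only [hij, if_false] at hx
      by_cases hi'j : i' = j
      · simp only [hi'j, if_true] at hy
        exact ((hmem i hij x hx).1 y hy).symm
      · simp only [hi'j, if_false] at hy
        exact hS2 i i' hii x hx y hy

/-- the vertices of `U` which are adjacent to all vertices of `T` -/
noncomputable def cnb {V : Type} (Γ : SimpleGraph V) (U T : Finset V) : Finset V :=
  {u ∈ U | ∀ x ∈ T, Γ.Adj u x}

theorem mem_cnb {V : Type} {Γ : SimpleGraph V} {U T : Finset V} {u : V} :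
    u ∈ cnb Γ U T ↔ u ∈ U ∧ ∀ x ∈ T, Γ.Adj u x := by
  simp [cnb]

/-- double counting of stars -/
theorem kst {V : Type} (Γ : SimpleGraph V) (U H : Finset V) (t a : ℕ)
    (h : ∀ T ⊆ H, #T = t → #(cnb Γ U T) ≤ a) :
    ∑ u ∈ U, (dg Γ u H).choose t ≤ a * (#H).choose t := by
  have h1 : ∀ u ∈ U, (dg Γ u H).choose t =
      #{T ∈ H.powersetCard t | ∀ x ∈ T, Γ.Adj u x} := by
    intro u _
    unfold dg
    rw [← Finset.card_powersetCard]
    congr 1
    ext T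
    rw [Finset.mem_powersetCard, Finset.mem_filter, Finset.mem_powersetCard]
    constructor
    · rintro ⟨h1, h2⟩
      exact ⟨⟨h1.trans (Finset.filter_subset _ _), h2⟩, fun x hx => (Finset.mem_filter.1 (h1 hx)).2⟩
    · rintro ⟨⟨h1, h2⟩, h3⟩
      exact ⟨fun x hx => Finset.mem_filter.2 ⟨h1 hx, h3 x hx⟩, h2⟩
  rw [Finset.sum_congr rfl h1]
  have h2 := Finset.sum_card_bipartiteAbove_eq_sum_card_bipartiteBelow
    (fun (u : V) (T : Finset V) => ∀ x ∈ T, Γ.Adj u x) (s := U) (t := H.powersetCard t)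
  unfold Finset.bipartiteAbove Finset.bipartiteBelow at h2
  rw [h2]
  have h3 := Finset.sum_le_card_nsmul (H.powersetCard t)
    (fun T => #{u ∈ U | ∀ x ∈ T, Γ.Adj u x}) a (by
      intro T hT
      rw [Finset.mem_powersetCard] at hT
      exact h T hT.1 hT.2)
  rw [Finset.card_powersetCard, smul_eq_mul, mul_comm] at h3
  exact h3

theorem kst_pow {V : Type} (Γ : SimpleGraph V) (U H : Finset V) (t a : ℕ)
    (h : ∀ T ⊆ H, #T = t → #(cnb Γ U T) ≤ a) :
    ∑ u ∈ U with 2 * t ≤ dg Γ u H, (dg Γ u H) ^ t ≤ a * (2 * #H) ^ t := by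
  have h1 := kst Γ U H t a h
  have h2 : ∑ u ∈ U with 2 * t ≤ dg Γ u H, (dg Γ u H) ^ t ≤
      ∑ u ∈ U with 2 * t ≤ dg Γ u H, 2 ^ t * (t.factorial * (dg Γ u H).choose t) := by
    apply Finset.sum_le_sum
    intro u hu
    rw [Finset.mem_filter] at hu
    have h3 := Nat.pow_sub_le_descFactorial (dg Γ u H) t
    rw [Nat.descFactorial_eq_factorial_mul_choose] at h3
    have h4 : (dg Γ u H) ^ t ≤ (2 * (dg Γ u H + 1 - t)) ^ t := Nat.pow_le_pow_left (by omega) t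
    rw [mul_pow] at h4
    exact h4.trans (Nat.mul_le_mul_left _ h3)
  have h3 : ∑ u ∈ U with 2 * t ≤ dg Γ u H, 2 ^ t * (t.factorial * (dg Γ u H).choose t) ≤
      ∑ u ∈ U, 2 ^ t * (t.factorial * (dg Γ u H).choose t) :=
    Finset.sum_le_sum_of_subset (Finset.filter_subset _ _)
  have h4 : ∑ u ∈ U, 2 ^ t * (t.factorial * (dg Γ u H).choose t) =
      2 ^ t * (t.factorial * ∑ u ∈ U, (dg Γ u H).choose t) := by
    rw [Finset.mul_sum, Finset.mul_sum]
  have h5 : 2 ^ t * (t.factorial * ∑ u ∈ U, (dg Γ u H).choose t) ≤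
      2 ^ t * (t.factorial * (a * (#H).choose t)) :=
    Nat.mul_le_mul_left _ (Nat.mul_le_mul_left _ h1)
  have h6 : 2 ^ t * (t.factorial * (a * (#H).choose t)) = a * (2 ^ t * (#H).descFactorial t) := by
    rw [Nat.descFactorial_eq_factorial_mul_choose]
    ring
  have h7 : a * (2 ^ t * (#H).descFactorial t) ≤ a * (2 ^ t * (#H) ^ t) :=
    Nat.mul_le_mul_left _ (Nat.mul_le_mul_left _ (Nat.descFactorial_le_pow _ _))
  rw [mul_pow]
  omega

end Pool.Agent.H66.RG
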