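import Pool.Agent.H66.RG.GFacts

open Finset Classical

namespace Pool.Agent.H66.RG

/-- number of non-neighbours of `x` in `S` -/
noncomputable def rdg {V : Type} (Γ : SimpleGraph V) (x : V) (S : Finset V) : ℕ :=
  #{y ∈ S | ¬ Γ.Adj x y}

theorem rdg_add_dg {V : Type} (Γ : SimpleGraph V) (x : V) (S : Finset V) :
    rdg Γ x S + dg Γ x S = #S := by
  unfold rdg dg
  rw [add_comm]
  exact Finset.card_filter_add_card_filter_not (s := S) (fun y => Γ.Adj x y)

theorem rdg_le_card {V : Type} (Γ : SimpleGraph V) (x : V) (S : Finset V) : rdg Γ x S ≤ #S :=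
  Finset.card_filter_le _ _

theorem rdg_mono {V : Type} (Γ : SimpleGraph V) (x : V) {S T : Finset V} (h : S ⊆ T) :
    rdg Γ x S ≤ rdg Γ x T :=
  Finset.card_le_card (Finset.filter_subset_filter _ h)

theorem sum_rdg {V : Type} (Γ : SimpleGraph V) (A B : Finset V) :
    ∑ x ∈ A, rdg Γ x B = ∑ y ∈ B, rdg Γ y A := by
  have h := Finset.sum_card_bipartiteAbove_eq_sum_card_bipartiteBelow (fun x y => ¬ Γ.Adj x y)
    (s := A) (t := B)
  unfold Finset.bipartiteAbove Finset.bipartiteBelow at h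
  unfold rdg
  rw [h]
  apply Finset.sum_congr rfl
  intro y _
  congr 1
  apply Finset.filter_congr
  intro x _
  exact not_congr (Γ.adj_comm x y)

/-- many vertices have large value if the sum is large -/
theorem many_large {V : Type} (A : Finset V) (g : V → ℝ) (a B : ℝ)
    (hg : ∀ x ∈ A, g x ≤ B) (ha : 0 ≤ a * B) (hs : 2 * a * #A * B ≤ ∑ x ∈ A, g x) :
    a * #A * B ≤ #{x ∈ A | a * B ≤ g x} * B := by
  have e1 : ∑ x ∈ A, g x ≤ ∑ x ∈ A, ((if a * B ≤ g x then B else 0) + a * B) := by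
    apply Finset.sum_le_sum
    intro x hx
    split_ifs with h
    · linarith [hg x hx]
    · push Not at h
      linarith
  rw [Finset.sum_add_distrib, ← Finset.sum_filter, Finset.sum_const, Finset.sum_const,
    nsmul_eq_mul, nsmul_eq_mul] at e1
  linarith

/-- a matching in a dense bipartite graph -/
theorem match_many {X Y : Type} [Nonempty Y] (A : Finset X) (B : Finset Y) (hAB : 0 < #A + #B) (k : ℕ) :
    ∀ (P : Finset (X × Y)), P ⊆ A ×ˢ B → k * (#A + #B) ≤ #P →
    ∃ (A' : Finset X) (ψ : X → Y), A' ⊆ A ∧ #A' = k ∧ Set.InjOn ψ A' ∧ ∀ x ∈ A', (x, ψ x) ∈ P := by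
  induction k with
  | zero =>
    intro P _ _
    exact ⟨∅, fun _ => Classical.arbitrary Y, by simp, by simp, by simp, by simp⟩
  | succ k ih =>
    intro P hP hk
    have hpos : 0 < #P := lt_of_lt_of_le (Nat.mul_pos (Nat.succ_pos k) hAB) hk
    obtain ⟨⟨x0, y0⟩, hxy⟩ := Finset.card_pos.1 hpos
    set P' : Finset (X × Y) := {z ∈ P | z.1 ≠ x0 ∧ z.2 ≠ y0} with hP'
    have hsub : P \ P' ⊆ ({x0} ×ˢ B) ∪ (A ×ˢ {y0}) := by
      intro z hz
      rw [Finset.mem_sdiff, hP', Finset.mem_filter] at hz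
      obtain ⟨hz1, hz2⟩ := hz
      have hz3 := hP hz1
      rw [Finset.mem_product] at hz3
      rw [Finset.mem_union, Finset.mem_product, Finset.mem_product, Finset.mem_singleton,
        Finset.mem_singleton]
      by_cases h1 : z.1 = x0
      · exact Or.inl ⟨h1, hz3.2⟩
      · by_cases h2 : z.2 = y0
        · exact Or.inr ⟨hz3.1, h2⟩
        · exact absurd ⟨hz1, h1, h2⟩ hz2
    have hc : #(P \ P') ≤ #A + #B := by
      refine (Finset.card_le_card hsub).trans ((Finset.card_union_le _ _).trans ?_)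
      rw [Finset.card_product, Finset.card_product, Finset.card_singleton, Finset.card_singleton]
      omega
    have hc2 : k * (#A + #B) ≤ #P' := by
      have h1 : #(P \ P') = #P - #P' := Finset.card_sdiff_of_subset (Finset.filter_subset _ _)
      have h2 : #P' ≤ #P := Finset.card_le_card (Finset.filter_subset _ _)
      rw [Nat.succ_mul] at hk
      omega
    obtain ⟨A', ψ, h1, h2, h3, h4⟩ := ih P' ((Finset.filter_subset _ _).trans hP) hc2
    have hx0 : x0 ∉ A' := by
      intro h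
      have := h4 x0 h
      rw [hP', Finset.mem_filter] at this
      exact this.2.1 rfl
    have hP0 := hP hxy
    rw [Finset.mem_product] at hP0
    refine ⟨insert x0 A', Function.update ψ x0 y0, ?_, ?_, ?_, ?_⟩
    · intro x hx
      rw [Finset.mem_insert] at hx
      rcases hx with rfl | hx
      · exact hP0.1
      · exact h1 hx
    · rw [Finset.card_insert_of_notMem hx0, h2]
    · have hA : ∀ x ∈ A', x ≠ x0 ∧ ψ x ≠ y0 := by
        intro x hx
        have := h4 x hx
        rw [hP', Finset.mem_filter] at this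
        exact this.2
      intro a ha b hb hab
      rw [Finset.mem_coe, Finset.mem_insert] at ha hb
      rcases ha with rfl | ha <;> rcases hb with rfl | hb
      · rfl
      · rw [Function.update_self, Function.update_of_ne (hA b hb).1] at hab
        exact absurd hab.symm (hA b hb).2
      · rw [Function.update_self, Function.update_of_ne (hA a ha).1] at hab
        exact absurd hab (hA a ha).2
      · rw [Function.update_of_ne (hA b hb).1, Function.update_of_ne (hA a ha).1] at hab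
        exact h3 ha hb hab
    · intro x hx
      rw [Finset.mem_insert] at hx
      rcases hx with rfl | hx
      · rw [Function.update_self]
        exact hxy
      · have := h4 x hx
        rw [hP', Finset.mem_filter] at this
        rw [Function.update_of_ne this.2.1]
        exact this.1

/-- Hall-type matching -/
theorem hall_match {X Y : Type} [Nonempty Y] (I : Finset X) (U : Finset Y) (rel : X → Y → Prop)
    (h1 : #I ≤ #U) (h2 : ∀ x ∈ I, #I ≤ 2 * #{u ∈ U | rel x u})
    (h3 : ∀ u ∈ U, 2 * #{x ∈ I | ¬ rel x u} ≤ #I) :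
    ∃ ψ : X → Y, Set.InjOn ψ I ∧ ∀ x ∈ I, ψ x ∈ U ∧ rel x (ψ x) := by
  have hall : ∀ s : Finset {x // x ∈ I}, #s ≤ #(s.biUnion fun x => {u ∈ U | rel x.1 u}) := by
    intro s
    by_cases hs : 2 * #s ≤ #I
    · rcases s.eq_empty_or_nonempty with rfl | ⟨x, hx⟩
      · simp
      · have e1 := h2 x.1 x.2
        have e2 : #{u ∈ U | rel x.1 u} ≤ #(s.biUnion fun x => {u ∈ U | rel x.1 u}) :=
          Finset.card_le_card (Finset.subset_biUnion_of_mem (fun x : {x // x ∈ I} =>
            {u ∈ U | rel x.1 u}) hx)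
        omega
    · have e1 : U ⊆ s.biUnion fun x => {u ∈ U | rel x.1 u} := by
        intro u hu
        by_contra hcon
        rw [Finset.mem_biUnion] at hcon
        push Not at hcon
        have e2 : s.image (fun x => x.1) ⊆ {x ∈ I | ¬ rel x u} := by
          intro x hx
          rw [Finset.mem_image] at hx
          obtain ⟨y, hy, rfl⟩ := hx
          rw [Finset.mem_filter]
          refine ⟨y.2, fun hr => hcon y hy ?_⟩
          rw [Finset.mem_filter]
          exact ⟨hu, hr⟩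
        have e3 := Finset.card_le_card e2
        rw [Finset.card_image_of_injective _ Subtype.val_injective] at e3
        have e4 := h3 u hu
        omega
      have e2 : #s ≤ #I := by
        have := Finset.card_le_univ s
        rwa [Fintype.card_coe] at this
      exact e2.trans (h1.trans (Finset.card_le_card e1))
  obtain ⟨f, hf1, hf2⟩ := (Finset.all_card_le_biUnion_card_iff_exists_injective _).1 hall
  refine ⟨fun x => if h : x ∈ I then f ⟨x, h⟩ else Classical.arbitrary Y, ?_, ?_⟩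
  · intro a ha b hb hab
    rw [Finset.mem_coe] at ha hb
    simp only [ha, hb, dif_pos] at hab
    have := hf1 hab
    exact congrArg Subtype.val this
  · intro x hx
    simp only [hx, dif_pos]
    have := hf2 ⟨x, hx⟩
    rw [Finset.mem_filter] at this
    exact this

/-- the greedy lemma for the vertices of a graph in a given order -/
theorem greedyG {V : Type} [Nonempty V] (Γ : SimpleGraph V) {n : ℕ} (G : SimpleGraph (Fin n))
    (S : Finset (Fin n)) (m : ℕ) (e : ℕ → Fin n) (he1 : ∀ i < m, ∀ j < m, e i = e j → i = j)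
    (he2 : ∀ v, v ∈ S ↔ ∃ i < m, e i = v) (D : ℕ)
    (he3 : ∀ j < m, #{i ∈ range j | G.Adj (e i) (e j)} ≤ D)
    {A : Type} (s : Finset A) (σ : A → Prop) (T : Fin n → Finset V) (K : Fin n → ℝ) (B : ℝ)
    (hB0 : 0 ≤ B)
    (f : A → Fin n → V → ℝ) (μ : A → Fin n → ℝ)
    (hB : ∀ u ∈ S, ∀ v ∈ S, G.Adj u v → ∀ x ∈ T u, (dg Γ x (T v) : ℝ) ≤ B)
    (hK : ∀ j < m, (#{i ∈ range j | ¬ Disjoint (T (e i)) (T (e j))} : ℝ) +
      D * B + K (e j) ≤ #(T (e j)))
    (hKpos : ∀ v ∈ S, 0 < K v)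
    (hf : ∀ a ∈ s, ∀ v ∈ S, ∀ x ∈ T v, 0 ≤ f a v x)
    (hμ : ∀ a ∈ s, ∀ v ∈ S, 0 ≤ μ a v)
    (hup : ∀ a ∈ s, σ a → ∀ v ∈ S, ∀ C ⊆ T v, K v ≤ #C → ∑ x ∈ C, f a v x ≤ μ a v * #C)
    (hlo : ∀ a ∈ s, ¬ σ a → ∀ v ∈ S, ∀ C ⊆ T v, K v ≤ #C → μ a v * #C ≤ ∑ x ∈ C, f a v x)
    (w : A → ℝ) (hw1 : ∀ a ∈ s, σ a → 0 ≤ w a) (hw2 : ∀ a ∈ s, ¬ σ a → w a ≤ 0) :
    ∃ φ : Fin n → V, (∀ v ∈ S, φ v ∈ T v) ∧ (∀ u ∈ S, ∀ v ∈ S, φ u = φ v → u = v) ∧
      (∀ u ∈ S, ∀ v ∈ S, G.Adj u v → ¬ Γ.Adj (φ u) (φ v)) ∧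
      ∑ a ∈ s, w a * ∏ v ∈ S, f a v (φ v) ≤ ∑ a ∈ s, w a * ∏ v ∈ S, μ a v := by
  have hmem : ∀ i < m, e i ∈ S := fun i hi => (he2 _).2 ⟨i, hi, rfl⟩
  obtain ⟨φ, h1, h2, h3, h4⟩ := greedy Γ s σ (fun i j => G.Adj (e i) (e j)) (fun i => T (e i))
    (fun i => K (e i)) (fun _ => B) (fun a i => f a (e i)) (fun a i => μ a (e i)) m
    (fun j hj i hi hadj x hx => hB (e i) (hmem i (by omega)) (e j) (hmem j hj) hadj x hx)
    (fun j hj => by
      have e1 := hK j hj
      have e2 : (#{i ∈ range j | G.Adj (e i) (e j)} : ℝ) * B ≤ D * B :=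
        mul_le_mul_of_nonneg_right (by exact_mod_cast he3 j hj) hB0
      linarith)
    (fun j hj => hKpos _ (hmem j hj))
    (fun a ha i hi x hx => hf a ha _ (hmem i hi) x hx)
    (fun a ha i hi => hμ a ha _ (hmem i hi))
    (fun a ha hs i hi => hup a ha hs _ (hmem i hi))
    (fun a ha hs i hi => hlo a ha hs _ (hmem i hi)) w hw1 hw2
  have hinv : ∀ v, ∃ i, v ∈ S → i < m ∧ e i = v := by
    intro v
    by_cases hv : v ∈ S
    · obtain ⟨i, hi, hiv⟩ := (he2 v).1 hv
      exact ⟨i, fun _ => ⟨hi, hiv⟩⟩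
    · exact ⟨0, fun h => absurd h hv⟩
  choose ι hι using hinv
  have hιe : ∀ i < m, ι (e i) = i := by
    intro i hi
    obtain ⟨k1, k2⟩ := hι (e i) (hmem i hi)
    exact he1 _ k1 _ hi k2
  have hprod : ∀ g : Fin n → ℝ, ∏ v ∈ S, g v = ∏ i ∈ range m, g (e i) := by
    intro g
    have hS : S = (range m).image e := by
      ext v
      rw [he2, Finset.mem_image]
      simp only [Finset.mem_range]
    rw [hS, Finset.prod_image]
    intro i hi j hj hij
    rw [Finset.mem_coe, Finset.mem_range] at hi hj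
    exact he1 i hi j hj hij
  refine ⟨fun v => φ (ι v), ?_, ?_, ?_, ?_⟩
  · intro v hv
    obtain ⟨k1, k2⟩ := hι v hv
    have := h1 _ k1
    rw [k2] at this
    exact this
  · intro u hu v hv huv
    obtain ⟨k1, k2⟩ := hι u hu
    obtain ⟨k3, k4⟩ := hι v hv
    by_contra hne
    apply h2 _ k1 _ k3 _ huv
    intro h
    rw [← k2, ← k4, h] at hne
    exact hne rfl
  · intro u hu v hv huv
    obtain ⟨k1, k2⟩ := hι u hu
    obtain ⟨k3, k4⟩ := hι v hv
    rcases lt_trichotomy (ι u) (ι v) with hlt | heq | hgt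
    · exact h3 _ _ hlt k3 (by rw [k2, k4]; exact huv)
    · exfalso
      rw [← k2, ← k4, heq] at huv
      exact huv.ne rfl
    · intro h
      exact h3 _ _ hgt k1 (by rw [k2, k4]; exact huv.symm) h.symm
  · have e1 : ∀ a, ∏ v ∈ S, f a v (φ (ι v)) = ∏ i ∈ range m, f a (e i) (φ i) := by
      intro a
      rw [hprod (fun v => f a v (φ (ι v)))]
      apply Finset.prod_congr rfl
      intro i hi
      rw [Finset.mem_range] at hi
      rw [hιe i hi]
    have e2 : ∀ a, ∏ v ∈ S, μ a v = ∏ i ∈ range m, μ a (e i) := fun a => hprod (μ a)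
    simp only [e1, e2]
    exact h4

end Pool.Agent.H66.RG
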