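import Pool.Agent.H66.RG.Chain

open Finset Classical

namespace Pool.Agent.H66.RG

/-- kinds of target sets: a main set of a cluster, or the linking set in `a` towards `b` -/
inductive Kind (W : Type) : Type
  | J : W → Kind W
  | X : W → W → Kind W

/-- the cluster in which the target set lies -/
def Kind.home {W : Type} : Kind W → W
  | Kind.J a => a
  | Kind.X a _ => a

/-- linking kind -/
def Kind.isX {W : Type} : Kind W → Prop
  | Kind.J _ => False
  | Kind.X _ _ => True

/-- routes through the clusters -/
inductive Route {W : Type} (𝒢 : SimpleGraph W) : W → W → List (Kind W) → Prop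
  | nil (h : W) : Route 𝒢 h h []
  | stay {h h' : W} {κ : List (Kind W)} : Route 𝒢 h h' κ → Route 𝒢 h h' (Kind.J h :: κ)
  | move {h g h' : W} {κ : List (Kind W)} : 𝒢.Adj h g → Route 𝒢 g h' κ →
      Route 𝒢 h h' (Kind.X h g :: Kind.X g h :: κ)

theorem Route.trans {W : Type} {𝒢 : SimpleGraph W} {a b c : W} {κ κ' : List (Kind W)}
    (h1 : Route 𝒢 a b κ) (h2 : Route 𝒢 b c κ') : Route 𝒢 a c (κ ++ κ') := by
  induction h1 with
  | nil => simpa using h2
  | stay _ ih => exact Route.stay (ih h2)
  | move hadj _ ih => exact Route.move hadj (ih h2)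

/-- relation between consecutive kinds -/
def KRel {W : Type} (𝒢 : SimpleGraph W) (k k' : Kind W) : Prop :=
  k.home = k'.home ∨ ∃ a b, 𝒢.Adj a b ∧ k = Kind.X a b ∧ k' = Kind.X b a

theorem Route.head {W : Type} {𝒢 : SimpleGraph W} {a b : W} {κ : List (Kind W)}
    (h : Route 𝒢 a b κ) : ∀ k ∈ κ.head?, k.home = a := by
  cases h with
  | nil => simp
  | stay _ => simp [Kind.home]
  | move _ _ => simp [Kind.home]

theorem Route.chain {W : Type} {𝒢 : SimpleGraph W} {a b : W} {κ : List (Kind W)}
    (h : Route 𝒢 a b κ) : List.IsChain (KRel 𝒢) κ := by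
  induction h with
  | nil => simp
  | @stay h h' κ hr ih =>
    cases κ with
    | nil => simp
    | cons k κ =>
      rw [List.isChain_cons_cons]
      refine ⟨Or.inl ?_, ih⟩
      have := hr.head k (by simp)
      rw [this]
      rfl
  | @move h g h' κ hadj hr ih =>
    rw [List.isChain_cons_cons]
    refine ⟨Or.inr ⟨h, g, hadj, rfl, rfl⟩, ?_⟩
    cases κ with
    | nil => simp
    | cons k κ =>
      rw [List.isChain_cons_cons]
      refine ⟨Or.inl ?_, ih⟩
      have := hr.head k (by simp)
      rw [this]
      rfl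

theorem Route.valid {W : Type} {𝒢 : SimpleGraph W} {a b : W} {κ : List (Kind W)}
    (h : Route 𝒢 a b κ) : ∀ k ∈ κ, (∃ a, k = Kind.J a) ∨ ∃ a b, 𝒢.Adj a b ∧ k = Kind.X a b := by
  induction h with
  | nil => simp
  | @stay h h' κ hr ih =>
    intro k hk
    rw [List.mem_cons] at hk
    rcases hk with rfl | hk
    · exact Or.inl ⟨_, rfl⟩
    · exact ih k hk
  | @move h g h' κ hadj hr ih =>
    intro k hk
    rw [List.mem_cons, List.mem_cons] at hk
    rcases hk with rfl | rfl | hk
    · exact Or.inr ⟨_, _, hadj, rfl⟩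
    · exact Or.inr ⟨_, _, hadj.symm, rfl⟩
    · exact ih k hk

theorem Route.replicate {W : Type} (𝒢 : SimpleGraph W) (a : W) (k : ℕ) :
    Route 𝒢 a a (List.replicate k (Kind.J a)) := by
  induction k with
  | zero => exact Route.nil a
  | succ k ih =>
    rw [List.replicate_succ]
    exact Route.stay ih

theorem route_of_walk {W : Type} {𝒢 : SimpleGraph W} {a b : W} (p : 𝒢.Walk a b) :
    ∃ κ, Route 𝒢 a b κ ∧ (∀ c, κ.countP (fun k => decide (k = Kind.J c)) = 0) ∧
      κ.countP (fun k => decide k.isX) = 2 * p.length := by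
  induction p with
  | nil => exact ⟨[], Route.nil _, by simp, by simp⟩
  | @cons u v w h p ih =>
    obtain ⟨κ, h1, h2, h3⟩ := ih
    refine ⟨_, Route.move h h1, ?_, ?_⟩
    · intro c
      rw [List.countP_cons, List.countP_cons, h2]
      simp
    · rw [List.countP_cons, List.countP_cons, h3, SimpleGraph.Walk.length_cons]
      have hx1 : (Kind.X u v).isX := trivial
      have hx2 : (Kind.X v u).isX := trivial
      simp only [hx1, hx2, decide_true, if_true]
      omega

theorem exists_route {W : Type} [Fintype W] (𝒢 : SimpleGraph W) (r : W) (k : W → ℕ)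
    (𝒮 : Finset W) (h𝒮 : ∀ a ∈ 𝒮, 𝒢.Reachable r a) :
    ∃ h κ, 𝒢.Reachable r h ∧ Route 𝒢 r h κ ∧
      (∀ a, κ.countP (fun x => decide (x = Kind.J a)) = if a ∈ 𝒮 then k a else 0) ∧
      κ.countP (fun k => decide k.isX) ≤ 2 * Fintype.card W * #𝒮 := by
  induction 𝒮 using Finset.induction_on with
  | empty => exact ⟨r, [], SimpleGraph.Reachable.refl _, Route.nil _, by simp, by simp⟩
  | insert a 𝒮 ha ih =>
    obtain ⟨h, κ, h1, h2, h3, h4⟩ := ih (fun b hb => h𝒮 b (Finset.mem_insert_of_mem hb))
    have hreach : 𝒢.Reachable h a := h1.symm.trans (h𝒮 a (Finset.mem_insert_self _ _))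
    obtain ⟨p, hp⟩ := hreach.exists_isPath
    obtain ⟨κ1, g1, g2, g3⟩ := route_of_walk p
    refine ⟨a, (κ ++ κ1) ++ List.replicate (k a) (Kind.J a), h𝒮 a (Finset.mem_insert_self _ _),
      (h2.trans g1).trans (Route.replicate 𝒢 a (k a)), ?_, ?_⟩
    · intro c
      rw [List.countP_append, List.countP_append, h3, g2]
      by_cases hca : c = a
      · subst hca
        simp [ha, List.countP_replicate]
      · have : ¬ (Kind.J a = Kind.J c) := by
          intro h; injection h with h; exact hca h.symm
        simp [List.countP_replicate, this, Finset.mem_insert, hca]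
    · rw [List.countP_append, List.countP_append, g3]
      have : (List.replicate (k a) (Kind.J a)).countP (fun k => decide k.isX) = 0 := by
        rw [List.countP_replicate]
        have hx : ¬ (Kind.J a).isX := id
        simp [hx]
      rw [this, Finset.card_insert_of_notMem ha]
      have := hp.length_lt
      nlinarith

theorem card_range_getD {α : Type} (l : List α) (x0 : α) (P : α → Prop) :
    #{k ∈ range l.length | P (l.getD k x0)} = l.countP (fun x => decide (P x)) := by
  induction l with
  | nil => simp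
  | cons a l ih =>
    rw [List.length_cons, Finset.card_filter, Finset.sum_range_succ', ← Finset.card_filter]
    rw [List.countP_cons]
    simp only [List.getD_cons_succ, List.getD_cons_zero]
    rw [ih]
    by_cases h : P a <;> simp [h]

/-- a small subset which contains a good proportion of every one of the given sets -/
theorem reserve {V W : Type} (θ : ℝ) (h0 : 0 ≤ θ) (h1 : θ ≤ 1) (A : W → Finset V) (s : Finset W)
    (S : Finset V) : ∃ F ⊆ S, θ * #S ≤ #F ∧ (#F : ℝ) ≤ θ * #S + 2 ^ #s ∧
      ∀ a ∈ s, θ * #(A a ∩ S) ≤ #(F ∩ A a) := by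
  induction s using Finset.induction_on generalizing S with
  | empty =>
    have hle : ⌈θ * #S⌉₊ ≤ #S := by
      rw [Nat.ceil_le]
      have : (0 : ℝ) ≤ #S := by positivity
      nlinarith
    obtain ⟨F, hF, hFc⟩ := Finset.exists_subset_card_eq hle
    refine ⟨F, hF, ?_, ?_, by simp⟩
    · rw [hFc]; exact Nat.le_ceil _
    · rw [hFc]
      have := Nat.ceil_lt_add_one (show 0 ≤ θ * #S by positivity)
      simp
      linarith
  | insert a s ha ih =>
    obtain ⟨F1, f1, f2, f3, f4⟩ := ih (S ∩ A a)
    obtain ⟨F2, g1, g2, g3, g4⟩ := ih (S \ A a)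
    have hdisj : Disjoint F1 F2 := by
      rw [Finset.disjoint_left]
      intro x hx1 hx2
      have := f1 hx1
      have := g1 hx2
      simp_all
    have hcS : (#S : ℝ) = #(S ∩ A a) + #(S \ A a) := by
      exact_mod_cast (Finset.card_inter_add_card_sdiff S (A a)).symm
    refine ⟨F1 ∪ F2, ?_, ?_, ?_, ?_⟩
    · intro x hx
      rw [Finset.mem_union] at hx
      rcases hx with hx | hx
      · exact Finset.mem_of_mem_inter_left (f1 hx)
      · exact (Finset.mem_sdiff.mp (g1 hx)).1
    · rw [Finset.card_union_of_disjoint hdisj, hcS]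
      push_cast
      linarith
    · rw [Finset.card_union_of_disjoint hdisj, hcS, Finset.card_insert_of_notMem ha]
      push_cast
      rw [pow_succ]
      linarith
    · intro c hc
      rw [Finset.mem_insert] at hc
      rcases hc with rfl | hc
      · have e1 : F1 ⊆ (F1 ∪ F2) ∩ A c := by
          intro x hx
          rw [Finset.mem_inter, Finset.mem_union]
          exact ⟨Or.inl hx, Finset.mem_of_mem_inter_right (f1 hx)⟩
        have e2 : (#F1 : ℝ) ≤ #((F1 ∪ F2) ∩ A c) := by exact_mod_cast Finset.card_le_card e1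
        rw [Finset.inter_comm S (A c)] at f2
        linarith
      · have e1 := f4 c hc
        have e2 := g4 c hc
        have e3 : (#((F1 ∪ F2) ∩ A c) : ℝ) = #(F1 ∩ A c) + #(F2 ∩ A c) := by
          rw [Finset.union_inter_distrib_right, Finset.card_union_of_disjoint]
          · push_cast; ring
          · exact Finset.disjoint_of_subset_left Finset.inter_subset_left
              (Finset.disjoint_of_subset_right Finset.inter_subset_left hdisj)
        have e4 : (#(A c ∩ S) : ℝ) = #(A c ∩ (S ∩ A a)) + #(A c ∩ (S \ A a)) := by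
          have := Finset.card_inter_add_card_sdiff (A c ∩ S) (A a)
          have e5 : A c ∩ (S ∩ A a) = A c ∩ S ∩ A a := by rw [Finset.inter_assoc]
          have e6 : A c ∩ (S \ A a) = (A c ∩ S) \ A a := by
            ext x; simp only [Finset.mem_inter, Finset.mem_sdiff]; tauto
          rw [e5, e6]
          exact_mod_cast this.symm
        rw [e3, e4]
        linarith

end Pool.Agent.H66.RG
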