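import Pool.Agent.H66.RG.CaseA2
import Pool.Agent.H66.RG.CaseB

open Finset Classical

namespace Pool.Agent.H66.RG

theorem upper_bound (d q σ t : ℕ) (hq : 0 < q) (hσ : 0 < σ) (hσt : σ ≤ t) :
    ∃ κb : ℝ, 0 < κb ∧ ∀ᶠ n : ℕ in Filter.atTop, ∀ b : ℕ, (b : ℝ) ≤ κb * n →
      ∀ (G : SimpleGraph (Fin n)), Degen G d → ∀ p : Fin n → ℕ, BW G p b →
      ∀ (V : Type) [Fintype V] (Γ : SimpleGraph V), Fintype.card V = q * (n - 1) + σ →
      ¬ HasH Γ q σ t →
      ∃ φ : Fin n → V, Function.Injective φ ∧ ∀ u v, G.Adj u v → ¬ Γ.Adj (φ u) (φ v) := by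
  have hq0 : (0 : ℝ) < q := by exact_mod_cast hq
  have hσ0 : (0 : ℝ) < σ := by exact_mod_cast hσ
  have ht : 0 < t := lt_of_lt_of_le hσ hσt
  have ht0 : (0 : ℝ) < t := by exact_mod_cast ht
  set E : ℝ := Real.exp (8 * d) with hE
  have hE0 : 0 < E := Real.exp_pos _
  set κ : ℝ := 1 / (4 * (4 * d + 1)) with hκ
  have hκ0 : 0 < κ := by positivity
  set κ1 : ℝ := min (κ / 2) (1 / (16 * σ)) with hκ1
  have hκ10 : 0 < κ1 := by positivity
  set δ : ℝ := min (1 / 2) (κ1 / (4 * E)) with hδ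
  have hδ0 : 0 < δ := by positivity
  have hδE : E * (2 * δ) ≤ κ1 / 2 := by
    have h1 : δ ≤ κ1 / (4 * E) := min_le_right _ _
    rw [le_div_iff₀ (by positivity)] at h1
    linarith
  obtain ⟨m0, c', hc', hc'1, Hp⟩ := pigs q σ δ hδ0
  set ρ : ℝ := min (1 / 2) (c' / (2 * t)) with hρ
  have hρ0 : 0 < ρ := by positivity
  have hρt : t * ρ ≤ c' / 2 := by
    have h1 : ρ ≤ c' / (2 * t) := min_le_right _ _
    rw [le_div_iff₀ (by positivity)] at h1
    linarith
  set x : ℝ := m0 * (4 * E / κ1) ^ t * (4 * q) + 4 * q with hx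
  have hx0 : 0 < x := by positivity
  obtain ⟨M0, hM0⟩ := exists_pow_lt_of_lt_one (show (0 : ℝ) < 1 / x by positivity)
    (show (1 / 2 : ℝ) < 1 by norm_num)
  have hM0' : (1 / 2 : ℝ) ^ M0 * x ≤ 1 := by
    rw [lt_div_iff₀ hx0] at hM0
    exact hM0.le
  set M : ℕ := M0 + t + 2 with hM
  have hMpow : (1 / 2 : ℝ) ^ M ≤ (1 / 2) ^ M0 :=
    pow_le_pow_of_le_one (by norm_num) (by norm_num) (by omega)
  have hMpow' : (1 / 2 : ℝ) ^ (M - t) ≤ (1 / 2) ^ M0 :=
    pow_le_pow_of_le_one (by norm_num) (by norm_num) (by omega)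
  have hM1 : (1 / 2 : ℝ) ^ M * (4 * q) ≤ 1 := by
    have h1 : (1 / 2 : ℝ) ^ M * (4 * q) ≤ (1 / 2) ^ M0 * x := by
      apply mul_le_mul hMpow _ (by positivity) (by positivity)
      have : 0 ≤ (m0 : ℝ) * (4 * E / κ1) ^ t * (4 * q) := by positivity
      linarith
    linarith
  have hM3 : (1 / 2 : ℝ) ^ (M - t) * m0 * (4 * E / κ1) ^ t * (4 * q) ≤ 1 := by
    have h1 : (1 / 2 : ℝ) ^ (M - t) * (m0 * (4 * E / κ1) ^ t * (4 * q)) ≤ (1 / 2) ^ M0 * x := by
      apply mul_le_mul hMpow' _ (by positivity) (by positivity)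
      linarith
    have h2 : (1 / 2 : ℝ) ^ (M - t) * m0 * (4 * E / κ1) ^ t * (4 * q) =
      (1 / 2 : ℝ) ^ (M - t) * (m0 * (4 * E / κ1) ^ t * (4 * q)) := by ring
    rw [h2]
    linarith
  set β' : ℝ := min (δ / 4) (κ1 / (8 * (4 * d * m0 + d + 1))) with hβ'
  have hβ'0 : 0 < β' := by positivity
  have hβ'2 : (4 * d * m0 + d) * (2 * β') ≤ κ1 / 4 := by
    have h1 : β' ≤ κ1 / (8 * (4 * d * m0 + d + 1)) := min_le_right _ _
    rw [le_div_iff₀ (by positivity)] at h1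
    linarith
  set c4 : ℝ := min (β' / (4 * q)) (min (κ / (64 * q)) (1 / (32 * σ * q))) with hc4
  have hc40 : 0 < c4 := by positivity
  have hc41 : q * c4 ≤ β' / 4 := by
    have h1 : c4 ≤ β' / (4 * q) := min_le_left _ _
    rw [le_div_iff₀ (by positivity)] at h1
    linarith
  have hc42 : q * c4 ≤ κ / 64 := by
    have h1 : c4 ≤ κ / (64 * q) := (min_le_right _ _).trans (min_le_left _ _)
    rw [le_div_iff₀ (by positivity)] at h1
    linarith
  have hc43 : q * c4 ≤ 1 / (32 * σ) := by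
    have h1 : c4 ≤ 1 / (32 * σ * q) := (min_le_right _ _).trans (min_le_right _ _)
    rw [le_div_iff₀ (by positivity)] at h1 ⊢
    linarith
  obtain ⟨εB, γB, hεB, hγB, hB⟩ := caseB d ρ c4 hρ0 ((min_le_left _ _).trans (by norm_num)) hc40
  set ε : ℝ := min (min (β' / (4 * q)) (κ / 32)) (min εB 1) with hε
  have hε0 : 0 < ε := by positivity
  have hε1 : q * ε ≤ β' / 4 := by
    have h1 : ε ≤ β' / (4 * q) := (min_le_left _ _).trans (min_le_left _ _)
    rw [le_div_iff₀ (by positivity)] at h1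
    linarith
  have hε2 : ε ≤ κ / 32 := (min_le_left _ _).trans (min_le_right _ _)
  have hεB' : ε ≤ εB := (min_le_right _ _).trans (min_le_left _ _)
  have hεone : ε ≤ 1 := (min_le_right _ _).trans (min_le_right _ _)
  set γ : ℝ := min (β' * min (κ / 32) (1 / (32 * σ))) γB with hγ
  have hγ0 : 0 < γ := by positivity
  have hγ1 : γ ≤ β' * (κ / 32) :=
    (min_le_left _ _).trans (mul_le_mul_of_nonneg_left (min_le_left _ _) hβ'0.le)
  have hγ2 : γ ≤ β' * (1 / (32 * σ)) :=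
    (min_le_left _ _).trans (mul_le_mul_of_nonneg_left (min_le_right _ _) hβ'0.le)
  have hγB' : γ ≤ γB := min_le_right _ _
  obtain ⟨κb1, hκb1, hS⟩ := structure_thm d q t hq ε γ (c' / 4) hε0 hεone hγ0 (by positivity)
  have hMpos : (0 : ℝ) < M := by
    have : 0 < M := by omega
    exact_mod_cast this
  refine ⟨min κb1 (min (1 / (16 * (m0 + 1))) (κ / (8 * M))), by positivity, ?_⟩
  filter_upwards [hS, hB, ev_lin (4 * σ) β' hβ'0, ev_lin 1 (2 * δ) (by positivity),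
    ev_lin (2 * t * E) κ1 hκ10, ev_lin ((q + 1) * (2 * t * E / κ1) ^ 2 * (4 * q)) 1 one_pos,
    ev_lin (4 * M) κ hκ0, ev_lin (4 * d * m0) (κ1 / 4) (by positivity),
    Filter.eventually_ge_atTop (σ + 4 * m0 + 4 * (m0 + 4 * d * m0) + 1)] with n
    kS kB k1 k2 k3 k4 k5 k6 k7
  intro b hb G hG p hp V _ Γ hV hH
  have hn : 0 < n := by omega
  have hn0 : (0 : ℝ) < n := by exact_mod_cast hn
  have hb1 : (b : ℝ) ≤ κb1 * n := hb.trans (mul_le_mul_of_nonneg_right (min_le_left _ _) hn0.le)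
  have hb2 : (b : ℝ) ≤ 1 / (16 * (m0 + 1)) * n := hb.trans (mul_le_mul_of_nonneg_right
    ((min_le_right _ _).trans (min_le_left _ _)) hn0.le)
  have hb3 : (b : ℝ) ≤ κ / (8 * M) * n := hb.trans (mul_le_mul_of_nonneg_right
    ((min_le_right _ _).trans (min_le_right _ _)) hn0.le)
  rcases kS b hb1 G hG p hp V Γ (by omega) (fun h => hH (HasH.of_multi hσt h)) with hemb | hC
  · exact hemb
  obtain ⟨C, hCd, hC1, hC2, hC3⟩ := hC
  by_cases hcase : ∀ i j, i ≠ j → (#{v ∈ C j | ρ * (#(C i) : ℝ) ≤ rdg Γ v (C i)} : ℝ) ≤ c4 * n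
  · have hN1 : 2 * (m0 * (4 * b + 1)) ≤ n := by
      have h1 : (16 * (m0 + 1) : ℝ) * b ≤ n := by
        rw [div_mul_eq_mul_div, one_mul, le_div_iff₀ (by positivity)] at hb2
        linarith
      have h2 : 16 * (m0 + 1) * b ≤ n := by exact_mod_cast h1
      have h3 : 16 * (m0 * b) ≤ n := by
        have : 16 * (m0 + 1) * b = 16 * (m0 * b) + 16 * b := by ring
        omega
      have h4 : 2 * (m0 * (4 * b + 1)) = 8 * (m0 * b) + 2 * m0 := by ring
      omega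
    have hN3 : 2 * M * (2 * b + 1) ≤ κ * n := by
      have h1 : (b : ℝ) * (8 * M) ≤ κ * n := by
        rw [div_mul_eq_mul_div, le_div_iff₀ (by positivity)] at hb3
        exact hb3
      have h2 : 2 * (M : ℝ) * (2 * b + 1) = (b * (8 * M)) / 2 + (4 * M) / 2 := by ring
      rw [h2]
      linarith
    exact caseA_core d q σ t m0 M κ κ1 δ c' ρ (c' / 4) β' c4 γ ε E hq hσ ht hE hκ hκ10
      (min_le_left _ _) (min_le_right _ _) hδ0 (min_le_left _ _) hδE Hp hc' hc'1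
      (min_le_left _ _) hρt (by positivity) le_rfl (by omega) (by omega) hM1 hM3 hβ'0
      (min_le_left _ _) hβ'2 hc40 hc41 hc42 hc43 hγ1 hγ2 hε0 hε1 hε2 hn k1 k2 k3
      (by linarith) hN1 (by omega) hN3 k6 (by omega) G hG hp Γ hV hH C hCd hC1 hC2 hC3 hcase
  · push Not at hcase
    obtain ⟨i, j, hij, hlt⟩ := hcase
    refine kB G hG V Γ (C i) {v ∈ C j | ρ * (#(C i) : ℝ) ≤ rdg Γ v (C i)} ?_ ?_ ?_ ?_ hlt.le ?_
    · exact Finset.disjoint_of_subset_right (Finset.filter_subset _ _) (hCd i j hij)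
    · have h1 : (1 - εB) * (n : ℝ) ≤ (1 - ε) * n :=
        mul_le_mul_of_nonneg_right (by linarith) hn0.le
      exact h1.trans (hC1 i).1
    · have h1 : (1 + ε) * (n : ℝ) ≤ 2 * n := mul_le_mul_of_nonneg_right (by linarith) hn0.le
      exact (hC1 i).2.trans h1
    · exact (hC2 i).trans (mul_le_mul_of_nonneg_right hγB' (by positivity))
    · intro u hu
      rw [Finset.mem_filter] at hu
      exact hu.2

end Pool.Agent.H66.RG
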